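import Pool.Agent.UBX.St

/-!
# Campaign UBX (MP_303581_co): combinatorial lower bound in units of `k`
-/

set_option autoImplicit false

open Finset

namespace Pool.Agent.UBX

open Pool.Agent.BKU

private theorem CF_ww1 (f g a b : ℕ) (ha : a ≤ f) (hb : b ≤ g) : ww (f + a) (g + b) + ((a : ℤ) + b) = ww f g := by
  unfold ww
  rcases Nat.eq_zero_or_pos f with hf | hf
  · subst hf
    obtain rfl : a = 0 := by omega
    rcases Nat.eq_zero_or_pos g with hg | hg
    · subst hg
      obtain rfl : b = 0 := by omega
      simp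
    · rw [if_neg (by omega), if_pos (by omega), if_neg (by omega), if_pos (by omega)]
      push_cast
      ring
  · rcases Nat.eq_zero_or_pos g with hg | hg
    · subst hg
      obtain rfl : b = 0 := by omega
      rw [if_neg (by omega), if_pos (by omega), if_neg (by omega), if_pos (by omega)]
      push_cast
      ring
    · rw [if_neg (by omega), if_neg (by omega), if_neg (by omega), if_neg (by omega)]
      push_cast
      ring

private theorem CF_ww2 (a b : ℕ) : - rk a b ≤ ww (2 * a) (2 * b) := by
  unfold ww rk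
  rcases Nat.eq_zero_or_pos a with hf | hf
  · subst hf
    rcases Nat.eq_zero_or_pos b with hg | hg
    · subst hg
      simp
    · rw [if_neg (by omega), if_pos (by omega), if_neg (by omega), if_pos (by omega)]
      push_cast
      linarith
  · rcases Nat.eq_zero_or_pos b with hg | hg
    · subst hg
      rw [if_neg (by omega), if_pos (by omega), if_neg (by omega), if_pos (by omega)]
      push_cast
      linarith
    · rw [if_neg (by omega), if_neg (by omega), if_neg (by omega), if_neg (by omega)]
      push_cast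
      linarith

private theorem CF_rk (a b : ℕ) : 0 ≤ rk a b := by
  unfold rk
  split_ifs with h1 h2 <;> omega

private theorem CF_pos {V : Type} (F : Finset V) (p : V → Prop) : 1 ≤ ct F p ↔ ∃ v ∈ F, p v := by
  classical
  unfold ct
  rw [Nat.succ_le_iff, Finset.card_pos]
  constructor
  · rintro ⟨v, hv⟩
    exact ⟨v, (Finset.mem_filter.1 hv).1, (Finset.mem_filter.1 hv).2⟩
  · rintro ⟨v, hv, hp⟩
    exact ⟨v, Finset.mem_filter.2 ⟨hv, hp⟩⟩

private theorem CF_union {V : Type} [DecidableEq V] (F G : Finset V) (h : Disjoint F G) (p : V → Prop) :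
    ct (F ∪ G) p = ct F p + ct G p := by
  classical
  unfold ct
  rw [Finset.filter_union, Finset.card_union_of_disjoint]
  exact Finset.disjoint_filter_filter h

private theorem CF_key {δ t h : ℕ} (T : TSys δ t h) (U V : Finset (Fin δ)) (P : Finset (Fin t)) (hUV : Disjoint U V) :
    ∃ Δ : Finset (Fin δ), (∀ i ∈ P, ∀ x, 1 ≤ T.fl U V i x → 1 ≤ T.u Δ i x) ∧
      2 * (Δ.card : ℤ) - ∑ i, rk (T.u Δ i true) (T.u Δ i false) ≤
        2 * (U.card : ℤ) + V.card + ∑ i ∈ P, ww (T.fl U V i true) (T.fl U V i false) := by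
  classical
  set W : Finset (Fin δ) := V.filter fun v => ∃ i ∈ P, ∃ x, T.tg v i x with hW
  have hWV : W ⊆ V := Finset.filter_subset _ _
  have hd : Disjoint U W := Finset.disjoint_of_subset_right hWV hUV
  have huW : ∀ i ∈ P, ∀ x, T.u W i x = T.u V i x := by
    intro i hi x
    unfold TSys.u ct
    congr 1
    ext v
    simp only [hW, Finset.mem_filter]
    constructor
    · rintro ⟨⟨h1, _⟩, h2⟩
      exact ⟨h1, h2⟩
    · rintro ⟨h1, h2⟩
      exact ⟨⟨h1, i, hi, x, h2⟩, h2⟩
  have huD : ∀ i x, T.u (U ∪ W) i x = T.u U i x + T.u W i x := fun i x => CF_union U W hd _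
  refine ⟨U ∪ W, ?_, ?_⟩
  · intro i hi x hx
    rw [huD, huW i hi x]
    unfold TSys.fl at hx
    omega
  · have hcard : (U ∪ W).card = U.card + W.card := Finset.card_union_of_disjoint hd
    have h1 : ∀ i ∈ P, ww (2 * T.u (U ∪ W) i true) (2 * T.u (U ∪ W) i false) +
        ((T.u W i true : ℤ) + T.u W i false) = ww (T.fl U V i true) (T.fl U V i false) := by
      intro i hi
      have e : ∀ x, 2 * T.u (U ∪ W) i x = T.fl U V i x + T.u W i x := by
        intro x
        rw [huD]
        unfold TSys.fl
        rw [← huW i hi x]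
        ring
      have l : ∀ x, T.u W i x ≤ T.fl U V i x := by
        intro x
        unfold TSys.fl
        rw [← huW i hi x]
        omega
      rw [e true, e false]
      exact CF_ww1 _ _ _ _ (l true) (l false)
    have h2 : ∑ i ∈ P, ww (T.fl U V i true) (T.fl U V i false) =
        ∑ i ∈ P, ww (2 * T.u (U ∪ W) i true) (2 * T.u (U ∪ W) i false) +
          ∑ i ∈ P, ((T.u W i true : ℤ) + T.u W i false) := by
      rw [← Finset.sum_add_distrib]
      exact (Finset.sum_congr rfl h1).symm
    have h3 : (W.card : ℤ) ≤ ∑ i ∈ P, ((T.u W i true : ℤ) + T.u W i false) := by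
      have h4 : W.card ≤ ∑ i ∈ P, (T.u W i true + T.u W i false) := by
        have h5 : W ⊆ P.biUnion fun i => (W.filter fun v => T.tg v i true) ∪ (W.filter fun v => T.tg v i false) := by
          intro v hv
          obtain ⟨_, i, hi, x, hx⟩ := Finset.mem_filter.1 hv
          refine Finset.mem_biUnion.2 ⟨i, hi, ?_⟩
          cases x with
          | true => exact Finset.mem_union_left _ (Finset.mem_filter.2 ⟨hv, hx⟩)
          | false => exact Finset.mem_union_right _ (Finset.mem_filter.2 ⟨hv, hx⟩)
        refine le_trans (Finset.card_le_card h5) (le_trans Finset.card_biUnion_le ?_)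
        refine Finset.sum_le_sum fun i _ => ?_
        refine le_trans (Finset.card_union_le _ _) ?_
        exact le_of_eq rfl
      exact_mod_cast h4
    have h6 : - ∑ i, rk (T.u (U ∪ W) i true) (T.u (U ∪ W) i false) ≤
        ∑ i ∈ P, ww (2 * T.u (U ∪ W) i true) (2 * T.u (U ∪ W) i false) := by
      have h7 : ∑ i ∈ P, rk (T.u (U ∪ W) i true) (T.u (U ∪ W) i false) ≤
          ∑ i, rk (T.u (U ∪ W) i true) (T.u (U ∪ W) i false) :=
        Finset.sum_le_sum_of_subset_of_nonneg (Finset.subset_univ _) fun i _ _ => CF_rk _ _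
      have h8 : - ∑ i ∈ P, rk (T.u (U ∪ W) i true) (T.u (U ∪ W) i false) ≤
          ∑ i ∈ P, ww (2 * T.u (U ∪ W) i true) (2 * T.u (U ∪ W) i false) := by
        rw [← Finset.sum_neg_distrib]
        exact Finset.sum_le_sum fun i _ => CF_ww2 _ _
      linarith
    have h9 : (W.card : ℤ) ≤ V.card := by exact_mod_cast Finset.card_le_card hWV
    rw [h2, hcard]
    push_cast
    linarith

/-- Combinatorial lower bound in units of `k`. -/
theorem thm_CF : St_CF := by
  intro δ t h T hT U V P hUV
  obtain ⟨Δ, h1, h2⟩ := CF_key T U V P hUV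
  constructor
  · rintro ⟨i, hi, hx⟩
    have h3 : 1 ≤ T.fl U V i true ∨ 1 ≤ T.fl U V i false := by omega
    have hne : Δ.Nonempty := by
      rcases h3 with h3 | h3
      · obtain ⟨v, hv, _⟩ := (CF_pos _ _).1 (h1 i hi true h3)
        exact ⟨v, hv⟩
      · obtain ⟨v, hv, _⟩ := (CF_pos _ _).1 (h1 i hi false h3)
        exact ⟨v, hv⟩
    have := (hT Δ hne).1
    linarith
  · rintro ⟨i, hi, hx, hy⟩
    have h4 := h1 i hi true hx
    have h5 := h1 i hi false hy
    have hne : Δ.Nonempty := by
      obtain ⟨v, hv, _⟩ := (CF_pos _ _).1 h4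
      exact ⟨v, hv⟩
    have := (hT Δ hne).2 ⟨i, h4, h5⟩
    linarith

end Pool.Agent.UBX
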