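import Pool.Agent.UBX.St

set_option autoImplicit false

open Finset

namespace Pool.Agent.UBX

open Pool.Agent.BKU

theorem thm_DG (hST : BKU.St_ST) (hARD : BKU.St_ARD) : St_DG := by
  intro k h h1 hk A
  have hk' : h + 1 ≤ k := by nlinarith
  obtain ⟨e1, e2, e3, e4, e5⟩ := hST.2 k h A hk'
  obtain ⟨a1, a2, _, _⟩ := hARD k h h1 hk
  rw [e1]
  generalize ct A (fun a => a.val = 0) = d at *
  generalize ct A (fun a => 1 ≤ a.val ∧ a.val ≤ h) = n at *
  refine ⟨fun h2 => ?_, fun h2 => ?_, fun h2 => ?_⟩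
  · have := a1 A.card d n e2 e3 e4 e5 h2
    unfold gg at this
    linarith
  · rw [h2] at e4 ⊢
    have := a2 d n e4
    unfold gg at this
    push_cast at this ⊢
    linarith
  · rw [h2] at e4 ⊢
    have hd : d = 0 := by omega
    subst hd
    simp

end Pool.Agent.UBX

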