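import Pool.Agent.UBX.St

/-!
# Campaign UBX: module ED, the edges of the groups `D j`
-/

set_option autoImplicit false

open Finset

namespace Pool.Agent.UBX

open Pool.Agent.BKU

private lemma ED_ext {δ k : ℕ} (x y : Fin δ × Fin k) (hx : x.2.val = 0) (hy : y.2.val = 0)
    (h : x.1 = y.1) : x = y := by
  refine Prod.ext h ?_
  apply Fin.ext
  rw [hx, hy]

theorem thm_ED (hCP : BKU.St_CP) : St_ED := by
  classical
  intro δ t h T k D
  set Z : Finset (Fin δ × Fin k) := D.filter (fun x => x.2.val = 0) with hZ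
  set c : ℕ := ct Finset.univ (fun j => 1 ≤ (sec D j).card) with hc
  have hZc : Z.card ≤ c := by
    rw [hc]
    unfold ct
    apply Finset.card_le_card_of_injOn (fun x => x.1)
    · intro x hx
      have hx' : x ∈ Z := hx
      rw [hZ, Finset.mem_filter] at hx'
      simp only [Finset.coe_filter, Finset.mem_univ, true_and, Set.mem_ofPred_eq]
      have hm : x.2 ∈ sec D x.1 := by
        unfold sec
        simp only [Finset.mem_filter, Finset.mem_univ, true_and]
        exact hx'.1
      exact Finset.card_pos.2 ⟨x.2, hm⟩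
    · intro x hx y hy hxy
      have hx' : x ∈ Z := hx
      have hy' : y ∈ Z := hy
      rw [hZ, Finset.mem_filter] at hx' hy'
      exact ED_ext x y hx'.2 hy'.2 hxy
  have hdd : 2 * (Z.card.choose 2) = Z.card * (Z.card - 1) := by
    rw [Nat.choose_two_right]
    exact Nat.mul_div_cancel' (Nat.even_mul_pred_self Z.card).two_dvd
  refine ⟨Z.card.choose 2, ?_, ?_⟩
  · rw [hdd]
    exact Nat.mul_le_mul hZc (Nat.sub_le_sub_right hZc 1)
  · have h1 := (hCP (Fin δ) (Fin k) (st k h) D).1
    rw [← h1]
    have h2 : E2 (dG T k) D ≤ E2 (cp (Fin δ) (st k h)) D +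
        ∑ x ∈ D, ∑ y ∈ D, (if (x.2.val = 0 ∧ y.2.val = 0 ∧ x.1 ≠ y.1) then (1 : ℝ) else 0) := by
      unfold E2
      rw [← Finset.sum_add_distrib]
      apply Finset.sum_le_sum
      intro x _
      rw [← Finset.sum_add_distrib]
      apply Finset.sum_le_sum
      intro y _
      by_cases hA : (dG T k).Adj x y
      · rw [if_pos hA]
        rcases hA with hA | hA
        · have hA' : (cp (Fin δ) (st k h)).Adj x y := hA
          rw [if_pos hA']
          split_ifs
          · norm_num
          · norm_num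
        · rw [if_pos (show x.2.val = 0 ∧ y.2.val = 0 ∧ x.1 ≠ y.1 from ⟨hA.2.1, hA.2.2.1, hA.1⟩)]
          split_ifs
          · norm_num
          · norm_num
      · rw [if_neg hA]
        split_ifs <;> norm_num
    have h3 : ∑ x ∈ D, ∑ y ∈ D, (if (x.2.val = 0 ∧ y.2.val = 0 ∧ x.1 ≠ y.1) then (1 : ℝ) else 0) ≤
        (Z.offDiag.card : ℝ) := by
      rw [← Finset.sum_product' D D
        (fun x y => if (x.2.val = 0 ∧ y.2.val = 0 ∧ x.1 ≠ y.1) then (1 : ℝ) else 0),
        Finset.sum_boole]
      norm_cast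
      apply Finset.card_le_card
      intro p hp
      rw [Finset.mem_filter, Finset.mem_product] at hp
      rw [Finset.mem_offDiag, hZ, Finset.mem_filter, Finset.mem_filter]
      refine ⟨⟨hp.1.1, hp.2.1⟩, ⟨hp.1.2, hp.2.2.1⟩, ?_⟩
      intro he
      exact hp.2.2.2 (by rw [he])
    have h4 : (Z.offDiag.card : ℝ) = 2 * (Z.card.choose 2 : ℕ) := by
      have h5 : Z.offDiag.card = 2 * (Z.card.choose 2) := by
        rw [Finset.offDiag_card, hdd, Nat.mul_sub, mul_one]
      rw [h5]
      push_cast
      ring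
    linarith

end Pool.Agent.UBX
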