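import Pool.Agent.UBX.St

/-!
# Campaign UBX (MP_303581_co): the edges of a pair
-/

set_option autoImplicit false

open Finset

namespace Pool.Agent.UBX

open Pool.Agent.BKU

open Classical in
private theorem EP_cnt {m : ℕ} (F : Finset (Fin m)) (p : Fin m → Prop) (a b : ℕ)
    (hp : ∀ x ∈ F, p x → a ≤ x.val ∧ x.val < b) : ct F p ≤ b - a := by
  unfold ct
  have h1 : (F.filter p).image Fin.val ⊆ Finset.Ico a b := by
    intro y hy
    obtain ⟨x, hx, rfl⟩ := Finset.mem_image.1 hy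
    obtain ⟨hx1, hx2⟩ := Finset.mem_filter.1 hx
    exact Finset.mem_Ico.2 (hp x hx1 hx2)
  have h2 := Finset.card_le_card h1
  rw [Finset.card_image_of_injective _ Fin.val_injective, Nat.card_Ico] at h2
  exact h2

open Classical in
private theorem EP_add {V : Type} (F : Finset V) (p q : V → Prop) (h : ∀ x, q x ↔ ¬ p x) :
    ct F p + ct F q = F.card := by
  unfold ct
  have e : F.filter q = F.filter fun x => ¬ p x := Finset.filter_congr fun x _ => h x
  rw [e]
  exact Finset.card_filter_add_card_filter_not p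

private theorem EP_ct {V : Type} (F : Finset V) (p q : V → Prop) (h : ∀ x, p x ↔ q x) :
    ct F p = ct F q := by
  have e : p = q := funext fun x => propext (h x)
  rw [e]

open Classical in
private theorem EP_le {V : Type} (F : Finset V) (p : V → Prop) : ct F p ≤ F.card :=
  Finset.card_filter_le _ _

open Classical in
private theorem EP_sum {V : Type} (F : Finset V) (p : V → Prop) (f : V → ℝ) (u v : ℝ)
    (h1 : ∀ x, p x → f x = u) (h2 : ∀ x, ¬ p x → f x = v) :
    ∑ x ∈ F, f x = u * (ct F p : ℝ) + v * ((F.card : ℝ) - ct F p) := by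
  have h3 : ∑ x ∈ F.filter p, f x = (ct F p : ℝ) * u := by
    rw [Finset.sum_congr rfl (fun x hx => h1 x (Finset.mem_filter.1 hx).2), Finset.sum_const,
      nsmul_eq_mul]
    rfl
  have h4 : ∑ x ∈ F.filter (fun x => ¬ p x), f x =
      ((F.filter (fun x => ¬ p x)).card : ℝ) * v := by
    rw [Finset.sum_congr rfl (fun x hx => h2 x (Finset.mem_filter.1 hx).2), Finset.sum_const,
      nsmul_eq_mul]
  have h5 : (ct F p : ℝ) + (F.filter (fun x => ¬ p x)).card = F.card := by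
    exact_mod_cast Finset.card_filter_add_card_filter_not (s := F) p
  rw [← Finset.sum_filter_add_sum_filter_not F p, h3, h4, ← h5]
  ring

theorem thm_EP (hJN : BKU.St_JN) (hST : BKU.St_ST) : St_EP := by
  intro k N S hk
  obtain ⟨hT, hS⟩ := hST
  obtain ⟨hS1, hS2, hS3, hS4, hS5⟩ := hS k N (pR S) (by omega)
  obtain ⟨hJ1, hJ2⟩ := hJN (Fin (k - 1)) (Fin k) (⊤ : SimpleGraph (Fin (k - 1))) (st k N)
    (fun b c => (c.val = 0 ∧ b.val + N + 1 < k) ∨ (1 ≤ c.val ∧ c.val ≤ N ∧ k ≤ b.val + N + 1)) S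
  have hsum : ∑ x ∈ pL S, (ct (pR S) (fun c => (c.val = 0 ∧ x.val + N + 1 < k) ∨
      (1 ≤ c.val ∧ c.val ≤ N ∧ k ≤ x.val + N + 1)) : ℝ) =
      (nn N S : ℝ) * nj N S + ne S * (((pL S).card : ℝ) - nj N S) := by
    refine EP_sum (pL S) (fun b => k ≤ b.val + N + 1) _ _ _ ?_ ?_
    · intro b hb
      apply congrArg
      apply EP_ct
      intro c
      constructor
      · rintro (⟨h1, h2⟩ | ⟨h1, h2, h3⟩)
        · omega
        · exact ⟨h1, h2⟩
      · rintro ⟨h1, h2⟩
        exact Or.inr ⟨h1, h2, hb⟩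
    · intro b hb
      apply congrArg
      apply EP_ct
      intro c
      constructor
      · rintro (⟨h1, h2⟩ | ⟨h1, h2, h3⟩)
        · exact h1
        · exact absurd h3 hb
      · intro h1
        exact Or.inl ⟨h1, by omega⟩
  have hB : nb1 S + nb2 S = (pL S).card := EP_add (pL S) (fun b => b.val < k / 2)
    (fun b => k / 2 ≤ b.val) (fun x => by omega)
  have hC : nc1 S + nc2 S = (pR S).card := EP_add (pR S) (fun b => b.val < k / 2)
    (fun b => k / 2 ≤ b.val) (fun x => by omega)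
  have hj : nj N S ≤ (k - 1) - (k - 1 - N) := EP_cnt (pL S) (fun b => k ≤ b.val + N + 1) _ _
    (fun x _ hx => ⟨by omega, x.isLt⟩)
  have hj' : nj N S ≤ (pL S).card := EP_le _ _
  have hnj : ct (pL S) (fun b => b.val + N + 1 < k) ≤ (k - 1 - N) - 0 :=
    EP_cnt (pL S) (fun b => b.val + N + 1 < k) _ _ (fun x _ hx => ⟨Nat.zero_le _, by omega⟩)
  have hjj : nj N S + ct (pL S) (fun b => b.val + N + 1 < k) = (pL S).card :=
    EP_add (pL S) (fun b => k ≤ b.val + N + 1) (fun b => b.val + N + 1 < k) (fun x => by omega)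
  have hb1 : nb1 S ≤ k / 2 - 0 := EP_cnt (pL S) (fun b => b.val < k / 2) _ _
    (fun x _ hx => ⟨Nat.zero_le _, hx⟩)
  have hb2 : nb2 S ≤ (k - 1) - k / 2 := EP_cnt (pL S) (fun b => k / 2 ≤ b.val) _ _
    (fun x _ hx => ⟨hx, x.isLt⟩)
  have hc1 : nc1 S ≤ k / 2 - 0 := EP_cnt (pR S) (fun b => b.val < k / 2) _ _
    (fun x _ hx => ⟨Nat.zero_le _, hx⟩)
  have hc2 : nc2 S ≤ k - k / 2 := EP_cnt (pR S) (fun b => k / 2 ≤ b.val) _ _
    (fun x _ hx => ⟨hx, x.isLt⟩)
  have e1 : ct (pR S) (fun a => a.val = 0) = ne S := rfl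
  have e2 : ct (pR S) (fun a => 1 ≤ a.val ∧ a.val ≤ N) = nn N S := rfl
  rw [e1, e2] at hS1 hS4 hS5
  rw [e1] at hS2
  rw [e2] at hS3
  refine ⟨⟨by omega, by omega, by omega, hS2, hS3, by omega, by omega, by omega, by omega,
    by omega, by omega⟩, by omega, ?_⟩
  have hBr : ((pL S).card : ℝ) = (nb1 S : ℝ) + nb2 S := by rw [← hB]; push_cast; rfl
  have hCr : ((pR S).card : ℝ) = (nc1 S : ℝ) + nc2 S := by rw [← hC]; push_cast; rfl
  have e : E2 (prN k N) S = E2 (⊤ : SimpleGraph (Fin (k - 1))) (pL S) + E2 (st k N) (pR S) +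
      2 * ∑ x ∈ pL S, (ct (pR S) (fun c => (c.val = 0 ∧ x.val + N + 1 < k) ∨
      (1 ≤ c.val ∧ c.val ≤ N ∧ k ≤ x.val + N + 1)) : ℝ) := hJ1
  rw [e, hsum, hT, hS1, hBr, hCr]
  ring

end Pool.Agent.UBX
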