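import Pool.Agent.UBX.St

/-!
# Campaign UBX (MP_303581_co), module EX (helper32): the cross edges
-/

set_option autoImplicit false

open Finset

namespace Pool.Agent.UBX

open Pool.Agent.BKU

open Classical in
/-- the indicator of a proposition -/
private noncomputable def EX_i (p : Prop) : ℝ := if p then 1 else 0

private theorem EX_i1 {p : Prop} (h : p) : EX_i p = 1 := if_pos h

private theorem EX_i0 {p : Prop} (h : ¬ p) : EX_i p = 0 := if_neg h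

private theorem EX_in (p : Prop) : 0 ≤ EX_i p := by
  by_cases h : p
  · rw [EX_i1 h]
    norm_num
  · rw [EX_i0 h]

private theorem EX_ct {V : Type} (F : Finset V) (p : V → Prop) :
    (ct F p : ℝ) = ∑ x ∈ F, EX_i (p x) := by
  unfold ct
  rw [Finset.card_filter]
  push_cast
  rfl

private theorem EX_split {X Y : Type} [Fintype X] [Fintype Y] (S : Finset (X ⊕ Y))
    (f : X ⊕ Y → ℝ) :
    ∑ w ∈ S, f w = ∑ b ∈ pL S, f (Sum.inl b) + ∑ c ∈ pR S, f (Sum.inr c) := by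
  have h : S = (pL S).disjSum (pR S) := by
    ext w
    rcases w with b | c
    · simp [pL]
    · simp [pR]
  conv_lhs => rw [h]
  rw [Finset.sum_disjSum]

private theorem EX_row {δ t h : ℕ} (T : TSys δ t h) (k : ℕ) (x : Fin δ × Fin k) (i : Fin t)
    (S : Finset (Fin (k - 1) ⊕ Fin k)) :
    (ct S (fun w => rr T k x (i, w)) : ℝ) ≤
      EX_i (x.2.val = 0 ∧ T.tg x.1 i true) * nb1 S +
      EX_i (∃ l, T.pr x.1 l = i ∧ T.sd x.1 l = true ∧ x.2.val = l.val + 1) * nb2 S +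
      EX_i (x.2.val = 0 ∧ T.tg x.1 i true) * ne S +
      (EX_i (x.2.val = 0 ∧ T.tg x.1 i false) * nc1 S +
      EX_i (∃ l, T.pr x.1 l = i ∧ T.sd x.1 l = false ∧ x.2.val = l.val + 1) * nc2 S) := by
  rw [EX_ct, EX_split]
  unfold nb1 nb2 ne nc1 nc2
  rw [EX_ct, EX_ct, EX_ct, EX_ct, EX_ct]
  set P1 : ℝ := EX_i (x.2.val = 0 ∧ T.tg x.1 i true) with hP1
  set Q1 : ℝ := EX_i (∃ l, T.pr x.1 l = i ∧ T.sd x.1 l = true ∧ x.2.val = l.val + 1) with hQ1
  set P2 : ℝ := EX_i (x.2.val = 0 ∧ T.tg x.1 i false) with hP2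
  set Q2 : ℝ := EX_i (∃ l, T.pr x.1 l = i ∧ T.sd x.1 l = false ∧ x.2.val = l.val + 1) with hQ2
  have nP1 : 0 ≤ P1 := EX_in _
  have nQ1 : 0 ≤ Q1 := EX_in _
  have nP2 : 0 ≤ P2 := EX_in _
  have nQ2 : 0 ≤ Q2 := EX_in _
  have hB : ∀ b : Fin (k - 1), EX_i (rr T k x (i, Sum.inl b)) ≤
      P1 * EX_i (b.val < k / 2) + Q1 * EX_i (k / 2 ≤ b.val) := by
    intro b
    have m1 := mul_nonneg nP1 (EX_in (b.val < k / 2))
    have m2 := mul_nonneg nQ1 (EX_in (k / 2 ≤ b.val))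
    by_cases hr : rr T k x (i, Sum.inl b)
    · rw [EX_i1 hr]
      rcases hr with ⟨h1, h2, h3⟩ | ⟨l, h1, h2, h3, h4⟩
      · have e1 : P1 = 1 := EX_i1 ⟨h1, h2⟩
        rw [e1, EX_i1 h3]
        linarith
      · have e1 : Q1 = 1 := EX_i1 ⟨l, h1, h2, h3⟩
        rw [e1, EX_i1 h4]
        linarith
    · rw [EX_i0 hr]
      linarith
  have hC : ∀ c : Fin k, EX_i (rr T k x (i, Sum.inr c)) ≤
      P2 * EX_i (c.val < k / 2) + Q2 * EX_i (k / 2 ≤ c.val) + P1 * EX_i (c.val = 0) := by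
    intro c
    have m1 := mul_nonneg nP2 (EX_in (c.val < k / 2))
    have m2 := mul_nonneg nQ2 (EX_in (k / 2 ≤ c.val))
    have m3 := mul_nonneg nP1 (EX_in (c.val = 0))
    by_cases hr : rr T k x (i, Sum.inr c)
    · rw [EX_i1 hr]
      rcases hr with ⟨h1, h2, h3⟩ | ⟨l, h1, h2, h3, h4⟩ | ⟨h1, h2, h3⟩
      · have e1 : P2 = 1 := EX_i1 ⟨h1, h2⟩
        rw [e1, EX_i1 h3]
        linarith
      · have e1 : Q2 = 1 := EX_i1 ⟨l, h1, h2, h3⟩
        rw [e1, EX_i1 h4]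
        linarith
      · have e1 : P1 = 1 := EX_i1 ⟨h1, h2⟩
        rw [e1, EX_i1 h3]
        linarith
    · rw [EX_i0 hr]
      linarith
  have h1 := Finset.sum_le_sum fun b (_ : b ∈ pL S) => hB b
  have h2 := Finset.sum_le_sum fun c (_ : c ∈ pR S) => hC c
  rw [Finset.sum_add_distrib, ← Finset.mul_sum, ← Finset.mul_sum] at h1
  rw [Finset.sum_add_distrib, Finset.sum_add_distrib, ← Finset.mul_sum, ← Finset.mul_sum,
    ← Finset.mul_sum] at h2
  linarith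

theorem thm_EX (hCP : BKU.St_CP) : St_EX := by
  intro δ t h T k D Q
  obtain ⟨-, c2, -⟩ := hCP (Fin t) (Fin (k - 1) ⊕ Fin k) ⊤ Q
  have h1 : ∀ x ∈ D, (ct Q (rr T k x) : ℝ) ≤ ∑ i,
      (EX_i (x.2.val = 0 ∧ T.tg x.1 i true) * nb1 (sec Q i) +
      EX_i (∃ l, T.pr x.1 l = i ∧ T.sd x.1 l = true ∧ x.2.val = l.val + 1) * nb2 (sec Q i) +
      EX_i (x.2.val = 0 ∧ T.tg x.1 i true) * ne (sec Q i) +
      (EX_i (x.2.val = 0 ∧ T.tg x.1 i false) * nc1 (sec Q i) +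
      EX_i (∃ l, T.pr x.1 l = i ∧ T.sd x.1 l = false ∧ x.2.val = l.val + 1) *
        nc2 (sec Q i))) := by
    intro x _
    rw [c2, Nat.cast_sum]
    exact Finset.sum_le_sum fun i _ => EX_row T k x i _
  refine (Finset.sum_le_sum h1).trans (le_of_eq ?_)
  rw [Finset.sum_comm]
  refine Finset.sum_congr rfl fun i _ => ?_
  unfold pp qq
  rw [EX_ct, EX_ct, EX_ct, EX_ct, Finset.sum_add_distrib, Finset.sum_add_distrib,
    Finset.sum_add_distrib, Finset.sum_add_distrib, ← Finset.sum_mul, ← Finset.sum_mul,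
    ← Finset.sum_mul, ← Finset.sum_mul, ← Finset.sum_mul]

end Pool.Agent.UBX
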