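import Pool.Agent.UBX.St

/-!
# UBX, module FC: the final count (helper61)
-/

set_option autoImplicit false

open Finset

namespace Pool.Agent.UBX

open Pool.Agent.BKU

private theorem FC_c0 (k : ℕ) (μ R C : ℝ) (f g : ℕ) (hf : f = 0) (hg : g = 0) :
    LB k μ R C f g = k + 1 - μ ∧ ((ww f g : ℤ) : ℝ) = 1 := by
  subst hf; subst hg
  simp [LB, ww]

private theorem FC_c1 (k : ℕ) (μ R C : ℝ) (f g : ℕ) (h : f + g = 1) :
    LB k μ R C f g = k - 1 - μ ∧ ((ww f g : ℤ) : ℝ) = 1 := by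
  have h1 : ¬ (f = 0 ∧ g = 0) := by omega
  have h2 : f = 0 ∨ g = 0 := by omega
  have h3 : (f : ℝ) + g = 1 := by exact_mod_cast h
  refine ⟨by rw [LB, if_neg h1, if_pos h], ?_⟩
  rw [ww, if_neg h1, if_pos h2]
  push_cast
  rw [h3]
  norm_num

private theorem FC_c2 (k : ℕ) (μ R C : ℝ) (f g : ℕ) (h : f = 0 ∨ g = 0) (h' : 2 ≤ f + g) :
    LB k μ R C f g = ((ww f g : ℤ) : ℝ) * k + R := by
  have h1 : ¬ (f = 0 ∧ g = 0) := by omega
  have h2 : ¬ (f + g = 1) := by omega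
  rw [LB, if_neg h1, if_neg h2, if_pos h, ww, if_neg h1, if_pos h]
  push_cast
  ring

private theorem FC_c3 (k : ℕ) (μ R C : ℝ) (f g : ℕ) (h : 1 ≤ f) (h' : 1 ≤ g) :
    LB k μ R C f g = ((ww f g : ℤ) : ℝ) * k - C := by
  have h1 : ¬ (f = 0 ∧ g = 0) := by omega
  have h2 : ¬ (f + g = 1) := by omega
  have h3 : ¬ (f = 0 ∨ g = 0) := by omega
  rw [LB, if_neg h1, if_neg h2, if_neg h3, ww, if_neg h1, if_neg h3]
  push_cast
  ring

/-- the general lower bound -/
private theorem FC_lb (k : ℕ) (μ R C : ℝ) (hμ : μ ≤ 1 / 8) (hR : 0 ≤ R) (hC : 0 ≤ C)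
    (f g : ℕ) : ((ww f g : ℤ) : ℝ) * k - (C + 2) ≤ LB k μ R C f g := by
  by_cases h1 : f = 0 ∧ g = 0
  · obtain ⟨e1, e2⟩ := FC_c0 k μ R C f g h1.1 h1.2
    rw [e1, e2]
    linarith
  by_cases h2 : f + g = 1
  · obtain ⟨e1, e2⟩ := FC_c1 k μ R C f g h2
    rw [e1, e2]
    linarith
  by_cases h3 : f = 0 ∨ g = 0
  · rw [FC_c2 k μ R C f g h3 (by omega)]
    linarith
  · rw [FC_c3 k μ R C f g (by omega) (by omega)]
    linarith

/-- the lower bound if not both numbers are positive -/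
private theorem FC_lb2 (k : ℕ) (μ R C : ℝ) (hμ : μ ≤ 1 / 8) (hR : 0 ≤ R)
    (f g : ℕ) (h3 : f = 0 ∨ g = 0) : ((ww f g : ℤ) : ℝ) * k - 2 ≤ LB k μ R C f g := by
  by_cases h1 : f = 0 ∧ g = 0
  · obtain ⟨e1, e2⟩ := FC_c0 k μ R C f g h1.1 h1.2
    rw [e1, e2]
    linarith
  by_cases h2 : f + g = 1
  · obtain ⟨e1, e2⟩ := FC_c1 k μ R C f g h2
    rw [e1, e2]
    linarith
  rw [FC_c2 k μ R C f g h3 (by omega)]
  linarith

/-- the lower bound if the sum is at most one -/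
private theorem FC_lb1 (k : ℕ) (μ R C : ℝ) (f g : ℕ) (h : f + g ≤ 1) :
    (k : ℝ) - 1 - μ ≤ LB k μ R C f g := by
  by_cases h1 : f = 0 ∧ g = 0
  · rw [(FC_c0 k μ R C f g h1.1 h1.2).1]
    linarith
  · rw [(FC_c1 k μ R C f g (by omega)).1]

private theorem FC_fl0 {δ t h : ℕ} (T : TSys δ t h) (i : Fin t) (x : Bool) :
    T.fl ∅ ∅ i x = 0 := by
  simp [TSys.fl, TSys.u, ct]

theorem thm_FC (hCF : St_CF) : St_FC := by
  intro δ t h T hG R C hR hC
  obtain ⟨K, hK⟩ := exists_nat_ge (2 * (δ : ℝ) + t * (C + 2) + δ * δ)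
  refine ⟨K, ?_⟩
  intro k hk μ hμ0 hμ U V P hUV n S dd h1 h2 h3 h4 h5
  have hk' : 2 * (δ : ℝ) + t * (C + 2) + δ * δ ≤ k := hK.trans (by exact_mod_cast hk)
  have hδ0 : (0 : ℝ) ≤ δ := Nat.cast_nonneg _
  have ht0 : (0 : ℝ) ≤ t := Nat.cast_nonneg _
  have hk0 : (0 : ℝ) ≤ k := Nat.cast_nonneg _
  have hR0 : 0 ≤ R := by
    have : 0 ≤ 4 * (t : ℝ) + 2 * δ * δ + 3 * δ + 2 := by positivity
    linarith
  have huv : U.card + V.card ≤ δ := by
    rw [← Finset.card_union_of_disjoint hUV]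
    exact (Finset.card_le_univ _).trans (by simp)
  have hp : P.card ≤ t := (Finset.card_le_univ _).trans (by simp)
  have hdd : 2 * dd ≤ δ * δ := h4.trans (Nat.mul_le_mul huv ((Nat.sub_le _ _).trans huv))
  have huv' : (U.card : ℝ) + V.card ≤ δ := by exact_mod_cast huv
  have hp' : (P.card : ℝ) ≤ t := by exact_mod_cast hp
  have hdd' : 2 * (dd : ℝ) ≤ δ * δ := by exact_mod_cast hdd
  have hu0 : (0 : ℝ) ≤ U.card := Nat.cast_nonneg _
  have hv0 : (0 : ℝ) ≤ V.card := Nat.cast_nonneg _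
  have hp0 : (0 : ℝ) ≤ P.card := Nat.cast_nonneg _
  obtain ⟨cf2, cf3⟩ := hCF δ t h T hG U V P hUV
  set W : ℤ := ∑ i ∈ P, ww (T.fl U V i true) (T.fl U V i false) with hW
  have hWr : (W : ℝ) = ∑ i ∈ P, ((ww (T.fl U V i true) (T.fl U V i false) : ℤ) : ℝ) := by
    rw [hW]; push_cast; rfl
  have hμu : μ * U.card ≤ 1 / 8 * U.card := mul_le_mul_of_nonneg_right hμ hu0
  have hμv : μ * V.card ≤ 1 / 8 * V.card := mul_le_mul_of_nonneg_right hμ hv0
  have hμp : μ * P.card ≤ 1 / 8 * P.card := mul_le_mul_of_nonneg_right hμ hp0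
  by_cases c1 : ∃ i ∈ P, 1 ≤ T.fl U V i true ∧ 1 ≤ T.fl U V i false
  · -- case (i)
    have hcf := cf3 c1
    have hcf' : (3 : ℝ) ≤ 2 * (U.card : ℝ) + V.card + W := by exact_mod_cast hcf
    have hS : (W : ℝ) * k - P.card * (C + 2) ≤ ∑ i ∈ P, S i := by
      have : ∑ i ∈ P, (((ww (T.fl U V i true) (T.fl U V i false) : ℤ) : ℝ) * k - (C + 2))
          ≤ ∑ i ∈ P, S i :=
        Finset.sum_le_sum fun i hi => (FC_lb k μ R C hμ hR0 hC _ _).trans (h2 i hi)
      rw [Finset.sum_sub_distrib, ← Finset.sum_mul, ← hWr, Finset.sum_const, nsmul_eq_mul] at this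
      exact this
    have hmul : 3 * (k : ℝ) ≤ (2 * (U.card : ℝ) + V.card + W) * k :=
      mul_le_mul_of_nonneg_right hcf' hk0
    have hpC : (P.card : ℝ) * (C + 2) ≤ t * (C + 2) :=
      mul_le_mul_of_nonneg_right hp' (by linarith)
    nlinarith
  push Not at c1
  have hz : ∀ i ∈ P, T.fl U V i true = 0 ∨ T.fl U V i false = 0 := by
    intro i hi
    rcases Nat.eq_zero_or_pos (T.fl U V i true) with h0 | h0
    · exact Or.inl h0
    · have := c1 i hi h0
      right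
      omega
  by_cases c2 : ∃ i ∈ P, 2 ≤ T.fl U V i true + T.fl U V i false
  · -- case (ii)
    obtain ⟨i0, hi0, h20⟩ := c2
    have hcf := cf2 ⟨i0, hi0, by omega⟩
    have hcf' : (2 : ℝ) ≤ 2 * (U.card : ℝ) + V.card + W := by exact_mod_cast hcf
    have hS : (W : ℝ) * k - P.card * 2 + (R + 2) ≤ ∑ i ∈ P, S i := by
      have : ∑ i ∈ P, ((((ww (T.fl U V i true) (T.fl U V i false) : ℤ) : ℝ) * k - 2)
          + if i = i0 then R + 2 else 0) ≤ ∑ i ∈ P, S i := by
        apply Finset.sum_le_sum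
        intro i hi
        by_cases e : i = i0
        · rw [if_pos e]
          have := h2 i hi
          rw [FC_c2 k μ R C _ _ (hz i hi) (by rw [e]; exact h20)] at this
          linarith
        · rw [if_neg e, add_zero]
          exact (FC_lb2 k μ R C hμ hR0 _ _ (hz i hi)).trans (h2 i hi)
      rw [Finset.sum_add_distrib, Finset.sum_sub_distrib, ← Finset.sum_mul, ← hWr,
        Finset.sum_const, nsmul_eq_mul, Finset.sum_ite_eq' P i0, if_pos hi0] at this
      exact this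
    have hmul : 2 * (k : ℝ) ≤ (2 * (U.card : ℝ) + V.card + W) * k :=
      mul_le_mul_of_nonneg_right hcf' hk0
    nlinarith
  -- case (iii)
  push Not at c2
  have hS1 : ∀ i ∈ P, (k : ℝ) - 1 - μ ≤ S i := fun i hi =>
    (FC_lb1 k μ R C _ _ (by have := c2 i hi; omega)).trans (h2 i hi)
  by_cases c3 : 3 ≤ 2 * U.card + V.card + P.card
  · have hS : (P.card : ℝ) * ((k : ℝ) - 1 - μ) ≤ ∑ i ∈ P, S i := by
      have : ∑ i ∈ P, ((k : ℝ) - 1 - μ) ≤ ∑ i ∈ P, S i := Finset.sum_le_sum hS1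
      rwa [Finset.sum_const, nsmul_eq_mul] at this
    have c3' : (3 : ℝ) ≤ 2 * (U.card : ℝ) + V.card + P.card := by exact_mod_cast c3
    have hmul : 3 * (k : ℝ) ≤ (2 * (U.card : ℝ) + V.card + P.card) * k :=
      mul_le_mul_of_nonneg_right c3' hk0
    have htC : (t : ℝ) * 2 ≤ t * (C + 2) := mul_le_mul_of_nonneg_left (by linarith) ht0
    nlinarith
  push Not at c3
  by_cases cu : U.card = 0
  · have hU : U = ∅ := Finset.card_eq_zero.1 cu
    have h5' := h5 hU
    rw [cu] at h4 c3 ⊢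
    have hpv : (P.card = 1 ∧ V.card = 0) ∨ (P.card = 1 ∧ V.card = 1) ∨
        (P.card = 2 ∧ V.card = 0) := by
      have : P.card ≠ 0 := by
        intro h0
        rw [Finset.card_eq_zero.1 h0] at h5'
        simp at h5'
        omega
      omega
    rcases hpv with ⟨hp1, hv1⟩ | ⟨hp1, hv1⟩ | ⟨hp1, hv1⟩
    · obtain ⟨i, hi⟩ := Finset.card_eq_one.1 hp1
      have hV : V = ∅ := Finset.card_eq_zero.1 hv1
      rw [hv1] at h4 h5' ⊢
      have hdd0 : dd = 0 := by simpa using h4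
      rw [hi, Finset.sum_singleton] at h5'
      have hiP : i ∈ P := by rw [hi]; exact Finset.mem_singleton_self i
      have := h3 i hiP (by rw [hU, hV]; exact FC_fl0 T i true)
        (by rw [hU, hV]; exact FC_fl0 T i false) (by omega)
      rw [hi, Finset.sum_singleton, hdd0]
      simp only [Nat.cast_zero, zero_mul, mul_zero]
      linarith
    · obtain ⟨i, hi⟩ := Finset.card_eq_one.1 hp1
      rw [hv1] at h4 ⊢
      have hdd0 : dd = 0 := by simpa using h4
      have hiP : i ∈ P := by rw [hi]; exact Finset.mem_singleton_self i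
      have := hS1 i hiP
      rw [hi, Finset.sum_singleton, hdd0]
      simp only [Nat.cast_zero, zero_mul, mul_zero, Nat.cast_one, one_mul]
      linarith
    · have hV : V = ∅ := Finset.card_eq_zero.1 hv1
      rw [hv1] at h4 ⊢
      have hdd0 : dd = 0 := by simpa using h4
      have hS : ∑ i ∈ P, ((k : ℝ) + 1 - μ) ≤ ∑ i ∈ P, S i := by
        apply Finset.sum_le_sum
        intro i hi
        have := h2 i hi
        rwa [(FC_c0 k μ R C _ _ (by rw [hU, hV]; exact FC_fl0 T i true)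
          (by rw [hU, hV]; exact FC_fl0 T i false)).1] at this
      rw [Finset.sum_const, nsmul_eq_mul, hp1] at hS
      rw [hdd0]
      simp only [Nat.cast_zero, zero_mul, mul_zero]
      push_cast at hS
      linarith
  · have hu1 : U.card = 1 := by omega
    have hv1 : V.card = 0 := by omega
    have hp1 : P = ∅ := Finset.card_eq_zero.1 (by omega)
    rw [hu1, hv1] at h4 ⊢
    have hdd0 : dd = 0 := by simpa using h4
    rw [hp1, hdd0]
    simp

end Pool.Agent.UBX
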