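import Pool.Agent.UBX.St
import Pool.Agent.BKU.JN
import Pool.Agent.BKU.CP
import Pool.Agent.BKU.GB

/-!
# Campaign UBX (MP_303581_co): the density of the graph (GD)
-/

set_option autoImplicit false

open Finset

namespace Pool.Agent.UBX

open Pool.Agent.BKU

private theorem GD_ct_empty {V : Type} (p : V → Prop) : ct (∅ : Finset V) p = 0 := by
  unfold ct
  simp

private theorem GD_pL_empty {X Y : Type} [Fintype X] : pL (∅ : Finset (X ⊕ Y)) = ∅ := by
  unfold pL
  simp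

private theorem GD_pR_empty {X Y : Type} [Fintype Y] : pR (∅ : Finset (X ⊕ Y)) = ∅ := by
  unfold pR
  simp

private theorem GD_ct {V : Type} (F : Finset V) (p : V → Prop) (W : Finset V)
    (h : ∀ x, x ∈ W ↔ x ∈ F ∧ p x) : ct F p = W.card := by
  unfold ct
  congr 1
  ext x
  rw [h]
  simp

theorem thm_GD (hSM : St_SM) (hFC : St_FC) (hEP : St_EP) (hED : St_ED) (hEX : St_EX)
    (hPQ : St_PQ) (hDG : St_DG) : St_GD := by
  classical
  intro δ t h T hT hh
  obtain ⟨N, hN⟩ : ∃ N, N = h + 2 * δ + 2 * t + δ * δ + 2 * δ + 3 := ⟨_, rfl⟩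
  have hhN : h + 1 ≤ N := by
    rw [hN]
    have : 0 ≤ δ * δ := Nat.zero_le _
    omega
  obtain ⟨C, K1, hC, hSM'⟩ := hSM h N (2 * δ) hh hhN
  obtain ⟨R, hR⟩ : ∃ R : ℝ, R = 2 * ((N : ℝ) - h - ((2 * δ : ℕ) : ℝ)) - 1 := ⟨_, rfl⟩
  have hR1 : 4 * (t : ℝ) + 2 * δ * δ + 3 * δ + 2 ≤ R := by
    have hδ : (0 : ℝ) ≤ δ := Nat.cast_nonneg δ
    rw [hR, hN]
    push_cast
    nlinarith
  obtain ⟨K2, hFC'⟩ := hFC δ t h T hT R C hR1 hC
  refine ⟨N, K1 + K2 + 100 * (h + 2) ^ 2 + N + h + 2, by omega, fun k hk => ⟨by omega, by omega, ?_⟩⟩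
  intro F hF
  have hk100 : 100 * (h + 2) ^ 2 ≤ k := by omega
  obtain ⟨hμ0, hμ1, -⟩ := thm_GB k h hh hk100
  obtain ⟨μ, hμ⟩ : ∃ μ, μ = mu k h := ⟨_, rfl⟩
  rw [← hμ] at hμ0 hμ1 ⊢
  obtain ⟨D, hD⟩ : ∃ D, D = pL F := ⟨_, rfl⟩
  obtain ⟨Q, hQ⟩ : ∃ Q, Q = pR F := ⟨_, rfl⟩
  obtain ⟨U, hU⟩ : ∃ U : Finset (Fin δ), U = univ.filter fun j => 2 ≤ (sec D j).card := ⟨_, rfl⟩
  obtain ⟨V, hV⟩ : ∃ V : Finset (Fin δ), V = univ.filter fun j => (sec D j).card = 1 := ⟨_, rfl⟩
  obtain ⟨P, hP⟩ : ∃ P : Finset (Fin t), P = univ.filter fun i => 1 ≤ (sec Q i).card := ⟨_, rfl⟩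
  have mU : ∀ j, j ∈ U ↔ 2 ≤ (sec D j).card := by
    intro j
    rw [hU, mem_filter]
    exact ⟨fun h => h.2, fun h => ⟨mem_univ _, h⟩⟩
  have mV : ∀ j, j ∈ V ↔ (sec D j).card = 1 := by
    intro j
    rw [hV, mem_filter]
    exact ⟨fun h => h.2, fun h => ⟨mem_univ _, h⟩⟩
  have mP : ∀ i, i ∈ P ↔ 1 ≤ (sec Q i).card := by
    intro i
    rw [hP, mem_filter]
    exact ⟨fun h => h.2, fun h => ⟨mem_univ _, h⟩⟩
  have hUV : Disjoint U V := by
    rw [Finset.disjoint_left]
    intro j h1 h2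
    have := (mU j).1 h1
    have := (mV j).1 h2
    omega
  obtain ⟨S, hS⟩ : ∃ S : Fin t → ℝ, S = fun i => SV k μ (nb1 (sec Q i)) (nb2 (sec Q i))
      (nc1 (sec Q i)) (nc2 (sec Q i)) (nj N (sec Q i)) (ne (sec Q i)) (nn N (sec Q i))
      (pp T D i true) (qq T D i true) (pp T D i false) (qq T D i false) := ⟨_, rfl⟩
  obtain ⟨dd, hdd1, hdd2⟩ := hED δ t h T k D
  have hEQ := hEX δ t h T k D Q
  have hPQ' := hPQ δ t h T k D U V mU mV
  -- the numbers of the parts
  have hct : ct univ (fun j => 1 ≤ (sec D j).card) = U.card + V.card := by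
    rw [← card_union_of_disjoint hUV]
    refine GD_ct _ _ _ fun j => ?_
    rw [mem_union, mU, mV]
    constructor
    · intro h1
      exact ⟨mem_univ _, by omega⟩
    · rintro ⟨-, h1⟩
      omega
  rw [hct] at hdd1
  obtain ⟨hE, hFc⟩ := thm_JN _ _ (dG T k) (cp (Fin t) (prN k N)) (rr T k) F
  rw [← hD, ← hQ] at hE hFc
  have hEQ2 : E2 (cp (Fin t) (prN k N)) Q = ∑ i, E2 (prN k N) (sec Q i) :=
    (thm_CP (Fin t) _ (prN k N) Q).1
  have hDc : D.card = ∑ j, (sec D j).card := (thm_CP (Fin δ) _ (st k h) D).2.2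
  have hQc : Q.card = ∑ i, (sec Q i).card := (thm_CP (Fin t) _ (prN k N) Q).2.2
  -- the groups `D j`
  have hgrp : (U.card : ℝ) * (2 * (k : ℝ) - 2 * μ) + V.card * ((k : ℝ) + 1 - μ) ≤
      ∑ j, ((k + 1 - μ) * ((sec D j).card : ℝ) - E2 (st k h) (sec D j)) := by
    have h1 : ∀ j, (if j ∈ U then 2 * (k : ℝ) - 2 * μ else 0) +
        (if j ∈ V then (k : ℝ) + 1 - μ else 0) ≤
        (k + 1 - μ) * ((sec D j).card : ℝ) - E2 (st k h) (sec D j) := by
      intro j
      obtain ⟨g1, g2, g3⟩ := hDG k h hh hk100 (sec D j)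
      rw [← hμ] at g1 g2
      by_cases hj : j ∈ U
      · have hj' : j ∉ V := Finset.disjoint_left.1 hUV hj
        rw [if_pos hj, if_neg hj', add_zero]
        exact g1 ((mU j).1 hj)
      · rw [if_neg hj, zero_add]
        by_cases hj' : j ∈ V
        · rw [if_pos hj']
          exact g2 ((mV j).1 hj')
        · rw [if_neg hj']
          have e : (sec D j).card = 0 := by
            rw [mU] at hj
            rw [mV] at hj'
            omega
          rw [g3 e, e]
          simp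
    refine le_trans (le_of_eq ?_) (sum_le_sum fun j _ => h1 j)
    rw [sum_add_distrib, Finset.sum_ite_mem, Finset.sum_ite_mem, univ_inter, univ_inter,
      sum_const, sum_const, nsmul_eq_mul, nsmul_eq_mul]
  -- the pairs
  have hSi : ∀ i, S i = (k + 1 - μ) * ((sec Q i).card : ℝ) - E2 (prN k N) (sec Q i) -
      2 * ((pp T D i true : ℝ) * nb1 (sec Q i) + (qq T D i true : ℝ) * nb2 (sec Q i) +
        (pp T D i true : ℝ) * ne (sec Q i) +
        ((pp T D i false : ℝ) * nc1 (sec Q i) + (qq T D i false : ℝ) * nc2 (sec Q i))) := by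
    intro i
    obtain ⟨-, e1, e2⟩ := hEP k N (sec Q i) (by omega)
    rw [hS, e2, e1]
    simp only [SV, gg]
    push_cast
    ring
  have hS0 : ∀ i, i ∉ P → S i = 0 := by
    intro i hi
    have e : sec Q i = ∅ := by
      rw [mP] at hi
      rw [← Finset.card_eq_zero]
      omega
    rw [hS]
    simp only [e, SV, gg, nb1, nb2, nc1, nc2, nj, ne, nn, GD_pL_empty, GD_pR_empty, GD_ct_empty]
    simp
  have hSP : ∑ i, S i = ∑ i ∈ P, S i := by
    rw [← sum_subset (subset_univ P)]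
    intro i _ hi
    exact hS0 i hi
  have hnP : ∑ i, (sec Q i).card = ∑ i ∈ P, (sec Q i).card := by
    rw [← sum_subset (subset_univ P)]
    intro i _ hi
    rw [mP] at hi
    omega
  -- the final inequality
  have key := hFC' k (by omega) μ hμ0.le hμ1 U V P hUV (fun i => (sec Q i).card) S dd
    (fun i hi => (mP i).1 hi) ?_ ?_ hdd1 ?_
  · have hsumS : ∑ i, S i = (k + 1 - μ) * (Q.card : ℝ) - E2 (cp (Fin t) (prN k N)) Q -
        2 * ∑ i, ((pp T D i true : ℝ) * nb1 (sec Q i) + (qq T D i true : ℝ) * nb2 (sec Q i) +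
        (pp T D i true : ℝ) * ne (sec Q i) +
        ((pp T D i false : ℝ) * nc1 (sec Q i) + (qq T D i false : ℝ) * nc2 (sec Q i))) := by
      rw [sum_congr rfl fun i _ => hSi i, sum_sub_distrib, sum_sub_distrib, ← mul_sum, ← mul_sum,
        hQc, hEQ2]
      push_cast
      rfl
    have hsumD : ∑ j, ((k + 1 - μ) * ((sec D j).card : ℝ) - E2 (st k h) (sec D j)) =
        (k + 1 - μ) * (D.card : ℝ) - ∑ j, E2 (st k h) (sec D j) := by
      rw [sum_sub_distrib, ← mul_sum, hDc]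
      push_cast
      rfl
    rw [hsumD] at hgrp
    rw [hSP] at hsumS
    have hE' : E2 (GT T k N) F = E2 (dG T k) D + E2 (cp (Fin t) (prN k N)) Q +
        2 * ∑ x ∈ D, (ct Q (rr T k x) : ℝ) := hE
    rw [hE', hFc]
    push_cast
    have hdd2' : E2 (dG T k) D ≤ ∑ j, E2 (st k h) (sec D j) + 2 * dd := hdd2
    linarith
  · intro i hi
    obtain ⟨e0, e1, e2⟩ := hEP k N (sec Q i) (by omega)
    have hc := (mP i).1 hi
    have b1 := hPQ' i true
    have b2 := hPQ' i false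
    have := (hSM' k (by omega) _ _ _ _ _ _ _ (pp T D i true) (qq T D i true) (pp T D i false)
      (qq T D i false) (T.fl U V i true) (T.fl U V i false) e0 (by omega) b1.1 b2.1 b1.2 b2.2).1
    rw [← hμ, ← hR] at this
    rw [hS]
    exact this
  · intro i hi f1 f2 hn
    obtain ⟨e0, e1, e2⟩ := hEP k N (sec Q i) (by omega)
    have hc := (mP i).1 hi
    have b1 := hPQ' i true
    have b2 := hPQ' i false
    have := (hSM' k (by omega) _ _ _ _ _ _ _ (pp T D i true) (qq T D i true) (pp T D i false)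
      (qq T D i false) (T.fl U V i true) (T.fl U V i false) e0 (by omega) b1.1 b2.1 b1.2 b2.2).2
      f1 f2 (by
        have hn' : 2 ≤ (sec Q i).card := hn
        omega)
    rw [← hμ] at this
    rw [hS]
    exact this
  · intro hU0
    have h1 : D.card = V.card := by
      rw [hDc]
      have h2 : ∀ j, (sec D j).card = if j ∈ V then 1 else 0 := by
        intro j
        have hj : j ∉ U := by
          rw [hU0]
          simp
        rw [mU] at hj
        by_cases hj' : j ∈ V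
        · rw [if_pos hj']
          exact (mV j).1 hj'
        · rw [if_neg hj']
          rw [mV] at hj'
          omega
      rw [sum_congr rfl fun j _ => h2 j, Finset.sum_ite_mem, univ_inter, sum_const, smul_eq_mul,
        mul_one]
    show 3 ≤ V.card + ∑ i ∈ P, (sec Q i).card
    rw [← hnP, ← hQc, ← h1, ← hFc]
    exact hF

end Pool.Agent.UBX
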