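import Pool.Agent.UBX.St

set_option autoImplicit false

open Finset

namespace Pool.Agent.UBX

open Pool.Agent.BKU

section

variable {δ t h : ℕ}

open Classical in
/-- the number of a side changes by one exactly if `j` has the target -/
private theorem IL_ins (T : TSys δ t h) (D : Finset (Fin δ)) (j : Fin δ) (hj : j ∉ D) (i : Fin t) (x : Bool) :
    T.u (insert j D) i x = T.u D i x + (if T.tg j i x then 1 else 0) := by
  unfold TSys.u ct
  rw [filter_insert]
  split_ifs with h1
  · rw [card_insert_of_notMem (fun h2 => hj (mem_of_mem_filter _ h2))]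
  · rfl

private theorem IL_mem (T : TSys δ t h) (D : Finset (Fin δ)) (i : Fin t) (x : Bool) (h1 : 1 ≤ T.u D i x) :
    ∃ a ∈ D, T.tg a i x := by
  classical
  unfold TSys.u ct at h1
  obtain ⟨a, ha⟩ := card_pos.1 h1
  exact ⟨a, (mem_filter.1 ha).1, (mem_filter.1 ha).2⟩

private theorem IL_tg (T : TSys δ t h) (j : Fin δ) (l : Fin h) (x : Bool) : T.tg j (T.pr j l) x ↔ x = T.sd j l := by
  constructor
  · rintro ⟨l', h1, h2⟩
    rw [← h2, T.inj j l' l h1]
  · rintro rfl
    exact ⟨l, rfl, rfl⟩

/-- what the target `l` of `j` adds -/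
private noncomputable def IL_c (T : TSys δ t h) (D : Finset (Fin δ)) (j : Fin δ) (l : Fin h) : ℤ :=
  if 1 ≤ T.u D (T.pr j l) (T.sd j l) then 2 else if 1 ≤ T.u D (T.pr j l) (!T.sd j l) then 1 else 0

private theorem IL_rk1 (a b : ℕ) : rk (a + 1) b - rk a b = if 1 ≤ a then 2 else if 1 ≤ b then 1 else 0 := by
  unfold rk
  rcases Nat.eq_zero_or_pos a with ha | ha <;> rcases Nat.eq_zero_or_pos b with hb | hb
  · subst ha; subst hb; simp
  · subst ha
    have : b ≠ 0 := by omega
    simp [this, Nat.one_le_iff_ne_zero]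
    ring
  · subst hb
    have : a ≠ 0 := by omega
    simp [this, Nat.one_le_iff_ne_zero]
    ring
  · have h1 : a ≠ 0 := by omega
    have h2 : b ≠ 0 := by omega
    simp [h1, h2, Nat.one_le_iff_ne_zero]
    ring

private theorem IL_rk2 (a b : ℕ) : rk a b = rk b a := by
  unfold rk
  by_cases ha : a = 0 <;> by_cases hb : b = 0 <;> (simp [ha, hb]; try ring)

private theorem IL_diff (T : TSys δ t h) (D : Finset (Fin δ)) (j : Fin δ) (hj : j ∉ D) :
    ∑ i, rk (T.u (insert j D) i true) (T.u (insert j D) i false) =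
      ∑ i, rk (T.u D i true) (T.u D i false) + ∑ l, IL_c T D j l := by
  classical
  have h1 : ∑ i, (rk (T.u (insert j D) i true) (T.u (insert j D) i false) - rk (T.u D i true) (T.u D i false)) =
      ∑ l, IL_c T D j l := by
    have hinj : Set.InjOn (T.pr j) (univ : Finset (Fin h)) := fun a _ b _ hab => T.inj j a b hab
    rw [← sum_subset (s₁ := univ.image (T.pr j)) (subset_univ _), sum_image hinj]
    · refine sum_congr rfl fun l _ => ?_
      rw [IL_ins T D j hj, IL_ins T D j hj]
      simp only [IL_tg]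
      unfold IL_c
      rcases hs : T.sd j l with _ | _
      · simp only [Bool.not_false]
        rw [if_neg (by decide), if_pos trivial, add_zero, IL_rk2, IL_rk2 (T.u D _ true), IL_rk1]
      · simp only [Bool.not_true]
        rw [if_pos trivial, if_neg (by decide), add_zero, IL_rk1]
    · intro i _ hi
      have h2 : ∀ x, ¬ T.tg j i x := by
        rintro x ⟨l, h3, _⟩
        exact hi (mem_image.2 ⟨l, mem_univ _, h3⟩)
      rw [IL_ins T D j hj, IL_ins T D j hj, if_neg (h2 _), if_neg (h2 _)]
      simp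
  rw [← h1, sum_sub_distrib]
  ring

private theorem IL_c_nonneg (T : TSys δ t h) (D : Finset (Fin δ)) (j : Fin δ) (l : Fin h) : 0 ≤ IL_c T D j l := by
  unfold IL_c
  split_ifs <;> norm_num

/-- a target with a contribution is met by an earlier group -/
private theorem IL_met (T : TSys δ t h) (D : Finset (Fin δ)) (j : Fin δ) (l : Fin h) (h1 : IL_c T D j l ≠ 0) :
    ∃ a ∈ D, ∃ l', T.pr a l' = T.pr j l := by
  unfold IL_c at h1
  by_cases h2 : 1 ≤ T.u D (T.pr j l) (T.sd j l)
  · obtain ⟨a, ha, l', h3, _⟩ := IL_mem T D _ _ h2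
    exact ⟨a, ha, l', h3⟩
  · by_cases h3 : 1 ≤ T.u D (T.pr j l) (!T.sd j l)
    · obtain ⟨a, ha, l', h4, _⟩ := IL_mem T D _ _ h3
      exact ⟨a, ha, l', h4⟩
    · rw [if_neg h2, if_neg h3] at h1
      exact absurd rfl h1

private theorem IL_main (T : TSys δ t h) (κ : Fin δ → ℕ) (H : T.Inc κ) (D : Finset (Fin δ)) : D.Nonempty →
    ∑ i, rk (T.u D i true) (T.u D i false) ≤ 2 * (D.card : ℤ) - 2 ∧
    (∑ i, rk (T.u D i true) (T.u D i false) = 2 * (D.card : ℤ) - 2 →
      (∀ a ∈ D, ∀ b ∈ D, κ a = κ b) ∧ ∀ i, ¬ (1 ≤ T.u D i true ∧ 1 ≤ T.u D i false)) := by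
  classical
  induction D using Finset.induction_on_max with
  | empty => intro h; exact absurd h (by simp)
  | insert j D hlt ih =>
    intro _
    have hj : j ∉ D := fun h => lt_irrefl j (hlt j h)
    rw [IL_diff T D j hj, card_insert_of_notMem hj]
    push_cast
    -- the contribution is at most two
    have hm : ∑ l, IL_c T D j l ≤ 2 ∧ (∑ l, IL_c T D j l = 2 →
        (∃ l, 1 ≤ T.u D (T.pr j l) (T.sd j l) ∧ ∀ l', l' ≠ l → IL_c T D j l' = 0) ∨
        (∃ l₁ l₂, l₁ ≠ l₂ ∧ IL_c T D j l₁ ≠ 0 ∧ IL_c T D j l₂ ≠ 0)) := by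
      by_cases hA : ∃ l, 1 ≤ T.u D (T.pr j l) (T.sd j l)
      · obtain ⟨l, hl⟩ := hA
        have h1 : ∀ l', l' ≠ l → IL_c T D j l' = 0 := by
          intro l' hl'
          by_contra h2
          obtain ⟨a, ha, l'', h3⟩ := IL_met T D j l' h2
          obtain ⟨b, hb, m, h4, h5⟩ := IL_mem T D _ _ hl
          exact hl' (H.L1a j l ⟨b, hlt b hb, m, h4, h5⟩ l' ⟨a, hlt a ha, l'', h3⟩)
        have h2 : ∑ l, IL_c T D j l = IL_c T D j l := by
          refine sum_eq_single l (fun b _ hb => h1 b hb) (fun h => absurd (mem_univ _) h)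
        have h3 : IL_c T D j l = 2 := by unfold IL_c; rw [if_pos hl]
        exact ⟨by rw [h2, h3], fun _ => Or.inl ⟨l, hl, h1⟩⟩
      · push Not at hA
        have h1 : ∀ l, IL_c T D j l = if IL_c T D j l ≠ 0 then 1 else 0 := by
          intro l
          have h2 : ¬ 1 ≤ T.u D (T.pr j l) (T.sd j l) := by have := hA l; omega
          unfold IL_c
          rw [if_neg h2]
          split_ifs with h3 h4 h5 <;> simp_all
        have h2 : ∑ l, IL_c T D j l = ((univ.filter fun l => IL_c T D j l ≠ 0).card : ℤ) := by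
          rw [sum_congr rfl fun l _ => h1 l, sum_ite, sum_const_zero, add_zero, sum_const]
          simp
        have h3 : (univ.filter fun l => IL_c T D j l ≠ 0).card ≤ 2 := by
          by_contra h4
          push Not at h4
          obtain ⟨a, b, c, ha, hb, hc, hab, hac, hbc⟩ := two_lt_card_iff.1 h4
          obtain ⟨a1, ha1, ha2⟩ := IL_met T D j a (mem_filter.1 ha).2
          obtain ⟨b1, hb1, hb2⟩ := IL_met T D j b (mem_filter.1 hb).2
          obtain ⟨c1, hc1, hc2⟩ := IL_met T D j c (mem_filter.1 hc).2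
          rcases H.L1b j a b c ⟨a1, hlt a1 ha1, ha2⟩ ⟨b1, hlt b1 hb1, hb2⟩ ⟨c1, hlt c1 hc1, hc2⟩ with h | h | h
          · exact hab h
          · exact hac h
          · exact hbc h
        refine ⟨by rw [h2]; exact_mod_cast h3, fun h4 => Or.inr ?_⟩
        rw [h2] at h4
        have h5 : 1 < (univ.filter fun l => IL_c T D j l ≠ 0).card := by omega
        obtain ⟨a, ha, b, hb, hab⟩ := one_lt_card.1 h5
        exact ⟨a, b, hab, (mem_filter.1 ha).2, (mem_filter.1 hb).2⟩
    rcases D.eq_empty_or_nonempty with rfl | hne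
    · have h1 : ∀ i x, T.u ∅ i x = 0 := fun i x => by unfold TSys.u ct; simp
      have h2 : ∀ l, IL_c T ∅ j l = 0 := fun l => by unfold IL_c; simp [h1]
      have h3 : ∑ l, IL_c T ∅ j l = 0 := sum_eq_zero fun l _ => h2 l
      have h4 : ∑ i, rk (T.u ∅ i true) (T.u ∅ i false) = 0 := sum_eq_zero fun i _ => by simp [h1, rk]
      rw [h3, h4]
      refine ⟨by simp, fun _ => ⟨?_, ?_⟩⟩
      · intro a ha b hb
        rw [mem_insert] at ha hb
        rcases ha with rfl | ha
        · rcases hb with rfl | hb
          · rfl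
          · exact absurd hb (notMem_empty _)
        · exact absurd ha (notMem_empty _)
      · rintro i ⟨h5, h6⟩
        rw [IL_ins T ∅ j hj, h1, zero_add] at h5 h6
        have h7 : T.tg j i true := by by_contra h; rw [if_neg h] at h5; omega
        have h8 : T.tg j i false := by by_contra h; rw [if_neg h] at h6; omega
        obtain ⟨l, h9, _⟩ := id h7
        rw [← h9, IL_tg] at h7 h8
        rw [← h7] at h8
        exact absurd h8 (by decide)
    · obtain ⟨ih1, ih2⟩ := ih hne
      refine ⟨by linarith [hm.1], fun heq => ?_⟩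
      have e1 : ∑ l, IL_c T D j l = 2 := by linarith [hm.1]
      have e2 : ∑ i, rk (T.u D i true) (T.u D i false) = 2 * (D.card : ℤ) - 2 := by linarith [hm.1]
      obtain ⟨g1, g2⟩ := ih2 e2
      rcases hm.2 e1 with ⟨l, hl, hl2⟩ | ⟨l₁, l₂, hne, h1, h2⟩
      · obtain ⟨b, hb, m, h4, h5⟩ := IL_mem T D _ _ hl
        have hk : κ b = κ j := H.L2 j b l m (hlt b hb) h4 h5
        refine ⟨?_, ?_⟩
        · intro x hx y hy
          have : ∀ z ∈ insert j D, κ z = κ j := by
            intro z hz
            rcases mem_insert.1 hz with rfl | hz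
            · rfl
            · rw [← hk]; exact g1 z hz b hb
          rw [this x hx, this y hy]
        · rintro i ⟨h6, h7⟩
          rw [IL_ins T D j hj] at h6 h7
          by_cases hi : ∃ l', T.pr j l' = i
          · obtain ⟨l', rfl⟩ := hi
            simp only [IL_tg] at h6 h7
            by_cases hll : l' = l
            · subst hll
              rcases hs : T.sd j l' with _ | _
              · rw [hs] at h6 h7 hl
                rw [if_neg (by decide), add_zero] at h6
                exact g2 _ ⟨h6, hl⟩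
              · rw [hs] at h6 h7 hl
                rw [if_neg (by decide), add_zero] at h7
                exact g2 _ ⟨hl, h7⟩
            · have h8 := hl2 l' hll
              unfold IL_c at h8
              have h9 : ¬ 1 ≤ T.u D (T.pr j l') (T.sd j l') := by
                intro h; rw [if_pos h] at h8; norm_num at h8
              rw [if_neg h9] at h8
              have h10 : ¬ 1 ≤ T.u D (T.pr j l') (!T.sd j l') := by
                intro h; rw [if_pos h] at h8; norm_num at h8
              rcases hs : T.sd j l' with _ | _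
              · rw [hs] at h6 h7 h9 h10
                rw [if_neg (by decide), add_zero] at h6
                exact h10 h6
              · rw [hs] at h6 h7 h9 h10
                rw [if_neg (by decide), add_zero] at h7
                exact h10 h7
          · have h8 : ∀ x, ¬ T.tg j i x := by
              rintro x ⟨l', h3, _⟩
              exact hi ⟨l', h3⟩
            rw [if_neg (h8 _), add_zero] at h6 h7
            exact g2 i ⟨h6, h7⟩
      · exfalso
        obtain ⟨a, ha, la, ha2⟩ := IL_met T D j l₁ h1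
        obtain ⟨b, hb, lb, hb2⟩ := IL_met T D j l₂ h2
        exact H.L3 j l₁ l₂ hne a b (hlt a ha) (hlt b hb) la lb ha2 hb2 (g1 a ha b hb)

end

theorem thm_IL : St_IL := by
  intro δ t h T κ H Δ hΔ
  obtain ⟨h1, h2⟩ := IL_main T κ H Δ hΔ
  refine ⟨h1, ?_⟩
  rintro ⟨i, hi⟩
  rcases lt_or_eq_of_le h1 with h3 | h3
  · linarith
  · exact absurd hi ((h2 h3).2 i)

end Pool.Agent.UBX

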