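import Pool.Agent.UBX.St
import Pool.Agent.BKU.JN
import Pool.Agent.BKU.CP

/-!
# Campaign UBX (MP_303581_co): independent sets of the graph (IN)
-/

set_option autoImplicit false

open Finset

namespace Pool.Agent.UBX

open Pool.Agent.BKU

private theorem IN_memL {X Y : Type} [Fintype X] (F : Finset (X ⊕ Y)) (x : X) :
    x ∈ pL F ↔ Sum.inl x ∈ F := by
  unfold pL
  simp

private theorem IN_memR {X Y : Type} [Fintype Y] (F : Finset (X ⊕ Y)) (y : Y) :
    y ∈ pR F ↔ Sum.inr y ∈ F := by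
  unfold pR
  simp

private theorem IN_memS {ι W : Type} [Fintype W] (F : Finset (ι × W)) (i : ι) (w : W) :
    w ∈ sec F i ↔ (i, w) ∈ F := by
  unfold sec
  simp

/-- two different vertices of an independent set of `st k h` are the centre and a leaf -/
private theorem IN_two {k h : ℕ} {D : Finset (Fin k)}
    (hD : ∀ x ∈ D, ∀ y ∈ D, x ≠ y → ¬ (st k h).Adj x y) {x y : Fin k} (hx : x ∈ D) (hy : y ∈ D)
    (hxy : x ≠ y) : (x.val = 0 ∧ y.val ≤ h) ∨ (y.val = 0 ∧ x.val ≤ h) := by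
  by_contra hn
  push Not at hn
  refine hD x hx y hy hxy ⟨hxy, ?_, ?_⟩
  · rintro ⟨h1, h2⟩
    have := hn.1 h1
    omega
  · rintro ⟨h1, h2⟩
    have := hn.2 h1
    omega

/-- an independent set of `st k h` has at most two elements -/
private theorem IN_le2 {k h : ℕ} {D : Finset (Fin k)}
    (hD : ∀ x ∈ D, ∀ y ∈ D, x ≠ y → ¬ (st k h).Adj x y) : D.card ≤ 2 := by
  by_contra hn
  push Not at hn
  obtain ⟨a, b, c, ha, hb, hc, hab, hac, hbc⟩ := Finset.two_lt_card_iff.1 hn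
  have h1 := IN_two hD ha hb hab
  have h2 := IN_two hD ha hc hac
  have h3 := IN_two hD hb hc hbc
  have e1 : a.val ≠ b.val := fun h => hab (Fin.ext h)
  have e2 : a.val ≠ c.val := fun h => hac (Fin.ext h)
  have e3 : b.val ≠ c.val := fun h => hbc (Fin.ext h)
  omega

/-- two elements are the centre and a leaf -/
private theorem IN_ctr {k h : ℕ} {D : Finset (Fin k)}
    (hD : ∀ x ∈ D, ∀ y ∈ D, x ≠ y → ¬ (st k h).Adj x y) (h2 : 2 ≤ D.card) :
    ∃ a ∈ D, ∃ b ∈ D, a.val = 0 ∧ 1 ≤ b.val ∧ b.val ≤ h := by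
  obtain ⟨x, y, hx, hy, hxy⟩ := Finset.one_lt_card_iff.1 (show 1 < D.card from h2)
  have e1 : x.val ≠ y.val := fun h => hxy (Fin.ext h)
  rcases IN_two hD hx hy hxy with ⟨h1, h2⟩ | ⟨h1, h2⟩
  · exact ⟨x, hx, y, hy, h1, by omega, h2⟩
  · exact ⟨y, hy, x, hx, h1, by omega, h2⟩

theorem thm_IN : St_IN := by
  classical
  intro δ t h T k N hN hNk hhk I hI
  have hadj : ∀ x y, x ∈ I → y ∈ I → x ≠ y → ¬ (GT T k N).Adj x y := fun x y hx hy hxy =>
    hI x hx y hy hxy
  obtain ⟨D, hD⟩ : ∃ D : Fin δ → Finset (Fin k), D = fun j => sec (pL I) j := ⟨_, rfl⟩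
  obtain ⟨B, hB⟩ : ∃ B : Fin t → Finset (Fin (k - 1)), B = fun i => pL (sec (pR I) i) := ⟨_, rfl⟩
  obtain ⟨C, hC⟩ : ∃ C : Fin t → Finset (Fin k), C = fun i => pR (sec (pR I) i) := ⟨_, rfl⟩
  have mD : ∀ j x, x ∈ D j ↔ Sum.inl (j, x) ∈ I := by
    intro j x
    rw [hD, IN_memS, IN_memL]
  have mB : ∀ i x, x ∈ B i ↔ Sum.inr (i, Sum.inl x) ∈ I := by
    intro i x
    rw [hB, IN_memL, IN_memS, IN_memR]
  have mC : ∀ i x, x ∈ C i ↔ Sum.inr (i, Sum.inr x) ∈ I := by
    intro i x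
    rw [hC, IN_memR, IN_memS, IN_memR]
  have hcard : I.card = ∑ j, (D j).card + ∑ i, ((B i).card + (C i).card) := by
    have h1 : I.card = (pL I).card + (pR I).card :=
      (thm_JN _ _ (dG T k) (cp (Fin t) (prN k N)) (rr T k) I).2
    have h2 : (pL I).card = ∑ j, (D j).card := by
      rw [hD]
      exact (thm_CP (Fin δ) (Fin k) (st k h) (pL I)).2.2
    have h3 : (pR I).card = ∑ i, (sec (pR I) i).card :=
      (thm_CP (Fin t) _ (prN k N) (pR I)).2.2
    have h4 : ∀ i, (sec (pR I) i).card = (B i).card + (C i).card := by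
      intro i
      rw [hB, hC]
      exact (thm_JN _ _ (⊤ : SimpleGraph (Fin (k - 1))) (st k N) (fun _ _ => False)
        (sec (pR I) i)).2
    rw [h1, h2, h3, sum_congr rfl fun i _ => h4 i]
  -- the parts are independent
  have iD : ∀ j, ∀ x ∈ D j, ∀ y ∈ D j, x ≠ y → ¬ (st k h).Adj x y := by
    intro j x hx y hy hxy ha
    refine hadj _ _ ((mD j x).1 hx) ((mD j y).1 hy) ?_ ?_
    · intro he
      exact hxy (Prod.mk.inj (Sum.inl.inj he)).2
    · exact Or.inl ⟨rfl, ha⟩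
  have iC : ∀ i, ∀ x ∈ C i, ∀ y ∈ C i, x ≠ y → ¬ (st k N).Adj x y := by
    intro i x hx y hy hxy ha
    refine hadj _ _ ((mC i x).1 hx) ((mC i y).1 hy) ?_ ?_
    · intro he
      exact hxy (Sum.inr.inj (Prod.mk.inj (Sum.inr.inj he)).2)
    · exact ⟨rfl, ha⟩
  have cB : ∀ i, (B i).card ≤ 1 := by
    intro i
    rw [Finset.card_le_one]
    intro x hx y hy
    by_contra hxy
    refine hadj _ _ ((mB i x).1 hx) ((mB i y).1 hy) ?_ ?_
    · intro he
      exact hxy (Sum.inl.inj (Prod.mk.inj (Sum.inr.inj he)).2)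
    · exact ⟨rfl, hxy⟩
  have cC : ∀ i, (C i).card ≤ 2 := fun i => IN_le2 (iC i)
  -- two elements in `C i`
  have hBC : ∀ i, 2 ≤ (C i).card → B i = ∅ := by
    intro i h2
    obtain ⟨a, ha, c, hc, ha0, hc1, hcN⟩ := IN_ctr (iC i) h2
    rw [Finset.eq_empty_iff_forall_notMem]
    intro b hb
    by_cases hbk : b.val + N + 1 < k
    · refine hadj _ _ ((mB i b).1 hb) ((mC i a).1 ha) (by simp) ?_
      exact ⟨rfl, Or.inl ⟨ha0, hbk⟩⟩
    · refine hadj _ _ ((mB i b).1 hb) ((mC i c).1 hc) (by simp) ?_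
      exact ⟨rfl, Or.inr ⟨hc1, hcN, by omega⟩⟩
  -- the set `X`
  obtain ⟨X, hX⟩ : ∃ X : Finset (Fin δ), X = univ.filter fun j => 2 ≤ (D j).card := ⟨_, rfl⟩
  obtain ⟨Q, hQ⟩ : ∃ Q : Fin t → Bool → Finset (Fin δ), Q = fun i x => X.filter fun j =>
      ∃ l : Fin h, T.pr j l = i ∧ T.sd j l = x ∧ ∃ a b : Fin k, Sum.inl (j, a) ∈ I ∧
        Sum.inl (j, b) ∈ I ∧ a.val = 0 ∧ b.val = l.val + 1 := ⟨_, rfl⟩
  have mQ : ∀ i x j, j ∈ Q i x → ∃ l : Fin h, T.pr j l = i ∧ T.sd j l = x ∧ ∃ a b : Fin k,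
      Sum.inl (j, a) ∈ I ∧ Sum.inl (j, b) ∈ I ∧ a.val = 0 ∧ b.val = l.val + 1 := by
    intro i x j hj
    rw [hQ, mem_filter] at hj
    exact hj.2
  have hXQ : X.card ≤ ∑ i, ((Q i true).card + (Q i false).card) := by
    have hsub : X ⊆ univ.biUnion fun i => Q i true ∪ Q i false := by
      intro j hj
      have h2 : 2 ≤ (D j).card := by
        have hj' := hj
        rw [hX, mem_filter] at hj'
        exact hj'.2
      obtain ⟨a, ha, b, hb, ha0, hb1, hbh⟩ := IN_ctr (iD j) h2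
      rw [mem_biUnion]
      refine ⟨T.pr j ⟨b.val - 1, by omega⟩, mem_univ _, ?_⟩
      rw [mem_union, hQ]
      have e : b.val = b.val - 1 + 1 := by omega
      cases hx : T.sd j ⟨b.val - 1, by omega⟩ with
      | true =>
        exact Or.inl (mem_filter.2 ⟨hj, _, rfl, hx, a, b, (mD j a).1 ha, (mD j b).1 hb, ha0, e⟩)
      | false =>
        exact Or.inr (mem_filter.2 ⟨hj, _, rfl, hx, a, b, (mD j a).1 ha, (mD j b).1 hb, ha0, e⟩)
    refine (card_le_card hsub).trans (card_biUnion_le.trans ?_)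
    exact sum_le_sum fun i _ => card_union_le _ _
  have cQ : ∀ i x, (Q i x).card ≤ 1 := by
    intro i x
    rw [Finset.card_le_one]
    intro j hj j' hj'
    by_contra hne
    obtain ⟨l, h1, h2, a, b, h3, -, h5, -⟩ := mQ i x j hj
    obtain ⟨l', h1', h2', a', b', h3', -, h5', -⟩ := mQ i x j' hj'
    refine hadj _ _ h3 h3' ?_ ?_
    · intro he
      exact hne (Prod.mk.inj (Sum.inl.inj he)).1
    · exact Or.inr ⟨hne, h5, h5', i, x, ⟨l, h1, h2⟩, ⟨l', h1', h2'⟩⟩
  -- the sides of a pair with a group in `X`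
  have qB : ∀ i, 1 ≤ (Q i true).card → B i = ∅ ∧ (C i).card ≤ 1 := by
    intro i hq
    obtain ⟨j, hj⟩ := Finset.card_pos.1 (show 0 < (Q i true).card from hq)
    obtain ⟨l, h1, h2, a, b, h3, h4, h5, h6⟩ := mQ i true j hj
    constructor
    · rw [Finset.eq_empty_iff_forall_notMem]
      intro y hy
      by_cases hyk : y.val < k / 2
      · refine hadj _ _ h3 ((mB i y).1 hy) (by simp) ?_
        exact Or.inl ⟨h5, ⟨l, h1, h2⟩, hyk⟩
      · refine hadj _ _ h4 ((mB i y).1 hy) (by simp) ?_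
        exact Or.inr ⟨l, h1, h2, h6, by omega⟩
    · by_contra hn
      push Not at hn
      obtain ⟨c, hc, -, -, hc0, -, -⟩ := IN_ctr (iC i) hn
      refine hadj _ _ h3 ((mC i c).1 hc) (by simp) ?_
      exact Or.inr (Or.inr ⟨h5, ⟨l, h1, h2⟩, hc0⟩)
  have qC : ∀ i, 1 ≤ (Q i false).card → C i = ∅ := by
    intro i hq
    obtain ⟨j, hj⟩ := Finset.card_pos.1 (show 0 < (Q i false).card from hq)
    obtain ⟨l, h1, h2, a, b, h3, h4, h5, h6⟩ := mQ i false j hj
    rw [Finset.eq_empty_iff_forall_notMem]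
    intro y hy
    by_cases hyk : y.val < k / 2
    · refine hadj _ _ h3 ((mC i y).1 hy) (by simp) ?_
      exact Or.inl ⟨h5, ⟨l, h1, h2⟩, hyk⟩
    · refine hadj _ _ h4 ((mC i y).1 hy) (by simp) ?_
      exact Or.inr (Or.inl ⟨l, h1, h2, h6, by omega⟩)
  -- the total
  have hDX : ∑ j, (D j).card ≤ δ + X.card := by
    have h1 : ∀ j, (D j).card ≤ 1 + if j ∈ X then 1 else 0 := by
      intro j
      by_cases hj : j ∈ X
      · rw [if_pos hj]
        exact IN_le2 (iD j)
      · rw [if_neg hj]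
        rw [hX, mem_filter] at hj
        push Not at hj
        have := hj (mem_univ j)
        omega
    refine (sum_le_sum fun j _ => h1 j).trans ?_
    rw [sum_add_distrib, sum_const, card_univ, Fintype.card_fin, smul_eq_mul, mul_one,
      Finset.sum_ite_mem, univ_inter, sum_const, smul_eq_mul, mul_one]
  have hpair : ∀ i, (Q i true).card + (Q i false).card + ((B i).card + (C i).card) ≤ 2 := by
    intro i
    have a1 := cQ i true
    have a2 := cQ i false
    have a3 := cB i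
    have a4 := cC i
    by_cases e1 : 1 ≤ (Q i true).card
    · obtain ⟨b1, b2⟩ := qB i e1
      have b3 : (B i).card = 0 := by rw [b1, card_empty]
      by_cases e2 : 1 ≤ (Q i false).card
      · have b4 : (C i).card = 0 := by rw [qC i e2, card_empty]
        omega
      · omega
    · by_cases e2 : 1 ≤ (Q i false).card
      · have b4 : (C i).card = 0 := by rw [qC i e2, card_empty]
        omega
      · by_cases e3 : 2 ≤ (C i).card
        · have b3 : (B i).card = 0 := by rw [hBC i e3, card_empty]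
          omega
        · omega
  have hsum : ∑ i, ((Q i true).card + (Q i false).card + ((B i).card + (C i).card)) ≤ 2 * t := by
    refine (sum_le_sum fun i _ => hpair i).trans ?_
    rw [sum_const, card_univ, Fintype.card_fin, smul_eq_mul, mul_comm]
  rw [sum_add_distrib] at hsum
  omega

end Pool.Agent.UBX
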