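import Pool.Agent.UBX.St

/-!
# Campaign UBX (MP_303581_co), module NI: from functions on the natural numbers to target systems
-/

set_option autoImplicit false

open Finset

namespace Pool.Agent.UBX

open Pool.Agent.BKU

theorem thm_NI (hIL : St_IL) : St_NI := by
  intro δ t h pr sd κ H
  obtain ⟨T, hTp, hTs⟩ : ∃ T : TSys δ t h, (∀ j l, (T.pr j l).val = pr j.val l.val) ∧
      ∀ j l, T.sd j l = sd j.val l.val :=
    ⟨⟨fun j l => ⟨pr j.val l.val, H.lt j.val j.isLt l.val l.isLt⟩, fun j l => sd j.val l.val,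
      fun j l l' hl => Fin.ext (H.inj j.val j.isLt l.val l.isLt l'.val l'.isLt
        (congrArg Fin.val hl))⟩, fun _ _ => rfl, fun _ _ => rfl⟩
  have hp : ∀ {j j' : Fin δ} {l l' : Fin h}, T.pr j' l' = T.pr j l →
      pr j'.val l'.val = pr j.val l.val := by
    intro j j' l l' e
    rw [← hTp, ← hTp, e]
  have hs : ∀ {j j' : Fin δ} {l l' : Fin h}, T.sd j' l' = T.sd j l →
      sd j'.val l'.val = sd j.val l.val := by
    intro j j' l l' e
    rw [← hTs, ← hTs, e]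
  refine ⟨T, hIL δ t h T (fun j => κ j.val) ⟨?_, ?_, ?_, ?_⟩⟩
  · rintro j l ⟨j', hj', l', e1, e2⟩ l₁ ⟨j'', hj'', l'', e3⟩
    exact Fin.ext (H.L1a j.val j.isLt l.val l.isLt j'.val hj' l'.val l'.isLt (hp e1) (hs e2)
      l₁.val l₁.isLt j''.val hj'' l''.val l''.isLt (hp e3))
  · rintro j l₁ l₂ l₃ ⟨j₁, hj₁, m₁, e1⟩ ⟨j₂, hj₂, m₂, e2⟩ ⟨j₃, hj₃, m₃, e3⟩
    rcases H.L1b j.val j.isLt l₁.val l₁.isLt l₂.val l₂.isLt l₃.val l₃.isLt j₁.val hj₁ j₂.val hj₂
      j₃.val hj₃ m₁.val m₁.isLt m₂.val m₂.isLt m₃.val m₃.isLt (hp e1) (hp e2) (hp e3)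
      with h1 | h1 | h1
    · exact Or.inl (Fin.ext h1)
    · exact Or.inr (Or.inl (Fin.ext h1))
    · exact Or.inr (Or.inr (Fin.ext h1))
  · intro j j' l l' hj e1 e2
    exact H.L2 j.val j.isLt j'.val hj l.val l.isLt l'.val l'.isLt (hp e1) (hs e2)
  · intro j l₁ l₂ hl a b ha hb la lb e1 e2
    exact H.L3 j.val j.isLt l₁.val l₁.isLt l₂.val l₂.isLt (fun h1 => hl (Fin.ext h1)) a.val ha
      b.val hb la.val la.isLt lb.val lb.isLt (hp e1) (hp e2)

end Pool.Agent.UBX
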