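import Pool.Agent.UBX.St

/-!
# Campaign UBX, module PQ: flag numbers
-/

set_option autoImplicit false

open Finset

namespace Pool.Agent.UBX

open Pool.Agent.BKU

open Classical in
private theorem PQ_ct {δ : ℕ} (U : Finset (Fin δ)) (p : Fin δ → Prop) :
    ct U p = ∑ j : Fin δ, if p j then (if j ∈ U then 1 else 0) else 0 := by
  unfold ct
  have e : U.filter p = univ.filter (fun j => p j ∧ j ∈ U) := by
    ext j
    simp [and_comm]
  rw [e, card_filter]
  refine sum_congr rfl fun j _ => ?_
  by_cases h1 : p j <;> by_cases h2 : j ∈ U <;> simp [h1, h2]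

private theorem PQ_ct2 {V : Type} (D : Finset V) (p : V → Prop) [DecidablePred p] : ct D p = (D.filter p).card := by
  unfold ct
  congr

theorem thm_PQ : St_PQ := by
  classical
  intro δ t h T k D U V hU hV i x
  have hUV : Disjoint U V := by
    rw [disjoint_left]
    intro j h1 h2
    have h3 := (hU j).1 h1
    have h4 := (hV j).1 h2
    omega
  refine ⟨?_, ?_⟩
  · have hfl : T.fl U V i x = ∑ j : Fin δ, (2 * (if T.tg j i x then (if j ∈ U then 1 else 0) else 0) +
        (if T.tg j i x then (if j ∈ V then 1 else 0) else 0)) := by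
      unfold TSys.fl TSys.u
      rw [PQ_ct, PQ_ct, sum_add_distrib, mul_sum]
    have hpq : pp T D i x + qq T D i x = ∑ j : Fin δ, (((D.filter fun v => v.2.val = 0 ∧ T.tg v.1 i x) ∪
        (D.filter fun v => ∃ l, T.pr v.1 l = i ∧ T.sd v.1 l = x ∧ v.2.val = l.val + 1)).filter fun v => v.1 = j).card := by
      rw [← card_eq_sum_card_fiberwise (fun v _ => by simp), card_union_of_disjoint]
      · unfold pp qq
        rw [PQ_ct2, PQ_ct2]
      · rw [disjoint_left]
        intro v h1 h2
        obtain ⟨l, -, -, h3⟩ := (mem_filter.1 h2).2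
        have := (mem_filter.1 h1).2.1
        omega
    rw [hfl, hpq]
    refine sum_le_sum fun j _ => ?_
    set S := (((D.filter fun v => v.2.val = 0 ∧ T.tg v.1 i x) ∪
        (D.filter fun v => ∃ l, T.pr v.1 l = i ∧ T.sd v.1 l = x ∧ v.2.val = l.val + 1)).filter fun v => v.1 = j) with hS
    have hm : ∀ v ∈ S, v ∈ D ∧ v.1 = j ∧ T.tg j i x ∧ (v.2.val = 0 ∨ ∃ l, T.pr j l = i ∧ v.2.val = l.val + 1) := by
      intro v hv
      rw [hS, mem_filter, mem_union, mem_filter, mem_filter] at hv
      obtain ⟨hv, hj⟩ := hv
      subst hj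
      rcases hv with ⟨h1, h2, h3⟩ | ⟨h1, l, h2, h3, h4⟩
      · exact ⟨h1, rfl, h3, Or.inl h2⟩
      · exact ⟨h1, rfl, ⟨l, h2, h3⟩, Or.inr ⟨l, h2, h4⟩⟩
    by_cases htg : T.tg j i x
    · have c1 : S.card ≤ (sec D j).card := by
        refine card_le_card_of_injOn (fun v => v.2) ?_ ?_
        · intro v hv
          obtain ⟨h1, h2, -, -⟩ := hm v hv
          simp only [sec, coe_filter, mem_univ, true_and, Set.mem_ofPred_eq]
          rw [← h2]
          exact h1
        · intro v hv w hw hvw
          obtain ⟨-, h2, -, -⟩ := hm v hv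
          obtain ⟨-, h3, -, -⟩ := hm w hw
          exact Prod.ext (h2.trans h3.symm) hvw
      have c2 : S.card ≤ 2 := by
        obtain ⟨l, hl, -⟩ := htg
        have hsub : S.card ≤ ({0, l.val + 1} : Finset ℕ).card := by
          refine card_le_card_of_injOn (fun v => v.2.val) ?_ ?_
          · intro v hv
            obtain ⟨-, -, -, h3⟩ := hm v hv
            rcases h3 with h3 | ⟨l', h4, h5⟩
            · simp [h3]
            · have : l' = l := T.inj j l' l (h4.trans hl.symm)
              subst this
              simp [h5]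
          · intro v hv w hw hvw
            obtain ⟨-, h2, -, -⟩ := hm v hv
            obtain ⟨-, h3, -, -⟩ := hm w hw
            exact Prod.ext (h2.trans h3.symm) (Fin.ext hvw)
        exact hsub.trans card_le_two
      simp only [htg, if_true]
      by_cases h1 : j ∈ U
      · simp only [h1, if_true]
        omega
      · by_cases h2 : j ∈ V
        · have := (hV j).1 h2
          simp only [h1, h2, if_true, if_false]
          omega
        · have a1 : ¬ 2 ≤ (sec D j).card := fun h3 => h1 ((hU j).2 h3)
          have a2 : ¬ (sec D j).card = 1 := fun h3 => h2 ((hV j).2 h3)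
          omega
    · have : S = ∅ := by
        rw [eq_empty_iff_forall_notMem]
        intro v hv
        exact htg (hm v hv).2.2.1
      rw [this]
      simp
  · have a1 : T.u U i x ≤ U.card := card_filter_le _ _
    have a2 : T.u V i x ≤ V.card := card_filter_le _ _
    have a3 : U.card + V.card ≤ δ := by
      rw [← card_union_of_disjoint hUV]
      exact (card_le_univ _).trans (by simp)
    unfold TSys.fl
    omega

end Pool.Agent.UBX
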