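import Pool.Agent.UBX.St

/-!
# UBX, module S0: the inequality for a pair without flags

Helper74, for MP_303581_co.
-/

set_option autoImplicit false

open Finset

namespace Pool.Agent.UBX

open Pool.Agent.BKU

theorem thm_S0 (hGB : BKU.St_GB) : St_S0 := by
  intro h N hh hN
  refine ⟨100 * (h + 2) ^ 2 + 100 * (N + 2) ^ 2, ?_⟩
  intro k hk b1 b2 c1 c2 j e n hP hpos
  obtain ⟨hjN, hjb, hbj, he1, hnN, hen, hcc, -, -, -, -⟩ := hP
  obtain ⟨hm0, hm8, hmu, g1, g2, gk, q1, -, qk⟩ := hGB k h hh (by omega)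
  obtain ⟨m, hm⟩ : ∃ m, m = mu k h := ⟨_, rfl⟩
  rw [← hm] at hm0 hm8 hmu g1 g2 gk q1 qk ⊢
  obtain ⟨b, hb⟩ : ∃ b, b = b1 + b2 := ⟨_, rfl⟩
  obtain ⟨c, hc⟩ : ∃ c, c = c1 + c2 := ⟨_, rfl⟩
  have hSV : SV k m b1 b2 c1 c2 j e n 0 0 0 0 = gg k m b + gg k m c + 2 * e * n -
      2 * e * ((b : ℝ) - j) - 2 * n * j := by
    unfold SV
    rw [hb, hc]
    push_cast
    ring
  rw [hSV]
  rw [← hb] at hjb hbj hpos ⊢
  rw [add_assoc b c1 c2, ← hc] at hpos ⊢
  rw [← hc] at hen hcc
  clear hSV hb hc
  have hH : (1 : ℝ) ≤ (h : ℝ) := by exact_mod_cast hh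
  have hNr : (h : ℝ) + 1 ≤ (N : ℝ) := by exact_mod_cast hN
  have hK1 : 100 * (h + 2) ^ 2 + 100 * (N + 2) ^ 2 ≤ k := hk
  have hK : 100 * ((h : ℝ) + 2) ^ 2 + 100 * ((N : ℝ) + 2) ^ 2 ≤ (k : ℝ) := by exact_mod_cast hk
  have hkN : N + 10 ≤ k := by nlinarith
  have hN0 : (0 : ℝ) ≤ N := Nat.cast_nonneg N
  have hbk : b + 1 ≤ k := by omega
  have hbr : (b : ℝ) ≤ (k : ℝ) - 1 := by
    have : ((b + 1 : ℕ) : ℝ) ≤ k := by exact_mod_cast hbk
    push_cast at this
    linarith
  have hgb1 : 1 ≤ b → (k : ℝ) + 1 - m ≤ gg k m b := fun h1 => g1 b (by exact_mod_cast h1) hbr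
  have hgb2 : 2 ≤ b → 2 * (k : ℝ) - 2 * m ≤ gg k m b := fun h1 => g2 b (by exact_mod_cast h1) hbr
  have hcr : c + 1 ≤ k → (c : ℝ) ≤ (k : ℝ) - 1 := by
    intro h1
    have : ((c + 1 : ℕ) : ℝ) ≤ k := by exact_mod_cast h1
    push_cast at this
    linarith
  have hgc1 : 1 ≤ c → c + 1 ≤ k → (k : ℝ) + 1 - m ≤ gg k m c := fun h1 h2 =>
    g1 c (by exact_mod_cast h1) (hcr h2)
  have hgc2 : 2 ≤ c → c + 1 ≤ k → 2 * (k : ℝ) - 2 * m ≤ gg k m c := fun h1 h2 =>
    g2 c (by exact_mod_cast h1) (hcr h2)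
  have hg0 : gg k m ((0 : ℕ) : ℝ) = 0 := by unfold gg; simp
  have hjr : (j : ℝ) ≤ N := by exact_mod_cast hjN
  have hj0 : (0 : ℝ) ≤ j := Nat.cast_nonneg j
  have hnr : (n : ℝ) ≤ N := by exact_mod_cast hnN
  have hn0 : (0 : ℝ) ≤ n := Nat.cast_nonneg n
  have hnJ : (n : ℝ) * j ≤ N * N := mul_le_mul hnr hjr hj0 hN0
  have hnj0 : (0 : ℝ) ≤ n * j := mul_nonneg hn0 hj0
  have hbig : 2 * ((N : ℝ) * N) + 2 * N + 2 * h + 10 ≤ k := by nlinarith
  have hone : ∀ t : ℕ, t + 1 ≤ k → 1 ≤ t → (k : ℝ) + 1 - m ≤ gg k m t ∧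
      (2 ≤ t → 2 * (k : ℝ) - 2 * m ≤ gg k m t) := by
    intro t ht ht1
    have htr : (t : ℝ) ≤ (k : ℝ) - 1 := by
      have : ((t + 1 : ℕ) : ℝ) ≤ k := by exact_mod_cast ht
      push_cast at this
      linarith
    exact ⟨g1 t (by exact_mod_cast ht1) htr, fun h2 => g2 t (by exact_mod_cast h2) htr⟩
  have hqb : 1 ≤ b → (k : ℝ) - 1 - m ≤ b * (k - b - m) + 2 * j ∧
      (k : ℝ) - 1 - 2 * h - m ≤ b * (k - b - m) := by
    intro h1
    have hb1 : (1 : ℝ) ≤ b := by exact_mod_cast h1
    rcases Nat.lt_or_ge (b + 1) k with h2 | h2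
    · have h3 : (b : ℝ) ≤ (k : ℝ) - 2 := by
        have : ((b + 2 : ℕ) : ℝ) ≤ k := by exact_mod_cast h2
        push_cast at this
        linarith
      have h4 := q1 b hb1 h3
      constructor <;> linarith
    · have h3 : (b : ℝ) = (k : ℝ) - 1 := by
        have h4 : b + 1 = k := le_antisymm hbk h2
        have h5 : ((b + 1 : ℕ) : ℝ) = k := by exact_mod_cast h4
        push_cast at h5
        linarith
      have hJe : j = N := by omega
      have hJe' : (j : ℝ) = N := by exact_mod_cast hJe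
      have h6 : (b : ℝ) * (k - b - m) = (k : ℝ) - 1 - 2 * h - m := by
        rw [h3]
        linear_combination qk
      rw [h6, hJe']
      constructor <;> linarith
  have hgbq : gg k m b = b * (k - b - m) + 2 * b := by
    unfold gg
    ring
  -- it is enough to prove the second bound if both parts are not empty
  have hsuff : ∀ T : ℝ, 2 * (k : ℝ) - 2 * m ≤ T → (k : ℝ) + 1 - m ≤ T ∧
      (2 ≤ b + c → 2 * (k : ℝ) - 2 * m ≤ T) := fun T hT => ⟨by nlinarith, fun _ => hT⟩
  rcases Nat.eq_zero_or_pos e with he | he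
  · subst he
    have hck : c + 1 ≤ k := by omega
    have hT : gg k m b + gg k m c + 2 * ((0 : ℕ) : ℝ) * n - 2 * ((0 : ℕ) : ℝ) * ((b : ℝ) - j) -
        2 * n * j = gg k m b + gg k m c - 2 * (n * j) := by
      push_cast
      ring
    rw [hT]
    rcases Nat.eq_zero_or_pos b with hb | hb
    · subst hb
      have hjz : j = 0 := by omega
      subst hjz
      rw [hg0, zero_add]
      have := hone c hck (by omega)
      simpa using this
    · rcases Nat.eq_zero_or_pos c with hc | hc
      · subst hc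
        have hnz : n = 0 := by omega
        subst hnz
        rw [hg0, add_zero]
        have := hone b hbk hb
        simpa using this
      · apply hsuff
        have k1 := hgb1 hb
        have k2 := hgc1 hc hck
        rcases Nat.lt_or_ge n 2 with hn | hn
        · have hnj : (n : ℝ) * j ≤ j := by
            have h1 : (n : ℝ) ≤ 1 := by
              have : n ≤ 1 := by omega
              exact_mod_cast this
            nlinarith
          rcases Nat.lt_or_ge b 2 with hb2 | hb2
          · have hj1 : (j : ℝ) ≤ 1 := by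
              have : j ≤ 1 := by omega
              exact_mod_cast this
            linarith
          · have k3 := hgb2 hb2
            nlinarith
        · have k4 := hgc2 (by omega) hck
          nlinarith
  · have he' : e = 1 := by omega
    subst he'
    have hT : gg k m b + gg k m c + 2 * ((1 : ℕ) : ℝ) * n - 2 * ((1 : ℕ) : ℝ) * ((b : ℝ) - j) -
        2 * n * j = (gg k m b - 2 * b + 2 * j - 2 * (n * j)) + (gg k m c + 2 * n) := by
      push_cast
      ring
    rw [hT]
    rcases Nat.eq_zero_or_pos n with hn | hn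
    · subst hn
      have hck : c + 1 ≤ k := by omega
      have hc1 : 1 ≤ c := by omega
      rcases Nat.eq_zero_or_pos b with hb | hb
      · subst hb
        have hjz : j = 0 := by omega
        subst hjz
        rw [hg0]
        have := hone c hck (by omega)
        simpa using this
      · apply hsuff
        have k1 := (hqb hb).1
        have k2 := hgc1 hc1 hck
        rw [hgbq]
        push_cast
        linarith
    · have hc2 : 2 ≤ c := by omega
      have hck : c ≤ k := by omega
      have k1 : 2 * (k : ℝ) - 2 * m ≤ gg k m c + 2 * n := by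
        rcases Nat.lt_or_ge c k with h1 | h1
        · have := hgc2 hc2 h1
          linarith
        · have h2 : c = k := le_antisymm hck h1
          have h3 : n = N := by omega
          rw [h2, h3, gk]
          linarith
      apply hsuff
      rcases Nat.eq_zero_or_pos b with hb | hb
      · subst hb
        have hjz : j = 0 := by omega
        subst hjz
        rw [hg0]
        simpa using k1
      · have k2 := (hqb hb).2
        rw [hgbq]
        nlinarith

end Pool.Agent.UBX
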