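import Pool.Agent.UBX.St

/-!
# Campaign UBX (MP_303581_co), module S1: one flag
-/

set_option autoImplicit false

namespace Pool.Agent.UBX

open Pool.Agent.BKU

/-- the relations between the numbers of a pair -/
private structure S1P (k N b c j e n : ℕ) : Prop where
  jN : j ≤ N
  jb : j ≤ b
  bj : b + N + 1 ≤ k + j
  e1 : e ≤ 1
  nN : n ≤ N
  en : e + n ≤ c
  cc : c + N + 1 ≤ k + e + n
  pos : 1 ≤ b + c

/-- the numerical facts used -/
private structure S1G (k h N : ℕ) (μ : ℝ) : Prop where
  h1 : 1 ≤ h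
  hN : h + 1 ≤ N
  kN : 100 * (N + 2) ^ 2 ≤ k
  μ0 : 0 < μ
  μ8 : μ ≤ 1 / 8
  g1 : ∀ x : ℝ, 1 ≤ x → x ≤ (k : ℝ) - 1 → (k : ℝ) + 1 - μ ≤ gg k μ x
  g2 : ∀ x : ℝ, 2 ≤ x → x ≤ (k : ℝ) - 1 → 2 * (k : ℝ) - 2 * μ ≤ gg k μ x
  g3 : gg k μ k = 2 * k - 2 * h - 2 * μ
  g4 : ∀ x : ℝ, 1 ≤ x → x ≤ (k : ℝ) - 2 → (k : ℝ) - 1 - μ ≤ x * (k - x - μ)
  g5 : ∀ x : ℝ, 2 ≤ x → x ≤ (k : ℝ) - 2 → 2 * (k : ℝ) - 4 - 2 * h - 2 * μ ≤ x * (k - x - μ)
  g6 : ((k : ℝ) - 1) * (1 - μ) = k - 1 - 2 * h - μ

private theorem S1_gg (k : ℕ) (μ x : ℝ) : gg k μ x = x * (k - x - μ) + 2 * x := by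
  unfold gg
  ring

private theorem S1_gg0 (k : ℕ) (μ : ℝ) : gg k μ 0 = 0 := by
  unfold gg
  ring

/-- lower bound of `b (k - b - μ)` for `1 ≤ b ≤ k - 1` -/
private theorem S1_low {k h N : ℕ} {μ : ℝ} (G : S1G k h N μ) {b : ℝ} (h1 : 1 ≤ b)
    (h2 : b ≤ (k : ℝ) - 2 ∨ b = (k : ℝ) - 1) : (k : ℝ) - 1 - 2 * h - μ ≤ b * (k - b - μ) := by
  have h0 : (1 : ℝ) ≤ h := by exact_mod_cast G.h1
  rcases h2 with h2 | h2
  · have := G.g4 b h1 h2
    linarith
  · have h3 := G.g6
    have h4 : b * (k - b - μ) = ((k : ℝ) - 1) * (1 - μ) := by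
      rw [h2]
      ring
    rw [h4, h3]

/-- the flag is on the side `B` -/
private theorem S1_B {k h N : ℕ} {μ : ℝ} (G : S1G k h N μ) {b c j e n : ℕ}
    (P : S1P k N b c j e n) {M : ℝ} (hM1 : M ≤ 2 * b) (hM2 : M ≤ k) :
    (k : ℝ) - 1 - μ ≤ gg k μ b + gg k μ c + 2 * e * n - 2 * e * ((b : ℝ) - j) - 2 * n * j - M -
      2 * e := by
  obtain ⟨jN, jb, bj, e1, nN, en, cc, pos⟩ := P
  have hh : (1 : ℝ) ≤ h := by exact_mod_cast G.h1
  have hN : (h : ℝ) + 1 ≤ N := by exact_mod_cast G.hN
  have hk : 100 * ((N : ℝ) + 2) ^ 2 ≤ k := by exact_mod_cast G.kN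
  have hμ0 := G.μ0
  have hμ8 := G.μ8
  have hN1 := G.hN
  have hh1 := G.h1
  have hkN := G.kN
  have hk0 : 400 ≤ k := by
    have h2 : 2 ^ 2 ≤ (N + 2) ^ 2 := Nat.pow_le_pow_left (by omega) 2
    omega
  have njN : (n : ℝ) * j ≤ N * N := by exact_mod_cast Nat.mul_le_mul nN jN
  have jN' : (j : ℝ) ≤ N := by exact_mod_cast jN
  have nN' : (n : ℝ) ≤ N := by exact_mod_cast nN
  have j0 : (0 : ℝ) ≤ j := by positivity
  have n0 : (0 : ℝ) ≤ n := by positivity
  -- the value at `c`
  have hc : c ≤ k := by omega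
  have gc0 : c ≤ k - 1 → 1 ≤ c → (k : ℝ) + 1 - μ ≤ gg k μ c := by
    intro h1 h2
    refine G.g1 c (by exact_mod_cast h2) ?_
    have h3 : c + 1 ≤ k := by omega
    have : ((c : ℝ) + 1) ≤ k := by exact_mod_cast h3
    linarith
  have gc00 : c ≤ k - 1 → 2 ≤ c → 2 * (k : ℝ) - 2 * μ ≤ gg k μ c := by
    intro h1 h2
    refine G.g2 c (by exact_mod_cast h2) ?_
    have h3 : c + 1 ≤ k := by omega
    have : ((c : ℝ) + 1) ≤ k := by exact_mod_cast h3
    linarith
  have gck : c = k → gg k μ c = 2 * k - 2 * h - 2 * μ := by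
    rintro rfl
    exact G.g3
  rcases Nat.eq_zero_or_pos b with hb | hb
  · subst hb
    have hj : j = 0 := by omega
    subst hj
    have hM : M ≤ 0 := by simpa using hM1
    simp only [Nat.cast_zero, S1_gg0]
    have en0 : (0 : ℝ) ≤ e * n := by positivity
    have e1' : (e : ℝ) ≤ 1 := by exact_mod_cast e1
    by_cases hck : c = k
    · have he : e = 1 := by omega
      have hn : n = N := by omega
      subst he hn
      have h1 := gck hck
      rw [h1]
      push_cast
      nlinarith
    · have h1 := gc0 (by omega) (by omega)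
      nlinarith
  · have hbk : b ≤ k - 1 := by omega
    have hbk' : (b : ℝ) + 1 ≤ k := by
      have : b + 1 ≤ k := by omega
      exact_mod_cast this
    have hb' : (1 : ℝ) ≤ b := by exact_mod_cast hb
    have gb0 : (k : ℝ) + 1 - μ ≤ gg k μ b := G.g1 b hb' (by linarith)
    have gb00 : 2 ≤ b → 2 * (k : ℝ) - 2 * μ ≤ gg k μ b := fun h2 =>
      G.g2 b (by exact_mod_cast h2) (by linarith)
    rcases Nat.eq_zero_or_pos e with he | he
    · subst he
      rcases Nat.eq_zero_or_pos n with hn | hn
      · subst hn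
        have hgc : 0 ≤ gg k μ c := by
          rcases Nat.eq_zero_or_pos c with hc0 | hc0
          · subst hc0
            simp [S1_gg0]
          · have := gc0 (by omega) hc0
            nlinarith
        simp only [Nat.cast_zero]
        rcases Nat.lt_or_ge b 2 with h2 | h2
        · have hb1 : b = 1 := by omega
          subst hb1
          push_cast at *
          nlinarith
        · have := gb00 h2
          nlinarith
      · have hgc := gc0 (by omega) (by omega)
        simp only [Nat.cast_zero]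
        rcases Nat.lt_or_ge b 2 with h2 | h2
        · have hb1 : b = 1 := by omega
          subst hb1
          push_cast at *
          nlinarith
        · have := gb00 h2
          nlinarith
    · have he1 : e = 1 := by omega
      subst he1
      have hlow : (b : ℝ) ≤ (k : ℝ) - 2 ∨ (b : ℝ) = (k : ℝ) - 1 := by
        rcases Nat.lt_or_ge b (k - 1) with h2 | h2
        · left
          have h3 : b + 2 ≤ k := by omega
          have : (b : ℝ) + 2 ≤ k := by exact_mod_cast h3
          linarith
        · right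
          have h3 : b + 1 = k := by omega
          have : (b : ℝ) + 1 = k := by exact_mod_cast h3
          linarith
      rcases Nat.eq_zero_or_pos n with hn | hn
      · subst hn
        have hgc := gc0 (by omega) (by omega)
        simp only [Nat.cast_zero, Nat.cast_one]
        rw [S1_gg k μ b]
        have key : 0 ≤ (b : ℝ) * (k - b - μ) + 2 * j - M := by
          by_cases h2 : 2 * b ≤ k
          · have h2' : 2 * (b : ℝ) ≤ k := by exact_mod_cast h2
            have h3 : 0 ≤ (b : ℝ) * (k - b - μ - 2) := by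
              apply mul_nonneg (by linarith)
              have : (400 : ℝ) ≤ k := by exact_mod_cast hk0
              linarith
            nlinarith
          · rcases hlow with h3 | h3
            · have hb2 : (2 : ℝ) ≤ b := by
                have : 2 ≤ b := by omega
                exact_mod_cast this
              have := G.g5 b hb2 h3
              nlinarith
            · have hj : j = N := by
                have h4 : b + 1 = k := by
                  have : (b : ℝ) + 1 = k := by linarith
                  exact_mod_cast this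
                omega
              have h4 := S1_low G hb' (Or.inr h3)
              rw [hj]
              linarith
        linarith
      · have hc2 : 2 ≤ c := by omega
        have hgc : 2 * (k : ℝ) - 2 * μ ≤ gg k μ c + 2 * n := by
          by_cases hck : c = k
          · have hn : n = N := by omega
            rw [gck hck, hn]
            linarith
          · have := gc00 (by omega) hc2
            linarith
        have h4 := S1_low G hb' hlow
        simp only [Nat.cast_one]
        rw [S1_gg k μ b]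
        nlinarith

/-- the flag is on the side `C` -/
private theorem S1_C {k h N : ℕ} {μ : ℝ} (G : S1G k h N μ) {b c j e n : ℕ}
    (P : S1P k N b c j e n) {M : ℝ} (hM1 : M ≤ 2 * c) (hM2 : M ≤ k + 1) :
    (k : ℝ) - 1 - μ ≤ gg k μ b + gg k μ c + 2 * e * n - 2 * e * ((b : ℝ) - j) - 2 * n * j - M := by
  obtain ⟨jN, jb, bj, e1, nN, en, cc, pos⟩ := P
  have hh : (1 : ℝ) ≤ h := by exact_mod_cast G.h1
  have hN : (h : ℝ) + 1 ≤ N := by exact_mod_cast G.hN
  have hk : 100 * ((N : ℝ) + 2) ^ 2 ≤ k := by exact_mod_cast G.kN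
  have hμ0 := G.μ0
  have hμ8 := G.μ8
  have hN1 := G.hN
  have hh1 := G.h1
  have hkN := G.kN
  have hk0 : 400 ≤ k := by
    have h2 : 2 ^ 2 ≤ (N + 2) ^ 2 := Nat.pow_le_pow_left (by omega) 2
    omega
  have hk0' : (400 : ℝ) ≤ k := by exact_mod_cast hk0
  have njN : (n : ℝ) * j ≤ N * N := by exact_mod_cast Nat.mul_le_mul nN jN
  have j0 : (0 : ℝ) ≤ j := by positivity
  have n0 : (0 : ℝ) ≤ n := by positivity
  have hbk : b ≤ k - 1 := by omega
  have hbk' : (b : ℝ) + 1 ≤ k := by
    have : b + 1 ≤ k := by omega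
    exact_mod_cast this
  have gb0 : 1 ≤ b → (k : ℝ) + 1 - μ ≤ gg k μ b := fun hb =>
    G.g1 b (by exact_mod_cast hb) (by linarith)
  rcases Nat.eq_zero_or_pos c with hc | hc
  · subst hc
    have he : e = 0 := by omega
    have hn : n = 0 := by omega
    subst he hn
    have h1 := gb0 (by omega)
    have hM : M ≤ 0 := by simpa using hM1
    simp only [Nat.cast_zero, S1_gg0]
    linarith
  · -- the part with `b`
    have hB : 0 ≤ gg k μ b - 2 * e * ((b : ℝ) - j) - 2 * n * j := by
      rcases Nat.eq_zero_or_pos b with hb | hb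
      · subst hb
        have hj : j = 0 := by omega
        subst hj
        simp [S1_gg0]
      · have hb' : (1 : ℝ) ≤ b := by exact_mod_cast hb
        have hlow : (b : ℝ) ≤ (k : ℝ) - 2 ∨ (b : ℝ) = (k : ℝ) - 1 := by
          rcases Nat.lt_or_ge b (k - 1) with h2 | h2
          · left
            have h3 : b + 2 ≤ k := by omega
            have : (b : ℝ) + 2 ≤ k := by exact_mod_cast h3
            linarith
          · right
            have h3 : b + 1 = k := by omega
            have : (b : ℝ) + 1 = k := by exact_mod_cast h3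
            linarith
        rcases Nat.eq_zero_or_pos e with he | he
        · subst he
          have h1 := gb0 hb
          simp only [Nat.cast_zero]
          nlinarith
        · have he1 : e = 1 := by omega
          subst he1
          have h4 := S1_low G hb' hlow
          simp only [Nat.cast_one]
          rw [S1_gg k μ b]
          nlinarith
    -- the part with `c`
    have hc' : (1 : ℝ) ≤ c := by exact_mod_cast hc
    have hC : (k : ℝ) - 1 - μ ≤ gg k μ c + 2 * e * n - M := by
      have en0 : (0 : ℝ) ≤ e * n := by positivity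
      by_cases h2 : 2 * c ≤ k + 1
      · have h3 : c + 2 ≤ k := by omega
        have h3' : (c : ℝ) + 2 ≤ k := by exact_mod_cast h3
        have h4 := G.g4 c hc' (by linarith)
        rw [S1_gg k μ c]
        nlinarith
      · have h2' : (k : ℝ) + 1 ≤ 2 * c := by
          have : k + 1 ≤ 2 * c := by omega
          exact_mod_cast this
        rcases Nat.lt_or_ge (c + 1) k with h3 | h3
        · have h3' : (c : ℝ) + 2 ≤ k := by exact_mod_cast h3
          have hc2 : (2 : ℝ) ≤ c := by
            have : 2 ≤ c := by omega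
            exact_mod_cast this
          have h4 := G.g5 c hc2 (by linarith)
          rw [S1_gg k μ c]
          nlinarith
        · rcases Nat.lt_or_ge c k with h4 | h4
          · have h5 : (c : ℝ) = (k : ℝ) - 1 := by
              have h6 : c + 1 = k := by omega
              have : (c : ℝ) + 1 = k := by exact_mod_cast h6
              linarith
            have h6 := S1_low G hc' (Or.inr h5)
            rw [S1_gg k μ c]
            nlinarith
          · have hck : c = k := by omega
            have he : e = 1 := by omega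
            have hn : n = N := by omega
            subst he hn hck
            rw [G.g3]
            push_cast
            nlinarith
    nlinarith

/-- S1: one flag -/
theorem thm_S1 (hGB : BKU.St_GB) : St_S1 := by
  intro h N h1 hN
  refine ⟨100 * (N + 2) ^ 2, ?_⟩
  intro k hk b1 b2 c1 c2 j e n pB qB pC qC P pos hf
  have hk' : 100 * (h + 2) ^ 2 ≤ k := by
    refine le_trans ?_ hk
    have : (h + 2) ^ 2 ≤ (N + 2) ^ 2 := Nat.pow_le_pow_left (by omega) 2
    omega
  obtain ⟨a1, a2, -, a4, a5, a6, a7, a8, a9⟩ := hGB k h h1 hk'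
  have G : S1G k h N (mu k h) := ⟨h1, hN, hk, a1, a2, a4, a5, a6, a7, a8, a9⟩
  have Q : S1P k N (b1 + b2) (c1 + c2) j e n :=
    ⟨P.jN, P.jb, P.bj, P.e1, P.nN, P.en, P.cc, by omega⟩
  have k1 : 2 * (b1 : ℝ) ≤ k := by exact_mod_cast P.hb1
  have k2 : 2 * (b2 : ℝ) ≤ k := by exact_mod_cast P.hb2
  have k3 : 2 * (c1 : ℝ) ≤ k := by exact_mod_cast P.hc1
  have k4 : 2 * (c2 : ℝ) ≤ k + 1 := by exact_mod_cast P.hc2
  have p1 : (0 : ℝ) ≤ b1 := by positivity
  have p2 : (0 : ℝ) ≤ b2 := by positivity
  have p3 : (0 : ℝ) ≤ c1 := by positivity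
  have p4 : (0 : ℝ) ≤ c2 := by positivity
  have p5 : (0 : ℝ) ≤ e := by positivity
  unfold SV
  have hcase : (pB = 1 ∧ qB = 0 ∧ pC = 0 ∧ qC = 0) ∨ (pB = 0 ∧ qB = 1 ∧ pC = 0 ∧ qC = 0) ∨
      (pB = 0 ∧ qB = 0 ∧ pC = 1 ∧ qC = 0) ∨ (pB = 0 ∧ qB = 0 ∧ pC = 0 ∧ qC = 1) := by omega
  rcases hcase with ⟨rfl, rfl, rfl, rfl⟩ | ⟨rfl, rfl, rfl, rfl⟩ | ⟨rfl, rfl, rfl, rfl⟩ |
    ⟨rfl, rfl, rfl, rfl⟩
  · have := S1_B G Q (M := 2 * b1) (by push_cast; linarith) k1
    push_cast at this ⊢
    linarith
  · have := S1_B G Q (M := 2 * b2) (by push_cast; linarith) k2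
    push_cast at this ⊢
    linarith
  · have := S1_C G Q (M := 2 * c1) (by push_cast; linarith) (by linarith)
    push_cast at this ⊢
    linarith
  · have := S1_C G Q (M := 2 * c2) (by push_cast; linarith) k4
    push_cast at this ⊢
    linarith

end Pool.Agent.UBX
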