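import Pool.Agent.UBX.St

/-!
# Campaign UBX, module S2: a pair with at least two flags, all on one side (helper62)
-/

set_option autoImplicit false

namespace Pool.Agent.UBX

open Pool.Agent.BKU

private theorem S2_quad {x A : ℝ} (h1 : 1 ≤ x) (h2 : x + 1 ≤ A) : A - 1 ≤ x * (A - x) := by
  nlinarith [mul_nonneg (sub_nonneg.2 h1) (sub_nonneg.2 h2)]

private theorem S2_end {k h : ℕ} {m x : ℝ} (hm : 0 < m) (hmu : m * ((k : ℝ) - 2) = 2 * h)
    (h3 : 3 ≤ x) (hx : x ≤ (k : ℝ) - 1) : 3 * (k : ℝ) - 3 - 2 * h - m ≤ gg k m x := by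
  unfold gg
  have h1 : 0 ≤ ((k : ℝ) - 1 - x) * (x - 3 + m) :=
    mul_nonneg (by linarith) (by linarith)
  have e : x * ((k : ℝ) + 2 - x - m) = ((k : ℝ) - 1 - x) * (x - 3 + m) +
      (3 * (k : ℝ) - 3 - 2 * h - m) + (2 * h - m * ((k : ℝ) - 2)) := by ring
  rw [e]
  linarith

theorem thm_S2 (hGB : BKU.St_GB) : St_S2 := by
  intro h N φ hh hN
  refine ⟨100 * (h + 2) ^ 2 + 10 * (N + φ + h + 2) ^ 2, ?_⟩
  intro k hk b1 b2 c1 c2 j e n p q hP h1 hf2 hfφ
  obtain ⟨hm0, hm8, hmu, g1, g2, gk, q1, q2, qk⟩ := hGB k h hh (by omega)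
  obtain ⟨hjN, hjb, hbj, he1, hnN, hen, hcc, hb1, hb2, hc1, hc2⟩ := hP
  obtain ⟨m, hm⟩ : ∃ m, m = mu k h := ⟨_, rfl⟩
  rw [← hm] at hm0 hm8 hmu g1 g2 gk q1 q2 qk ⊢
  -- the size of k
  have hkb : 2 * (N : ℝ) ^ 2 + 10 * N + 10 * φ + 10 * h + 20 ≤ (k : ℝ) := by
    have h2 : ((100 * (h + 2) ^ 2 + 10 * (N + φ + h + 2) ^ 2 : ℕ) : ℝ) ≤ k := by exact_mod_cast hk
    push_cast at h2
    have hN0 : (0 : ℝ) ≤ N := Nat.cast_nonneg N
    have hφ0 : (0 : ℝ) ≤ φ := Nat.cast_nonneg φ
    have hh0 : (0 : ℝ) ≤ h := Nat.cast_nonneg h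
    linarith [mul_nonneg hN0 hφ0, mul_nonneg hN0 hh0, mul_nonneg hφ0 hh0, sq_nonneg (φ : ℝ),
      sq_nonneg (h : ℝ), sq_nonneg (N : ℝ), sq_nonneg ((h : ℝ) + 2)]
  have hN0 : (0 : ℝ) ≤ N := Nat.cast_nonneg N
  have hNh : (h : ℝ) + 1 ≤ N := by exact_mod_cast hN
  have hh0 : (1 : ℝ) ≤ h := by exact_mod_cast hh
  have hN2 : 0 ≤ (N : ℝ) ^ 2 := sq_nonneg _
  have hp0 : (0 : ℝ) ≤ p := Nat.cast_nonneg p
  have hq0 : (0 : ℝ) ≤ q := Nat.cast_nonneg q
  -- the number of flags
  obtain ⟨f, hf⟩ : ∃ f : ℝ, f = (p : ℝ) + q := ⟨_, rfl⟩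
  rw [← hf]
  have hf2' : 2 ≤ f := by
    rw [hf]
    exact_mod_cast hf2
  have hfφ' : f ≤ φ := by
    rw [hf]
    exact_mod_cast hfφ
  have hk0 : (0 : ℝ) ≤ k := Nat.cast_nonneg k
  have hfk : 2 * (k : ℝ) ≤ f * k := mul_le_mul_of_nonneg_right hf2' hk0
  -- the numbers as reals
  obtain ⟨b, hb⟩ : ∃ b : ℝ, b = (b1 : ℝ) + b2 := ⟨_, rfl⟩
  obtain ⟨c, hc⟩ : ∃ c : ℝ, c = (c1 : ℝ) + c2 := ⟨_, rfl⟩
  have hb10 : (0 : ℝ) ≤ b1 := Nat.cast_nonneg b1
  have hb20 : (0 : ℝ) ≤ b2 := Nat.cast_nonneg b2
  have hc10 : (0 : ℝ) ≤ c1 := Nat.cast_nonneg c1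
  have hc20 : (0 : ℝ) ≤ c2 := Nat.cast_nonneg c2
  have hb1' : 2 * (b1 : ℝ) ≤ k := by exact_mod_cast hb1
  have hb2' : 2 * (b2 : ℝ) ≤ k := by exact_mod_cast hb2
  have hc1' : 2 * (c1 : ℝ) ≤ k := by exact_mod_cast hc1
  have hc2' : 2 * (c2 : ℝ) ≤ k + 1 := by exact_mod_cast hc2
  have hj0 : (0 : ℝ) ≤ j := Nat.cast_nonneg j
  have hjN' : (j : ℝ) ≤ N := by exact_mod_cast hjN
  have hn0 : (0 : ℝ) ≤ n := Nat.cast_nonneg n
  have hnN' : (n : ℝ) ≤ N := by exact_mod_cast hnN
  have hnj0 : 0 ≤ (n : ℝ) * j := mul_nonneg hn0 hj0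
  have hnj : (n : ℝ) * j ≤ (N : ℝ) ^ 2 := by
    rw [pow_two]
    exact mul_le_mul hnN' hjN' hj0 hN0
  have hbk : b ≤ (k : ℝ) - 1 := by
    have h2 : b1 + b2 + 1 ≤ k := by omega
    have h3 : ((b1 + b2 + 1 : ℕ) : ℝ) ≤ k := by exact_mod_cast h2
    push_cast at h3
    linarith
  -- costs
  have cB1 : 2 * ((p : ℝ) * b1 + q * b2) ≤ f * (2 * b) := by
    rw [hf, hb]
    linarith [mul_nonneg hp0 hb20, mul_nonneg hq0 hb10]
  have cB2 : 2 * ((p : ℝ) * b1 + q * b2) ≤ f * k := by
    rw [hf]
    linarith [mul_le_mul_of_nonneg_left hb1' hp0, mul_le_mul_of_nonneg_left hb2' hq0]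
  have cC1 : 2 * ((p : ℝ) * c1 + q * c2) ≤ f * (2 * c) := by
    rw [hf, hc]
    linarith [mul_nonneg hp0 hc20, mul_nonneg hq0 hc10]
  have cC2 : 2 * ((p : ℝ) * c1 + q * c2) ≤ f * k + f := by
    rw [hf]
    linarith [mul_le_mul_of_nonneg_left hc1' hp0, mul_le_mul_of_nonneg_left hc2' hq0]
  have hpf : (p : ℝ) ≤ f := by linarith
  -- values of g
  have hg0 : gg k m 0 = 0 := by unfold gg; simp
  have hgb : gg k m b = b * (k - b - m) + 2 * b := by unfold gg; ring
  have hqb : 1 ≤ b → (k : ℝ) - 1 - 2 * h - m ≤ b * (k - b - m) := by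
    intro h2
    have h3 : (b : ℝ) ≤ (k : ℝ) - 2 ∨ b = (k : ℝ) - 1 := by
      have h4 : b1 + b2 + 2 ≤ k ∨ b1 + b2 + 1 = k := by omega
      rcases h4 with h4 | h4
      · left
        have h5 : ((b1 + b2 + 2 : ℕ) : ℝ) ≤ k := by exact_mod_cast h4
        push_cast at h5
        linarith
      · right
        have h5 : ((b1 + b2 + 1 : ℕ) : ℝ) = k := by exact_mod_cast h4
        push_cast at h5
        linarith
    rcases h3 with h3 | h3
    · have := q1 b h2 h3
      linarith
    · have h6 : b * ((k : ℝ) - b - m) = (k : ℝ) - 1 - 2 * h - m := by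
        rw [h3]
        linear_combination qk
      linarith
  -- small numbers are natural numbers
  have hb01 : (b1 + b2 = 0 ∧ b = 0 ∧ (j : ℝ) = 0) ∨ 1 ≤ b := by
    rcases Nat.eq_zero_or_pos (b1 + b2) with h2 | h2
    · left
      have h3 : b1 = 0 := by omega
      have h4 : b2 = 0 := by omega
      have h5 : j = 0 := by omega
      refine ⟨h2, ?_, ?_⟩
      · rw [hb, h3, h4]
        simp
      · rw [h5]
        simp
    · right
      have h3 : ((1 : ℕ) : ℝ) ≤ ((b1 + b2 : ℕ) : ℝ) := by exact_mod_cast h2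
      push_cast at h3
      linarith
  have hφ00 : (0 : ℝ) ≤ φ := Nat.cast_nonneg φ
  have hlarge : (k : ℝ) - 1 ≥ 3 := by linarith
  constructor
  · -- the side B
    have hSV : SV k m b1 b2 c1 c2 j e n p q 0 0 = gg k m b + gg k m c + 2 * e * n -
        2 * e * (b - j) - 2 * n * j - 2 * ((p : ℝ) * b1 + q * b2) - 2 * (p : ℝ) * e := by
      unfold SV
      rw [hb, hc]
      push_cast
      ring
    rw [hSV]
    rcases hb01 with ⟨hB0, hb0, hj00⟩ | hb1r
    · -- b = 0
      have h2 : 2 * ((p : ℝ) * b1 + q * b2) ≤ 0 := by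
        rw [hb0] at cB1
        linarith
      have hc1n : 1 ≤ c1 + c2 := by omega
      have hc1r : 1 ≤ c := by
        have h3 : ((1 : ℕ) : ℝ) ≤ ((c1 + c2 : ℕ) : ℝ) := by exact_mod_cast hc1n
        push_cast at h3
        linarith
      have he1' : (e : ℝ) ≤ 1 := by exact_mod_cast he1
      have he0 : (0 : ℝ) ≤ e := Nat.cast_nonneg e
      have hpe : (p : ℝ) * e ≤ f := by nlinarith
      have hen0 : 0 ≤ (e : ℝ) * n := mul_nonneg he0 hn0
      have hT : (k : ℝ) + 1 - m ≤ gg k m c + 2 * (e * n) := by
        rcases Nat.lt_or_ge (c1 + c2) k with h3 | h3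
        · have h4 : c ≤ (k : ℝ) - 1 := by
            have h5 : ((c1 + c2 + 1 : ℕ) : ℝ) ≤ k := by exact_mod_cast h3
            push_cast at h5
            linarith
          have := g1 c hc1r h4
          linarith
        · have h4 : e = 1 := by omega
          have h5 : n = N := by omega
          have h6 : c1 + c2 = k := by omega
          have h7 : c = k := by
            rw [hc]
            exact_mod_cast h6
          rw [h7, gk, h4, h5]
          push_cast
          linarith
      rw [hb0, hg0, hj00]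
      linarith
    · -- b ≥ 1
      -- the two ranges of b
      have hrange : ((k : ℝ) ≤ 2 * b ∧ 3 * (k : ℝ) - 3 - 2 * h - m ≤ gg k m b) ∨
          (2 * b ≤ k) := by
        rcases le_total (k : ℝ) (2 * b) with h2 | h2
        · left
          refine ⟨h2, S2_end hm0 hmu ?_ hbk⟩
          linarith
        · right
          exact h2
      rcases Nat.eq_zero_or_pos e with he | he
      · -- e = 0
        subst he
        have hck : c1 + c2 + 1 ≤ k := by omega
        have hc0 : 0 ≤ gg k m c := by
          unfold gg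
          have h3 : c ≤ (k : ℝ) - 1 := by
            have h5 : ((c1 + c2 + 1 : ℕ) : ℝ) ≤ k := by exact_mod_cast hck
            push_cast at h5
            linarith
          exact mul_nonneg (by linarith) (by linarith)
        push_cast
        rcases hrange with ⟨h2, h3⟩ | h2
        · linarith
        · have h3 := S2_quad (x := b) (A := (k : ℝ) + 2 - m - 2 * f) hb1r (by linarith)
          have h4 : gg k m b - f * (2 * b) = b * ((k : ℝ) + 2 - m - 2 * f - b) := by
            unfold gg
            ring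
          linarith
      · have he' : e = 1 := by omega
        subst he'
        push_cast
        rcases Nat.eq_zero_or_pos n with hn | hn
        · -- n = 0
          subst hn
          have hck : c1 + c2 + 1 ≤ k := by omega
          have hc1n : 1 ≤ c1 + c2 := by omega
          have hc1r : 1 ≤ c := by
            have h3 : ((1 : ℕ) : ℝ) ≤ ((c1 + c2 : ℕ) : ℝ) := by exact_mod_cast hc1n
            push_cast at h3
            linarith
          have h4 : c ≤ (k : ℝ) - 1 := by
            have h5 : ((c1 + c2 + 1 : ℕ) : ℝ) ≤ k := by exact_mod_cast hck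
            push_cast at h5
            linarith
          have hgc := g1 c hc1r h4
          push_cast
          rw [hgb]
          rcases hrange with ⟨h2, -⟩ | h2
          · have h6 : b1 + b2 + 2 ≤ k ∨ b1 + b2 + 1 = k := by
              have : b1 + b2 + 1 ≤ k := by omega
              omega
            rcases h6 with h6 | h6
            · have h7 : b ≤ (k : ℝ) - 2 := by
                have h8 : ((b1 + b2 + 2 : ℕ) : ℝ) ≤ k := by exact_mod_cast h6
                push_cast at h8
                linarith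
              have h9 := q2 b (by linarith) h7
              linarith
            · have h7 : b = (k : ℝ) - 1 := by
                have h8 : ((b1 + b2 + 1 : ℕ) : ℝ) = k := by exact_mod_cast h6
                push_cast at h8
                linarith
              have hjN2 : j = N := by omega
              have hjN3 : (j : ℝ) = N := by exact_mod_cast hjN2
              have h9 : b * ((k : ℝ) - b - m) = (k : ℝ) - 1 - 2 * h - m := by
                rw [h7]
                linear_combination qk
              rw [h9, hjN3]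
              linarith
          · have h3 := S2_quad (x := b) (A := (k : ℝ) - m - 2 * f) hb1r (by linarith)
            have h4' : b * ((k : ℝ) - b - m) - f * (2 * b) = b * ((k : ℝ) - m - 2 * f - b) := by
              ring
            linarith
        · -- n ≥ 1
          have hgc : 2 * (k : ℝ) - 2 * m ≤ gg k m c + 2 * n := by
            have hc2n : 2 ≤ c1 + c2 := by omega
            have hc2r : 2 ≤ c := by
              have h3 : ((2 : ℕ) : ℝ) ≤ ((c1 + c2 : ℕ) : ℝ) := by exact_mod_cast hc2n
              push_cast at h3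
              linarith
            rcases Nat.lt_or_ge (c1 + c2) k with h3 | h3
            · have h4 : c ≤ (k : ℝ) - 1 := by
                have h5 : ((c1 + c2 + 1 : ℕ) : ℝ) ≤ k := by exact_mod_cast h3
                push_cast at h5
                linarith
              have := g2 c hc2r h4
              linarith
            · have h5 : n = N := by omega
              have h6 : c1 + c2 = k := by omega
              have h7 : c = k := by
                rw [hc]
                exact_mod_cast h6
              rw [h7, gk, h5]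
              linarith
          rw [hgb]
          rcases hrange with ⟨h2, -⟩ | h2
          · have h9 := hqb hb1r
            linarith
          · have h3 := S2_quad (x := b) (A := (k : ℝ) - m - 2 * f) hb1r (by linarith)
            have h4' : b * ((k : ℝ) - b - m) - f * (2 * b) = b * ((k : ℝ) - m - 2 * f - b) := by
              ring
            linarith
  · -- the side C
    have hSV : SV k m b1 b2 c1 c2 j e n 0 0 p q = gg k m b + gg k m c + 2 * e * n -
        2 * e * (b - j) - 2 * n * j - 2 * ((p : ℝ) * c1 + q * c2) := by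
      unfold SV
      rw [hb, hc]
      push_cast
      ring
    rw [hSV]
    rcases Nat.eq_zero_or_pos (c1 + c2) with hc0 | hc0
    · have he0 : e = 0 := by omega
      have hn00 : n = 0 := by omega
      have hc10' : c1 = 0 := by omega
      have hc20' : c2 = 0 := by omega
      have hcz : c = 0 := by rw [hc, hc10', hc20']; simp
      have hb1r : 1 ≤ b := by
        rcases hb01 with ⟨h2, -, -⟩ | h2
        · omega
        · exact h2
      have := g1 b hb1r hbk
      rw [he0, hn00, hcz, hg0, hc10', hc20']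
      push_cast
      linarith
    · have hc1r : 1 ≤ c := by
        have h3 : ((1 : ℕ) : ℝ) ≤ ((c1 + c2 : ℕ) : ℝ) := by exact_mod_cast hc0
        push_cast at h3
        linarith
      have he1' : (e : ℝ) ≤ 1 := by exact_mod_cast he1
      have he0 : (0 : ℝ) ≤ e := Nat.cast_nonneg e
      have hen0 : 0 ≤ (e : ℝ) * n := mul_nonneg he0 hn0
      have hW : 0 ≤ gg k m b - 2 * e * (b - j) - 2 * n * j := by
        rcases hb01 with ⟨-, hb0, hj00⟩ | hb1r
        · rw [hb0, hg0, hj00]
          simp
        · have h9 := hqb hb1r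
          rw [hgb]
          have h5 : (e : ℝ) * (b - j) ≤ b := by
            have hjb' : (j : ℝ) ≤ b := by
              rw [hb]
              exact_mod_cast hjb
            nlinarith
          linarith
      rcases Nat.lt_or_ge (c1 + c2) k with h3 | h3
      · have h4 : c ≤ (k : ℝ) - 1 := by
          have h5 : ((c1 + c2 + 1 : ℕ) : ℝ) ≤ k := by exact_mod_cast h3
          push_cast at h5
          linarith
        rcases le_total ((k : ℝ) + 1) (2 * c) with h5 | h5
        · have h6 := S2_end (k := k) (h := h) hm0 hmu (show 3 ≤ c by linarith) h4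
          linarith
        · have h6 := S2_quad (x := c) (A := (k : ℝ) + 2 - m - 2 * f) hc1r (by linarith)
          have h7 : gg k m c - f * (2 * c) = c * ((k : ℝ) + 2 - m - 2 * f - c) := by
            unfold gg
            ring
          linarith
      · have h4 : e = 1 := by omega
        have h5 : n = N := by omega
        have h6 : c1 + c2 = k := by omega
        have h7 : c = k := by
          rw [hc]
          exact_mod_cast h6
        have hgk : gg k m c = 2 * k - 2 * h - 2 * m := by rw [h7, gk]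
        have hee : (e : ℝ) = 1 := by rw [h4]; simp
        have hnn : (n : ℝ) = N := by rw [h5]
        have h8 : 2 * (e : ℝ) * n = 2 * N := by rw [hee, hnn]; ring
        linarith

end Pool.Agent.UBX
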