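import Pool.Agent.UBX.St

/-!
# UBX, S3: a pair with flags on both sides (helper72)
-/

set_option autoImplicit false

open Finset

namespace Pool.Agent.UBX

open Pool.Agent.BKU

/-- concave function, left part -/
private theorem S3_left {A b : ℝ} (h1 : 1 ≤ b) (h2 : 0 ≤ A - b - 1) : A - 1 ≤ b * (A - b) := by
  have h3 : 0 ≤ (b - 1) * (A - b - 1) := mul_nonneg (by linarith) h2
  nlinarith

private theorem S3_B {k b f h μ φ x : ℝ} (h0 : 0 ≤ h) (hμ0 : 0 < μ) (hμ1 : μ ≤ 1 / 8)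
    (hμ : μ * (k - 2) = 2 * h) (hk : 8 * φ + 40 ≤ k) (hf : 1 ≤ f) (hfφ : f ≤ φ) (hb : 1 ≤ b)
    (hbk : b ≤ k - 1) (hx1 : x ≤ f * (2 * b)) (hx2 : x ≤ f * k) :
    (1 - f) * k - (2 + 2 * h + 2 * φ) ≤ b * (k - b - μ) - x ∧
      (2 - f) * k - (2 + 2 * h + 2 * φ) ≤ b * (k - b - μ) + 2 * b - x := by
  have hk0 : 0 < k := by linarith
  rcases le_total (2 * b) k with hc | hc
  · have h1 := S3_left (A := k - μ - 2 * f) (b := b) hb (by linarith)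
    have h2 : k ≤ f * k := by nlinarith
    constructor
    · nlinarith
    · nlinarith
  · have h1 : 0 ≤ (k - 1 - b) * (b - 1 + μ) := mul_nonneg (by linarith) (by linarith)
    have h2 : (k - 1) * (1 - μ) ≤ b * (k - b - μ) := by nlinarith
    have h3 : (k - 1) * (1 - μ) = k - 1 - 2 * h - μ := by linarith
    constructor
    · linarith
    · linarith

private theorem S3_C {k c g h μ φ y : ℝ} (hμ0 : 0 < μ) (hμ1 : μ ≤ 1 / 8)
    (hμ : μ * (k - 2) = 2 * h) (hk : 8 * φ + 40 ≤ k) (hg : 1 ≤ g) (hgφ : g ≤ φ) (hc1 : 1 ≤ c)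
    (hck : c ≤ k) (h0 : 0 ≤ h) (hy1 : y ≤ g * (2 * c)) (hy2 : y ≤ g * (k + 1)) :
    (2 - g) * k - (2 + 2 * h + 2 * φ) ≤ c * (k + 2 - c - μ) - y := by
  have hk0 : 0 < k := by linarith
  rcases le_total (2 * c) (k + 1) with hc | hc
  · have h1 := S3_left (A := k + 2 - μ - 2 * g) (b := c) hc1 (by linarith)
    have h2 : k ≤ g * k := by nlinarith
    nlinarith
  · have h1 : 0 ≤ (k - c) * (c - 2 + μ) := mul_nonneg (by linarith) (by linarith)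
    have h2 : k * (2 - μ) ≤ c * (k + 2 - c - μ) := by nlinarith
    have h3 : k * (2 - μ) = 2 * k - 2 * h - 2 * μ := by linarith
    linarith

theorem thm_S3 (hGB : BKU.St_GB) : St_S3 := by
  intro h N φ hh hN
  refine ⟨10 * ((N : ℝ) + φ + h + 2) ^ 2, 100 * (N + φ + h + 2) ^ 2, ?_, ?_⟩
  · have h1 : (2 : ℝ) ≤ (N : ℝ) + φ + h + 2 := by linarith [Nat.cast_nonneg (α := ℝ) N, Nat.cast_nonneg (α := ℝ) φ, Nat.cast_nonneg (α := ℝ) h]
    nlinarith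
  intro k hk b1 b2 c1 c2 j e n pB qB pC qC hP hs hf1 hf2 hg1 hg2
  obtain ⟨jN, jb, bj, e1, nN, en, cc, hb1, hb2, hc1, hc2⟩ := hP
  have hk1 : 100 * (h + 2) ^ 2 ≤ k := by
    refine le_trans (Nat.mul_le_mul_left _ (Nat.pow_le_pow_left ?_ 2)) hk
    omega
  obtain ⟨hμ0, hμ1, hμ, -⟩ := hGB k h hh hk1
  generalize mu k h = μ at hμ0 hμ1 hμ ⊢
  -- everything as real numbers
  have hkR : (100 : ℝ) * ((N : ℝ) + φ + h + 2) ^ 2 ≤ k := by exact_mod_cast hk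
  have N0 : (0 : ℝ) ≤ N := Nat.cast_nonneg _
  have φ0 : (0 : ℝ) ≤ φ := Nat.cast_nonneg _
  have h0 : (0 : ℝ) ≤ h := Nat.cast_nonneg _
  have b10 : (0 : ℝ) ≤ b1 := Nat.cast_nonneg _
  have b20 : (0 : ℝ) ≤ b2 := Nat.cast_nonneg _
  have c10 : (0 : ℝ) ≤ c1 := Nat.cast_nonneg _
  have c20 : (0 : ℝ) ≤ c2 := Nat.cast_nonneg _
  have j0 : (0 : ℝ) ≤ j := Nat.cast_nonneg _
  have e0 : (0 : ℝ) ≤ e := Nat.cast_nonneg _
  have n0 : (0 : ℝ) ≤ n := Nat.cast_nonneg _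
  have pB0 : (0 : ℝ) ≤ pB := Nat.cast_nonneg _
  have qB0 : (0 : ℝ) ≤ qB := Nat.cast_nonneg _
  have pC0 : (0 : ℝ) ≤ pC := Nat.cast_nonneg _
  have qC0 : (0 : ℝ) ≤ qC := Nat.cast_nonneg _
  have e1' : (e : ℝ) ≤ 1 := by exact_mod_cast e1
  have nN' : (n : ℝ) ≤ N := by exact_mod_cast nN
  have jN' : (j : ℝ) ≤ N := by exact_mod_cast jN
  have jb' : (j : ℝ) ≤ (b1 : ℝ) + b2 := by exact_mod_cast jb
  have hb1' : 2 * (b1 : ℝ) ≤ k := by exact_mod_cast hb1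
  have hb2' : 2 * (b2 : ℝ) ≤ k := by exact_mod_cast hb2
  have hc1' : 2 * (c1 : ℝ) ≤ k := by exact_mod_cast hc1
  have hc2' : 2 * (c2 : ℝ) ≤ (k : ℝ) + 1 := by exact_mod_cast hc2
  have hf1' : (1 : ℝ) ≤ (pB : ℝ) + qB := by exact_mod_cast hf1
  have hf2' : (pB : ℝ) + qB ≤ φ := by exact_mod_cast hf2
  have hg1' : (1 : ℝ) ≤ (pC : ℝ) + qC := by exact_mod_cast hg1
  have hg2' : (pC : ℝ) + qC ≤ φ := by exact_mod_cast hg2
  have hbk : (b1 : ℝ) + b2 ≤ (k : ℝ) - 1 := by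
    have h1 : b1 + b2 + 1 ≤ k := by omega
    have h2 : (b1 : ℝ) + b2 + 1 ≤ k := by exact_mod_cast h1
    linarith
  have hck : (c1 : ℝ) + c2 ≤ k := by
    have h1 : c1 + c2 ≤ k := by omega
    exact_mod_cast h1
  obtain ⟨M, hM⟩ : ∃ M : ℝ, M = (N : ℝ) + φ + h + 2 := ⟨_, rfl⟩
  rw [← hM] at hkR ⊢
  have hM2 : 2 ≤ M := by linarith
  have hMM : 2 * M ≤ M ^ 2 := by
    rw [pow_two]
    exact mul_le_mul_of_nonneg_right hM2 (by linarith)
  have hkφ : 8 * (φ : ℝ) + 40 ≤ k := by linarith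
  have hNM : 2 * (N : ℝ) * N ≤ 2 * M ^ 2 := by
    have h1 : (N : ℝ) * N ≤ M * M := mul_le_mul (by linarith) (by linarith) N0 (by linarith)
    rw [pow_two]
    linarith
  -- the costs
  obtain ⟨x, hx⟩ : ∃ x : ℝ, x = 2 * ((pB : ℝ) * b1 + qB * b2) := ⟨_, rfl⟩
  obtain ⟨y, hy⟩ : ∃ y : ℝ, y = 2 * ((pC : ℝ) * c1 + qC * c2) := ⟨_, rfl⟩
  have hx1 : x ≤ ((pB : ℝ) + qB) * (2 * ((b1 : ℝ) + b2)) := by
    rw [hx]
    linarith [mul_nonneg pB0 b20, mul_nonneg qB0 b10]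
  have hx2 : x ≤ ((pB : ℝ) + qB) * k := by
    rw [hx]
    linarith [mul_le_mul_of_nonneg_left hb1' pB0, mul_le_mul_of_nonneg_left hb2' qB0]
  have hy1 : y ≤ ((pC : ℝ) + qC) * (2 * ((c1 : ℝ) + c2)) := by
    rw [hy]
    linarith [mul_nonneg pC0 c20, mul_nonneg qC0 c10]
  have hy2 : y ≤ ((pC : ℝ) + qC) * ((k : ℝ) + 1) := by
    rw [hy]
    linarith [mul_le_mul_of_nonneg_left (show 2 * (c1 : ℝ) ≤ (k : ℝ) + 1 by linarith) pC0,
      mul_le_mul_of_nonneg_left hc2' qC0]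
  have t1 : 0 ≤ 2 * (e : ℝ) * n := by positivity
  have t2 : 2 * (e : ℝ) * ((b1 : ℝ) + b2 - j) ≤ 2 * ((b1 : ℝ) + b2) := by
    have h1 : 0 ≤ (1 - (e : ℝ)) * ((b1 : ℝ) + b2 - j) := mul_nonneg (by linarith) (by linarith)
    linarith
  have t3 : 2 * (n : ℝ) * j ≤ 2 * M ^ 2 := by
    have h1 : (n : ℝ) * j ≤ N * N := mul_le_mul nN' jN' j0 N0
    linarith
  have t4 : 2 * (pB : ℝ) * e ≤ 2 * φ := by
    have h1 : (pB : ℝ) * e ≤ pB * 1 := mul_le_mul_of_nonneg_left e1' pB0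
    linarith
  have hSV : SV k μ b1 b2 c1 c2 j e n pB qB pC qC = ((b1 : ℝ) + b2) * (k + 2 - ((b1 : ℝ) + b2) - μ) +
      ((c1 : ℝ) + c2) * (k + 2 - ((c1 : ℝ) + c2) - μ) + 2 * e * n - 2 * e * ((b1 : ℝ) + b2 - j) -
      2 * n * j - x - 2 * (pB : ℝ) * e - y := by
    rw [hx, hy]
    unfold SV gg
    ring
  rw [hSV]
  have hk0 : (0 : ℝ) < k := by linarith
  have hφM : (φ : ℝ) ≤ M := by linarith
  have hhM : (h : ℝ) ≤ M := by linarith
  rcases Nat.eq_zero_or_pos (b1 + b2) with hb | hb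
  · -- no vertices on the left side
    have hb1z : b1 = 0 := by omega
    have hb2z : b2 = 0 := by omega
    have hjz : j = 0 := by omega
    have hcp : (1 : ℝ) ≤ (c1 : ℝ) + c2 := by
      have h1 : 1 ≤ c1 + c2 := by omega
      exact_mod_cast h1
    have hC := S3_C (φ := φ) hμ0 hμ1 hμ hkφ hg1' hg2' hcp hck h0 hy1 hy2
    have hxz : x = 0 := by rw [hx, hb1z, hb2z]; simp
    rw [hb1z, hb2z, hjz, hxz]
    have h3 : 1 * (k : ℝ) ≤ ((pB : ℝ) + qB) * k := mul_le_mul_of_nonneg_right hf1' hk0.le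
    simp only [Nat.cast_zero, add_zero, zero_mul, sub_zero, mul_zero, zero_add]
    linarith
  · have hbp : (1 : ℝ) ≤ (b1 : ℝ) + b2 := by exact_mod_cast hb
    have hB := S3_B (φ := φ) h0 hμ0 hμ1 hμ hkφ hf1' hf2' hbp hbk hx1 hx2
    rcases Nat.eq_zero_or_pos (c1 + c2) with hc | hc
    · have hc1z : c1 = 0 := by omega
      have hc2z : c2 = 0 := by omega
      have hez : e = 0 := by omega
      have hnz : n = 0 := by omega
      have hyz : y = 0 := by rw [hy, hc1z, hc2z]; simp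
      rw [hc1z, hc2z, hez, hnz, hyz]
      have h3 : 1 * (k : ℝ) ≤ ((pC : ℝ) + qC) * k := mul_le_mul_of_nonneg_right hg1' hk0.le
      simp only [Nat.cast_zero, add_zero, zero_mul, sub_zero, mul_zero]
      have hB2 := hB.2
      linarith
    · have hcp : (1 : ℝ) ≤ (c1 : ℝ) + c2 := by exact_mod_cast hc
      have hC := S3_C (φ := φ) hμ0 hμ1 hμ hkφ hg1' hg2' hcp hck h0 hy1 hy2
      have hB1 := hB.1
      linarith

end Pool.Agent.UBX
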