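import Pool.Agent.UBX.St

/-!
# Campaign UBX, module SM: the pair inequalities collected

The proof follows the docstring of `St_SM`.
-/

set_option autoImplicit false

open Finset

namespace Pool.Agent.UBX

open Pool.Agent.BKU

private theorem SM_mu (k h : ℕ) (hk : 2 * h + 3 ≤ k) : 0 ≤ mu k h ∧ mu k h ≤ 1 := by
  have h1 : (2 : ℝ) * h + 3 ≤ k := by exact_mod_cast hk
  have h0 : (0 : ℝ) ≤ h := Nat.cast_nonneg _
  have h2 : (0 : ℝ) < (k : ℝ) - 2 := by linarith
  unfold mu
  constructor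
  · positivity
  · rw [div_le_one h2]
    linarith

private theorem SM_mul (k : ℕ) (x y : ℝ) (h : x ≤ y) : x * (k : ℝ) ≤ y * k :=
  mul_le_mul_of_nonneg_right h (Nat.cast_nonneg _)

theorem thm_SM (hS0 : St_S0) (hS1 : St_S1) (hS2 : St_S2) (hS3 : St_S3) : St_SM := by
  intro h N φ hh hN
  obtain ⟨K0, h0⟩ := hS0 h N hh hN
  obtain ⟨K1, h1⟩ := hS1 h N hh hN
  obtain ⟨K2, h2⟩ := hS2 h N φ hh hN
  obtain ⟨C3, K3, hC3, h3⟩ := hS3 h N φ hh hN
  refine ⟨C3 + 2 * φ + 2 * h + 2, K0 + K1 + K2 + K3 + 2 * h + 2 * N + 3, by positivity, ?_⟩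
  intro k hk b1 b2 c1 c2 j e n pB qB pC qC f g hPN hpos hf hg hfφ hgφ
  have h0' := h0 k (by omega) b1 b2 c1 c2 j e n hPN hpos
  have h1' := h1 k (by omega) b1 b2 c1 c2 j e n pB qB pC qC hPN hpos
  have h2' := h2 k (by omega) b1 b2 c1 c2 j e n
  have h3' := h3 k (by omega) b1 b2 c1 c2 j e n pB qB pC qC hPN hpos
  obtain ⟨hm0, hm1⟩ := SM_mu k h (by omega)
  generalize mu k h = μ at *
  have hkN : 2 * (N : ℝ) + 3 ≤ k := by
    have : 2 * N + 3 ≤ k := by omega
    exact_mod_cast this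
  have hh0 : (0 : ℝ) ≤ h := Nat.cast_nonneg _
  have hφ0 : (0 : ℝ) ≤ φ := Nat.cast_nonneg _
  have hN0 : (h : ℝ) ≤ N := by
    have : h ≤ N := by omega
    exact_mod_cast this
  have hfr : ((pB : ℝ) + qB) ≤ f := by exact_mod_cast hf
  have hgr : ((pC : ℝ) + qC) ≤ g := by exact_mod_cast hg
  have hfφr : (f : ℝ) ≤ φ := by exact_mod_cast hfφ
  have hgφr : (g : ℝ) ≤ φ := by exact_mod_cast hgφ
  -- at most one flag
  have hA : pB + qB + pC + qC ≤ 1 → (k : ℝ) - 1 - μ ≤ SV k μ b1 b2 c1 c2 j e n pB qB pC qC := by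
    intro hle
    rcases Nat.lt_or_ge (pB + qB + pC + qC) 1 with h4 | h4
    · obtain ⟨rfl, rfl, rfl, rfl⟩ : pB = 0 ∧ qB = 0 ∧ pC = 0 ∧ qC = 0 := by omega
      linarith [h0'.1]
    · exact h1' (by omega)
  refine ⟨?_, ?_⟩
  · unfold LB
    by_cases c0 : f = 0 ∧ g = 0
    · rw [if_pos c0]
      obtain ⟨rfl, rfl⟩ := c0
      obtain ⟨rfl, rfl⟩ : pB = 0 ∧ qB = 0 := by omega
      obtain ⟨rfl, rfl⟩ : pC = 0 ∧ qC = 0 := by omega
      exact h0'.1
    rw [if_neg c0]
    by_cases c1' : f + g = 1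
    · rw [if_pos c1']
      exact hA (by omega)
    rw [if_neg c1']
    have hfg : 2 ≤ f + g := by omega
    have hfgr : (2 : ℝ) ≤ (f : ℝ) + g := by exact_mod_cast hfg
    by_cases c2' : f = 0 ∨ g = 0
    · rw [if_pos c2']
      by_cases c3 : pB + qB + pC + qC ≤ 1
      · have h4 := hA c3
        have h5 := SM_mul k (2 - ((f : ℝ) + g)) 0 (by linarith)
        linarith
      · rcases c2' with rfl | rfl
        · obtain ⟨rfl, rfl⟩ : pB = 0 ∧ qB = 0 := by omega
          have h6 := (h2' pC qC hPN hpos (by omega) (by omega)).2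
          have h5 := SM_mul k (2 - (((0 : ℕ) : ℝ) + g)) (2 - ((pC : ℝ) + qC)) (by
            push_cast
            linarith)
          linarith
        · obtain ⟨rfl, rfl⟩ : pC = 0 ∧ qC = 0 := by omega
          have h6 := (h2' pB qB hPN hpos (by omega) (by omega)).1
          have h5 := SM_mul k (2 - ((f : ℝ) + ((0 : ℕ) : ℝ))) (2 - ((pB : ℝ) + qB)) (by
            push_cast
            linarith)
          linarith
    · rw [if_neg c2']
      have hf1 : 1 ≤ f := by omega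
      have hg1 : 1 ≤ g := by omega
      have hf1r : (1 : ℝ) ≤ f := by exact_mod_cast hf1
      have hg1r : (1 : ℝ) ≤ g := by exact_mod_cast hg1
      by_cases c3 : pB + qB + pC + qC ≤ 1
      · have h4 := hA c3
        have h5 := SM_mul k (3 - ((f : ℝ) + g)) 1 (by linarith)
        linarith
      · by_cases c4 : pB + qB = 0
        · obtain ⟨rfl, rfl⟩ : pB = 0 ∧ qB = 0 := by omega
          have h6 := (h2' pC qC hPN hpos (by omega) (by omega)).2
          have h5 := SM_mul k (3 - ((f : ℝ) + g)) (2 - ((pC : ℝ) + qC)) (by linarith)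
          linarith
        · by_cases c5 : pC + qC = 0
          · obtain ⟨rfl, rfl⟩ : pC = 0 ∧ qC = 0 := by omega
            have h6 := (h2' pB qB hPN hpos (by omega) (by omega)).1
            have h5 := SM_mul k (3 - ((f : ℝ) + g)) (2 - ((pB : ℝ) + qB)) (by linarith)
            linarith
          · have h6 := h3' (by omega) (by omega) (by omega) (by omega)
            have h5 := SM_mul k (3 - ((f : ℝ) + g)) (3 - ((pB : ℝ) + qB) - ((pC : ℝ) + qC)) (by
              linarith)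
            linarith
  · rintro rfl rfl h4
    obtain ⟨rfl, rfl⟩ : pB = 0 ∧ qB = 0 := by omega
    obtain ⟨rfl, rfl⟩ : pC = 0 ∧ qC = 0 := by omega
    exact h0'.2 h4

end Pool.Agent.UBX
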