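import Pool.Agent.UBX.St

/-!
# Campaign UBX (MP_303581_co), module TA: the target systems with at most two groups
-/

set_option autoImplicit false

open Finset

namespace Pool.Agent.UBX

/-- the pairs of the targets -/
private def TA_pr (h : ℕ) (j l : ℕ) : ℕ := if j = 0 then l else if l = 0 then 0 else h + l - 1

/-- the sides of the targets -/
private def TA_sd (j l : ℕ) : Bool := decide (j = 0 ∨ 1 ≤ l)

private lemma TA_key (h : ℕ) (δ : ℕ) (hδ : δ ≤ 2) (j : ℕ) (hj : j < δ) (j' : ℕ) (hj' : j' < j) (l l' : ℕ) (hl' : l' < h)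
    (he : TA_pr h j' l' = TA_pr h j l) : j = 1 ∧ j' = 0 ∧ l = 0 ∧ l' = 0 := by
  have h1 : j = 1 := by omega
  have h2 : j' = 0 := by omega
  subst h1
  subst h2
  unfold TA_pr at he
  simp only [if_true, one_ne_zero, if_false] at he
  split_ifs at he with h3
  · exact ⟨rfl, rfl, h3, he⟩
  · omega

theorem thm_TA : St_TA := by
  intro δ t h hh hd
  have hδ : δ ≤ 2 := by omega
  refine ⟨TA_pr h, TA_sd, fun j => j, ?_⟩
  refine ⟨?_, ?_, ?_, ?_, ?_, ?_⟩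
  · intro j hj l hl
    unfold TA_pr
    split_ifs with h1 h2
    · omega
    · omega
    · omega
  · intro j hj l hl l' hl' he
    unfold TA_pr at he
    split_ifs at he <;> omega
  · intro j hj l hl j' hj' l' hl' he hs
    obtain ⟨h1, h2, h3, h4⟩ := TA_key h δ hδ j hj j' hj' l l' hl' he
    subst h1 h2 h3 h4
    simp [TA_sd] at hs
  · intro j hj l₁ h1 l₂ h2 l₃ h3 j₁ hj₁ j₂ hj₂ j₃ hj₃ m₁ hm₁ m₂ hm₂ m₃ hm₃ e1 e2 e3
    obtain ⟨-, -, a3, -⟩ := TA_key h δ hδ j hj j₁ hj₁ l₁ m₁ hm₁ e1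
    obtain ⟨-, -, b3, -⟩ := TA_key h δ hδ j hj j₂ hj₂ l₂ m₂ hm₂ e2
    left
    omega
  · intro j hj j' hj' l hl l' hl' he hs
    obtain ⟨h1, h2, h3, h4⟩ := TA_key h δ hδ j hj j' hj' l l' hl' he
    subst h1 h2 h3 h4
    simp [TA_sd] at hs
  · intro j hj l₁ h1 l₂ h2 hne a ha b hb la hla lb hlb e1 e2
    obtain ⟨-, -, a3, -⟩ := TA_key h δ hδ j hj a ha l₁ la hla e1
    obtain ⟨-, -, b3, -⟩ := TA_key h δ hδ j hj b hb l₂ lb hlb e2
    omega

end Pool.Agent.UBX
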