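import Pool.Agent.UBX.St

/-!
# Campaign UBX: explicit target system for `h = 2` (`thm_TC`)
-/

set_option autoImplicit false

open Finset

namespace Pool.Agent.UBX

/-- pairs of the targets -/
private def TC_pr (j l : ℕ) : ℕ :=
  if l = 0 then (if j % 3 = 0 then 0 else if j % 3 = 1 then (if j = 1 then 0 else 2)
    else 2 * (j / 3) + 1)
  else (if j % 3 = 0 then 2 * (j / 3) + 1 else 2 * (j / 3) + 2)

/-- sides of the targets -/
private def TC_sd (j l : ℕ) : Bool :=
  if j % 3 = 2 then false else if j = 1 ∧ l = 0 then false else true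

/-- classes -/
private def TC_ka (j : ℕ) : ℕ := if j % 3 = 2 then j else j % 3

/-- meeting pairs -/
private theorem TC_met {j j' l l' : ℕ} (hj : j' < j) (hl : l < 2) (hl' : l' < 2)
    (h : TC_pr j' l' = TC_pr j l) :
    (j = 1 ∧ l = 0 ∧ j' = 0 ∧ l' = 0) ∨
    (j % 3 = 0 ∧ l = 0 ∧ l' = 0 ∧ (j' % 3 = 0 ∨ j' = 1)) ∨
    (j % 3 = 1 ∧ 4 ≤ j ∧ l = 0 ∧ ((j' = 1 ∧ l' = 1) ∨ (j' = 2 ∧ l' = 1) ∨
      (j' % 3 = 1 ∧ 4 ≤ j' ∧ l' = 0))) ∨
    (j % 3 = 2 ∧ l = 0 ∧ j' + 2 = j ∧ l' = 1) ∨ (j % 3 = 2 ∧ l = 1 ∧ j' + 1 = j ∧ l' = 1) := by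
  unfold TC_pr at h
  have e1 := Nat.div_add_mod j 3
  have e2 := Nat.div_add_mod j' 3
  have b1 : j % 3 < 3 := Nat.mod_lt _ (by norm_num)
  have b2 : j' % 3 < 3 := Nat.mod_lt _ (by norm_num)
  generalize j / 3 = i at *
  generalize j % 3 = r at *
  generalize j' / 3 = i' at *
  generalize j' % 3 = r' at *
  interval_cases r <;> interval_cases r' <;> interval_cases l <;> interval_cases l' <;>
    simp only [if_true, if_false, reduceCtorEq, OfNat.ofNat_ne_zero, one_ne_zero,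
      OfNat.ofNat_ne_one, zero_ne_one] at h <;>
    (try split_ifs at h) <;> omega

private theorem TC_l0 {j j' l l' : ℕ} (hj : j' < j) (hl : l < 2) (hl' : l' < 2)
    (h : TC_pr j' l' = TC_pr j l) (h2 : j % 3 ≠ 2) : l = 0 := by
  rcases TC_met hj hl hl' h with h | h | h | h | h
  · exact h.2.1
  · exact h.2.1
  · exact h.2.2.1
  · exact h.2.1
  · exact absurd h.1 h2

private theorem TC_l2 {j j' l l' : ℕ} (hj : j' < j) (hl : l < 2) (hl' : l' < 2)
    (h : TC_pr j' l' = TC_pr j l) (h2 : j % 3 = 2) :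
    (l = 0 ∧ j' + 2 = j) ∨ (l = 1 ∧ j' + 1 = j) := by
  rcases TC_met hj hl hl' h with h | h | h | h | h
  · omega
  · omega
  · omega
  · exact Or.inl ⟨h.2.1, h.2.2.1⟩
  · exact Or.inr ⟨h.2.1, h.2.2.1⟩

private theorem TC_side {j j' l l' : ℕ} (hj : j' < j) (hl : l < 2) (hl' : l' < 2)
    (h : TC_pr j' l' = TC_pr j l) (hs : TC_sd j' l' = TC_sd j l) :
    l = 0 ∧ ((j % 3 = 0 ∧ j' % 3 = 0) ∨ (j % 3 = 1 ∧ j' % 3 = 1)) := by
  have hm := TC_met hj hl hl' h
  clear h
  unfold TC_sd at hs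
  rcases hm with h | h | h | h | h
  · rw [if_neg (by omega), if_neg (by omega), if_neg (by omega), if_pos (by omega)] at hs
    exact absurd hs (by decide)
  · rcases h.2.2.2 with h3 | h3
    · omega
    · rw [if_neg (by omega), if_pos (by omega), if_neg (by omega), if_neg (by omega)] at hs
      exact absurd hs (by decide)
  · rcases h.2.2.2 with h3 | h3 | h3
    · omega
    · rw [if_pos (by omega), if_neg (by omega), if_neg (by omega)] at hs
      exact absurd hs (by decide)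
    · omega
  · rw [if_neg (by omega), if_neg (by omega), if_pos (by omega)] at hs
    exact absurd hs (by decide)
  · rw [if_neg (by omega), if_neg (by omega), if_pos (by omega)] at hs
    exact absurd hs (by decide)

theorem thm_TC : St_TC := by
  intro δ t hδ ht
  refine ⟨TC_pr, TC_sd, TC_ka, ?_, ?_, ?_, ?_, ?_, ?_⟩
  · intro j hj l hl
    unfold TC_pr
    split_ifs <;> omega
  · intro j hj l hl l' hl' h
    by_contra hne
    rcases (show (l = 0 ∧ l' = 1) ∨ (l = 1 ∧ l' = 0) by omega) with h3 | h3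
    · rw [h3.1, h3.2] at h
      unfold TC_pr at h
      split_ifs at h <;> omega
    · rw [h3.1, h3.2] at h
      unfold TC_pr at h
      split_ifs at h <;> omega
  · intro j hj l hl j' hj' l' hl' h hs l₁ hl₁ j'' hj'' l'' hl'' h2
    have h3 := TC_side hj' hl hl' h hs
    have h4 := TC_l0 hj'' hl₁ hl'' h2 (by omega)
    omega
  · intro j hj l₁ hl₁ l₂ hl₂ l₃ hl₃ j₁ _ j₂ _ j₃ _ m₁ _ m₂ _ m₃ _ _ _ _
    omega
  · intro j hj j' hj' l hl l' hl' h hs
    have h3 := (TC_side hj' hl hl' h hs).2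
    unfold TC_ka
    rw [if_neg (by omega), if_neg (by omega)]
    omega
  · intro j hj l₁ hl₁ l₂ hl₂ hne a ha b hb la hla lb hlb h1 h2
    by_cases h5 : j % 3 = 2
    · have h3 := TC_l2 ha hl₁ hla h1 h5
      have h4 := TC_l2 hb hl₂ hlb h2 h5
      unfold TC_ka
      rw [if_neg (by omega), if_neg (by omega)]
      omega
    · exact absurd ((TC_l0 ha hl₁ hla h1 h5).trans (TC_l0 hb hl₂ hlb h2 h5).symm) hne

end Pool.Agent.UBX
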