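import Pool.Agent.UBX.St

/-!
# UBX: module TD

The explicit target system for `h = 3`.
-/

set_option autoImplicit false

namespace Pool.Agent.UBX

open Pool.Agent.BKU

/-- the pair of the target `l` of the group `j` -/
private def TD_pr (j l : ℕ) : ℕ :=
  if j = 0 then l
  else if j = 1 then (if l = 0 then 0 else l + 2)
  else if j = 2 then (if l = 0 then 1 else if l = 1 then 3 else 5)
  else if j = 3 then (if l = 0 then 2 else if l = 1 then 4 else 6)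
  else if j % 3 = 2 then (if l = 0 then 0 else 4 * (j / 3) + 3 + l)
  else if j % 3 = 0 then (if l = 0 then 4 * (j / 3) - 1 else if l = 1 then 4 * (j / 3) else 4 * (j / 3) + 2)
  else 4 * (j / 3) + 1 + l

/-- the side of the target `l` of the group `j` (`1` is `B`, `0` is `C`) -/
private def TD_sn (j l : ℕ) : ℕ :=
  if j = 0 then 1
  else if j = 1 then (if l = 0 then 0 else 1)
  else if j = 2 then (if l = 2 then 1 else 0)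
  else if j % 3 = 2 then 1
  else (if l = 2 then 1 else 0)

private def TD_k (j : ℕ) : ℕ := if j = 2 then 2 else if j % 3 = 2 then 0 else j

private def TD_W (j l : ℕ) : ℕ :=
  if j ≤ 3 then l else if j = 4 then l + 2 else if j % 3 = 0 then (if l = 0 then j - 2 else 0)
  else (if l = 0 then 0 else j - 1)

/-- all values -/
private theorem TD_v (j : ℕ) :
    (j = 0 ∧ TD_pr j 0 = 0 ∧ TD_pr j 1 = 1 ∧ TD_pr j 2 = 2 ∧ TD_sn j 0 = 1 ∧ TD_sn j 1 = 1 ∧ TD_sn j 2 = 1 ∧ TD_k j = 0) ∨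
    (j = 1 ∧ TD_pr j 0 = 0 ∧ TD_pr j 1 = 3 ∧ TD_pr j 2 = 4 ∧ TD_sn j 0 = 0 ∧ TD_sn j 1 = 1 ∧ TD_sn j 2 = 1 ∧ TD_k j = 1) ∨
    (j = 2 ∧ TD_pr j 0 = 1 ∧ TD_pr j 1 = 3 ∧ TD_pr j 2 = 5 ∧ TD_sn j 0 = 0 ∧ TD_sn j 1 = 0 ∧ TD_sn j 2 = 1 ∧ TD_k j = 2) ∨
    (j = 3 ∧ TD_pr j 0 = 2 ∧ TD_pr j 1 = 4 ∧ TD_pr j 2 = 6 ∧ TD_sn j 0 = 0 ∧ TD_sn j 1 = 0 ∧ TD_sn j 2 = 1 ∧ TD_k j = 3) ∨
    (∃ q, 1 ≤ q ∧ j = 3 * q + 2 ∧ TD_pr j 0 = 0 ∧ TD_pr j 1 = 4 * q + 4 ∧ TD_pr j 2 = 4 * q + 5 ∧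
      TD_sn j 0 = 1 ∧ TD_sn j 1 = 1 ∧ TD_sn j 2 = 1 ∧ TD_k j = 0) ∨
    (∃ q, 2 ≤ q ∧ j = 3 * q ∧ TD_pr j 0 = 4 * q - 1 ∧ TD_pr j 1 = 4 * q ∧ TD_pr j 2 = 4 * q + 2 ∧
      TD_sn j 0 = 0 ∧ TD_sn j 1 = 0 ∧ TD_sn j 2 = 1 ∧ TD_k j = j) ∨
    (∃ q, 1 ≤ q ∧ j = 3 * q + 1 ∧ TD_pr j 0 = 4 * q + 1 ∧ TD_pr j 1 = 4 * q + 2 ∧ TD_pr j 2 = 4 * q + 3 ∧
      TD_sn j 0 = 0 ∧ TD_sn j 1 = 0 ∧ TD_sn j 2 = 1 ∧ TD_k j = j) := by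
  rcases Nat.lt_or_ge j 4 with h4 | h4
  · interval_cases j <;> simp [TD_pr, TD_sn, TD_k]
  · have e0 : ¬ j = 0 := by omega
    have e1 : ¬ j = 1 := by omega
    have e2 : ¬ j = 2 := by omega
    have e3 : ¬ j = 3 := by omega
    have hq : j / 3 * 3 + j % 3 = j := by omega
    have hm : j % 3 = 0 ∨ j % 3 = 1 ∨ j % 3 = 2 := by omega
    right; right; right; right
    rcases hm with h | h | h
    · right; left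
      refine ⟨j / 3, by omega, by omega, ?_⟩
      simp only [TD_pr, TD_sn, TD_k, if_neg e0, if_neg e1, if_neg e2, if_neg e3, h]
      simp
    · right; right
      refine ⟨j / 3, by omega, by omega, ?_⟩
      simp only [TD_pr, TD_sn, TD_k, if_neg e0, if_neg e1, if_neg e2, if_neg e3, h]
      simp
    · left
      refine ⟨j / 3, by omega, by omega, ?_⟩
      simp only [TD_pr, TD_sn, TD_k, if_neg e0, if_neg e1, if_neg e2, if_neg e3, h]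
      simp

private theorem TD_Wv (j l : ℕ) :
    (j ≤ 3 ∧ TD_W j l = l) ∨ (j = 4 ∧ TD_W j l = l + 2) ∨ (5 ≤ j ∧ j % 3 = 0 ∧ l = 0 ∧ TD_W j l = j - 2) ∨
    (5 ≤ j ∧ j % 3 = 0 ∧ l ≠ 0 ∧ TD_W j l = 0) ∨ (5 ≤ j ∧ j % 3 ≠ 0 ∧ l = 0 ∧ TD_W j l = 0) ∨
    (5 ≤ j ∧ j % 3 ≠ 0 ∧ l ≠ 0 ∧ TD_W j l = j - 1) := by
  unfold TD_W
  split_ifs <;> omega

/-- which targets are met by earlier groups -/
private theorem TD_m (j j' l l' : ℕ) (hj : j' < j) (hl : l < 3) (hl' : l' < 3) (he : TD_pr j' l' = TD_pr j l) :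
    l ≤ 1 ∧ (j % 3 = 2 → 5 ≤ j → l = 0) ∧
    ((TD_sn j' l' = 1 ↔ TD_sn j l = 1) → j % 3 = 2 ∧ 5 ≤ j ∧ TD_k j' = 0) ∧
    (¬ (j % 3 = 2 ∧ 5 ≤ j) → TD_k j' = TD_W j l) := by
  have hW := TD_Wv j l
  rcases TD_v j with ⟨a0, a1, a2, a3, a4, a5, a6, a7⟩ | ⟨a0, a1, a2, a3, a4, a5, a6, a7⟩ | ⟨a0, a1, a2, a3, a4, a5, a6, a7⟩ |
      ⟨a0, a1, a2, a3, a4, a5, a6, a7⟩ | ⟨q, aq, a0, a1, a2, a3, a4, a5, a6, a7⟩ | ⟨q, aq, a0, a1, a2, a3, a4, a5, a6, a7⟩ |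
      ⟨q, aq, a0, a1, a2, a3, a4, a5, a6, a7⟩ <;>
    rcases TD_v j' with ⟨b0, b1, b2, b3, b4, b5, b6, b7⟩ | ⟨b0, b1, b2, b3, b4, b5, b6, b7⟩ | ⟨b0, b1, b2, b3, b4, b5, b6, b7⟩ |
      ⟨b0, b1, b2, b3, b4, b5, b6, b7⟩ | ⟨r, bq, b0, b1, b2, b3, b4, b5, b6, b7⟩ | ⟨r, bq, b0, b1, b2, b3, b4, b5, b6, b7⟩ |
      ⟨r, bq, b0, b1, b2, b3, b4, b5, b6, b7⟩ <;>
    interval_cases l <;> interval_cases l' <;> omega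

theorem thm_TD : St_TD := by
  intro δ t h3 h4 h5 h6
  refine ⟨TD_pr, fun j l => decide (TD_sn j l = 1), TD_k, ?_⟩
  constructor
  · intro j hj l hl
    have hd : δ % 3 = 0 → 6 ≤ δ → 3 * t ≠ 4 * δ + 3 := fun ha hb hc => h6 ⟨hb, Nat.dvd_of_mod_eq_zero ha, hc⟩
    clear h6
    rcases TD_v j with ⟨a0, a1, a2, a3, a4, a5, a6, a7⟩ | ⟨a0, a1, a2, a3, a4, a5, a6, a7⟩ | ⟨a0, a1, a2, a3, a4, a5, a6, a7⟩ |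
      ⟨a0, a1, a2, a3, a4, a5, a6, a7⟩ | ⟨q, aq, a0, a1, a2, a3, a4, a5, a6, a7⟩ | ⟨q, aq, a0, a1, a2, a3, a4, a5, a6, a7⟩ |
      ⟨q, aq, a0, a1, a2, a3, a4, a5, a6, a7⟩ <;>
    interval_cases l <;> omega
  · intro j hj l hl l' hl' he
    rcases TD_v j with ⟨a0, a1, a2, a3, a4, a5, a6, a7⟩ | ⟨a0, a1, a2, a3, a4, a5, a6, a7⟩ | ⟨a0, a1, a2, a3, a4, a5, a6, a7⟩ |
      ⟨a0, a1, a2, a3, a4, a5, a6, a7⟩ | ⟨q, aq, a0, a1, a2, a3, a4, a5, a6, a7⟩ | ⟨q, aq, a0, a1, a2, a3, a4, a5, a6, a7⟩ |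
      ⟨q, aq, a0, a1, a2, a3, a4, a5, a6, a7⟩ <;>
    interval_cases l <;> interval_cases l' <;> omega
  · intro j hj l hl j' hj' l' hl' he hs l₁ hl₁ j'' hj'' l'' hl'' he'
    rw [decide_eq_decide] at hs
    obtain ⟨-, m2, m3, -⟩ := TD_m j j' l l' hj' hl hl' he
    obtain ⟨m4, m5, -⟩ := m3 hs
    obtain ⟨-, n2, -, -⟩ := TD_m j j'' l₁ l'' hj'' hl₁ hl'' he'
    rw [m2 m4 m5, n2 m4 m5]
  · intro j hj l₁ hl₁ l₂ hl₂ l₃ hl₃ j₁ hj₁ j₂ hj₂ j₃ hj₃ m₁ hm₁ m₂ hm₂ m₃ hm₃ e1 e2 e3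
    have f1 := (TD_m j j₁ l₁ m₁ hj₁ hl₁ hm₁ e1).1
    have f2 := (TD_m j j₂ l₂ m₂ hj₂ hl₂ hm₂ e2).1
    have f3 := (TD_m j j₃ l₃ m₃ hj₃ hl₃ hm₃ e3).1
    omega
  · intro j hj j' hj' l hl l' hl' he hs
    rw [decide_eq_decide] at hs
    obtain ⟨-, m2, m3, -⟩ := TD_m j j' l l' hj' hl hl' he
    obtain ⟨m4, m5, m6⟩ := m3 hs
    rw [m6]
    unfold TD_k
    rw [if_neg (by omega), if_pos m4]
  · intro j hj l₁ hl₁ l₂ hl₂ hne a ha b hb la hla lb hlb ea eb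
    obtain ⟨m1, m2, -, m4⟩ := TD_m j a l₁ la ha hl₁ hla ea
    obtain ⟨n1, n2, -, n4⟩ := TD_m j b l₂ lb hb hl₂ hlb eb
    have h1 : ¬ (j % 3 = 2 ∧ 5 ≤ j) := fun h => hne (by rw [m2 h.1 h.2, n2 h.1 h.2])
    rw [m4 h1, n4 h1]
    have w1 := TD_Wv j l₁
    have w2 := TD_Wv j l₂
    omega

end Pool.Agent.UBX
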