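import Pool.Agent.TwoDens.Bridge
import Pool.Agent.UBX.GD
import Pool.Agent.UBX.IN
import Pool.Agent.UBX.S0
import Pool.Agent.UBX.S1
import Pool.Agent.UBX.S2
import Pool.Agent.UBX.S3
import Pool.Agent.UBX.SM
import Pool.Agent.UBX.CF
import Pool.Agent.UBX.FC
import Pool.Agent.UBX.EP
import Pool.Agent.UBX.ED
import Pool.Agent.UBX.EX
import Pool.Agent.UBX.PQ
import Pool.Agent.UBX.DG
import Pool.Agent.UBX.IL
import Pool.Agent.UBX.NI
import Pool.Agent.UBX.TA
import Pool.Agent.UBX.TB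
import Pool.Agent.UBX.TC
import Pool.Agent.UBX.TD
import Pool.Agent.BKU.GB
import Pool.Agent.BKU.ARD
import Pool.Agent.BKU.JN
import Pool.Agent.BKU.CP
import Pool.Agent.BKU.ST

/-!
The upper bound in the upper half of the residues.
-/

set_option autoImplicit false

open Finset

namespace Pool.Agent.UBX

open Pool.Agent.BKU Pool.Agent.TwoDens

/-- good target systems exist -/
theorem exists_good {δ t h : ℕ} (hh : 2 ≤ h) (H : HOK δ t h) : ∃ T : TSys δ t h, T.Good := by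
  have key : ∃ pr sd κ, NInc δ t h pr sd κ := by
    rcases H with H | H | H | H | H
    · exact thm_TA δ t h (by omega) (Or.inl H)
    · exact thm_TA δ t h (by omega) (Or.inr H)
    · exact thm_TB δ t h H.2.1 H.2.2
    · obtain ⟨h1, rfl, h2, h3, h4⟩ := H
      exact thm_TD δ t h1 h2 h3 h4
    · obtain ⟨h1, rfl, h2⟩ := H
      exact thm_TC δ t h1 h2
  obtain ⟨pr, sd, κ, hN⟩ := key
  exact thm_NI thm_IL δ t h pr sd κ hN

theorem density {δ t h : ℕ} (T : TSys δ t h) (hT : T.Good) (hh : 1 ≤ h) :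
    ∃ N K : ℕ, 1 ≤ N ∧ ∀ k : ℕ, K ≤ k → N + 2 ≤ k ∧ h + 2 ≤ k ∧
      ∀ F : Finset ((Fin δ × Fin k) ⊕ (Fin t × (Fin (k - 1) ⊕ Fin k))), 3 ≤ F.card →
        E2 (GT T k N) F + (2 * (k : ℝ) - 2 * mu k h) ≤ (k + 1 - mu k h) * F.card :=
  thm_GD (thm_SM (thm_S0 thm_GB) (thm_S1 thm_GB) (thm_S2 thm_GB) (thm_S3 thm_GB))
    (thm_FC thm_CF) (thm_EP thm_JN thm_ST) (thm_ED thm_CP) (thm_EX thm_CP) thm_PQ
    (thm_DG thm_ST (thm_ARD thm_GB)) δ t h T hT hh

theorem E2_eq {V : Type} [DecidableEq V] (G : SimpleGraph V) [DecidableRel G.Adj] (F : Finset V) :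
    E2 G F = (e2 G F : ℝ) := by
  unfold E2 e2
  push_cast
  refine Finset.sum_congr rfl fun x _ => ?_
  rw [Finset.card_filter]
  push_cast
  refine Finset.sum_congr rfl fun y _ => ?_
  by_cases h : G.Adj x y
  · rw [if_pos h, if_pos h]
  · rw [if_neg h, if_neg h]

/-- the upper bound -/
theorem upper_main (s t h : ℕ) (hst : 2 * t < s) (hh : 2 ≤ h)
    (H : HOK (s - 2 * t) t h) : ∃ K : ℕ, ∀ k : ℕ, K ≤ k →
      minTwoDensity (k * s - t) (s + 1) ≤ ((k : ℝ) + 1) / 2 - (h : ℝ) / ((k : ℝ) - 2) := by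
  obtain ⟨δ, rfl⟩ : ∃ δ, s = δ + 2 * t := ⟨s - 2 * t, by omega⟩
  have hδ : δ + 2 * t - 2 * t = δ := by omega
  rw [hδ] at H
  obtain ⟨T, hT⟩ := exists_good hh H
  obtain ⟨N, K, hN, hK⟩ := density T hT (by omega)
  refine ⟨K + 2 * h + 13, ?_⟩
  intro k hk
  obtain ⟨hNk, hhk, hF⟩ := hK k (by omega)
  have hk13 : 13 ≤ k := by omega
  have hkR : (13 : ℝ) ≤ k := by exact_mod_cast hk13
  have hhR : 2 * (h : ℝ) ≤ (k : ℝ) - 2 := by
    have : 2 * h + 2 ≤ k := by omega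
    have h1 : 2 * (h : ℝ) + 2 ≤ k := by exact_mod_cast this
    linarith
  have hc0 : (0 : ℝ) ≤ ((k : ℝ) + 1) / 2 - (h : ℝ) / ((k : ℝ) - 2) := by
    have : (h : ℝ) / ((k : ℝ) - 2) ≤ 1 := by
      rw [div_le_one (by linarith)]
      have : (0 : ℝ) ≤ h := Nat.cast_nonneg _
      linarith
    linarith
  classical
  refine minTwoDensity_le hc0 (GT T k N) ?_ ?_ ?_
  · simp only [Fintype.card_sum, Fintype.card_prod, Fintype.card_fin]
    have e1 : k * (δ + 2 * t) = δ * k + t * k + t * k := by ring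
    have e2 : t * (k - 1 + k) + t = t * k + t * k := by
      obtain ⟨k', rfl⟩ : ∃ k', k = k' + 1 := ⟨k - 1, by omega⟩
      have e3 : k' + 1 - 1 = k' := by omega
      rw [e3]
      ring
    omega
  · intro I hI
    have h1 := thm_IN δ t h T k N hN hNk hhk I (fun x hx y hy hxy => hI hx hy hxy)
    omega
  · intro Y hY
    have h1 := hF Y hY
    rw [E2_eq] at h1
    have h2 : mu k h = 2 * ((h : ℝ) / ((k : ℝ) - 2)) := by
      unfold mu
      ring
    rw [h2] at h1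
    linarith

end Pool.Agent.UBX
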