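import Pool.Agent.BKU.Defs

/-!
# Campaign UBX (MP_303581_co): the general explicit graph for the upper half of the residues. Definitions

`δ` groups `D j` (complete on `k` vertices minus a star with `h` leaves), `t` pairs `(B i, C i)`: `B i` complete on `k - 1` vertices, `C i`
complete on `k` vertices minus a star with `N` leaves (`N` a large constant). Every `D j` has `h` targets in different pairs; a target is a pair `i` and
a side (`true`: `B i`, `false`: `C i`). Different `D j` may share a target.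
Everything of `Pool.Agent.BKU` in Defs.lean is used (`E2 ct pL pR sec jn cp st gg mu Ind`).
-/

set_option autoImplicit false

open Finset

namespace Pool.Agent.UBX

open Pool.Agent.BKU

/-- target systems -/
structure TSys (δ t h : ℕ) where
  pr : Fin δ → Fin h → Fin t
  sd : Fin δ → Fin h → Bool
  inj : ∀ j l l', pr j l = pr j l' → l = l'

variable {δ t h : ℕ}

/-- `(i, x)` is a target of `D j` -/
def TSys.tg (T : TSys δ t h) (j : Fin δ) (i : Fin t) (x : Bool) : Prop := ∃ l, T.pr j l = i ∧ T.sd j l = x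

/-- `D j` and `D j'` have a common target -/
def TSys.shr (T : TSys δ t h) (j j' : Fin δ) : Prop := ∃ i x, T.tg j i x ∧ T.tg j' i x

/-- number of members of `Δ` with the target `(i, x)` -/
noncomputable def TSys.u (T : TSys δ t h) (Δ : Finset (Fin δ)) (i : Fin t) (x : Bool) : ℕ := ct Δ fun j => T.tg j i x

/-- the rank of a pair, `a` and `b` the numbers for its two sides -/
def rk (a b : ℕ) : ℤ := if a = 0 ∧ b = 0 then 0 else if a = 0 ∨ b = 0 then 2 * ((a : ℤ) + b) - 2 else 2 * ((a : ℤ) + b) - 3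

/-- the sparsity condition -/
def TSys.Good (T : TSys δ t h) : Prop := ∀ Δ : Finset (Fin δ), Δ.Nonempty →
  ∑ i, rk (T.u Δ i true) (T.u Δ i false) ≤ 2 * (Δ.card : ℤ) - 2 ∧
  ((∃ i, 1 ≤ T.u Δ i true ∧ 1 ≤ T.u Δ i false) → ∑ i, rk (T.u Δ i true) (T.u Δ i false) ≤ 2 * (Δ.card : ℤ) - 3)

/-- incremental conditions (the groups are added in the order `0, 1, 2, ...`) -/
structure TSys.Inc (T : TSys δ t h) (κ : Fin δ → ℕ) : Prop where
  /-- if a target of `j` is also the target of an earlier group then no other target of `j` is in a pair met by an earlier group -/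
  L1a : ∀ j l, (∃ j' < j, ∃ l', T.pr j' l' = T.pr j l ∧ T.sd j' l' = T.sd j l) →
    ∀ l₁, (∃ j' < j, ∃ l', T.pr j' l' = T.pr j l₁) → l₁ = l
  /-- at most two targets of `j` are in pairs met by earlier groups -/
  L1b : ∀ j l₁ l₂ l₃, (∃ j' < j, ∃ l', T.pr j' l' = T.pr j l₁) → (∃ j' < j, ∃ l', T.pr j' l' = T.pr j l₂) →
    (∃ j' < j, ∃ l', T.pr j' l' = T.pr j l₃) → l₁ = l₂ ∨ l₁ = l₃ ∨ l₂ = l₃
  L2 : ∀ j j' l l', j' < j → T.pr j' l' = T.pr j l → T.sd j' l' = T.sd j l → κ j' = κ j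
  L3 : ∀ j l₁ l₂, l₁ ≠ l₂ → ∀ a b, a < j → b < j → ∀ la lb, T.pr a la = T.pr j l₁ → T.pr b lb = T.pr j l₂ → κ a ≠ κ b

/-- the same for functions on the natural numbers -/
structure NInc (δ t h : ℕ) (pr : ℕ → ℕ → ℕ) (sd : ℕ → ℕ → Bool) (κ : ℕ → ℕ) : Prop where
  lt : ∀ j < δ, ∀ l < h, pr j l < t
  inj : ∀ j < δ, ∀ l < h, ∀ l' < h, pr j l = pr j l' → l = l'
  L1a : ∀ j < δ, ∀ l < h, ∀ j' < j, ∀ l' < h, pr j' l' = pr j l → sd j' l' = sd j l →
    ∀ l₁ < h, ∀ j'' < j, ∀ l'' < h, pr j'' l'' = pr j l₁ → l₁ = l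
  L1b : ∀ j < δ, ∀ l₁ < h, ∀ l₂ < h, ∀ l₃ < h, ∀ j₁ < j, ∀ j₂ < j, ∀ j₃ < j, ∀ m₁ < h, ∀ m₂ < h, ∀ m₃ < h,
    pr j₁ m₁ = pr j l₁ → pr j₂ m₂ = pr j l₂ → pr j₃ m₃ = pr j l₃ → l₁ = l₂ ∨ l₁ = l₃ ∨ l₂ = l₃
  L2 : ∀ j < δ, ∀ j' < j, ∀ l < h, ∀ l' < h, pr j' l' = pr j l → sd j' l' = sd j l → κ j' = κ j
  L3 : ∀ j < δ, ∀ l₁ < h, ∀ l₂ < h, l₁ ≠ l₂ → ∀ a < j, ∀ b < j, ∀ la < h, ∀ lb < h,
    pr a la = pr j l₁ → pr b lb = pr j l₂ → κ a ≠ κ b

/-- the condition on `δ = s - 2 t`, `t`, `h` -/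
def HOK (δ t h : ℕ) : Prop :=
  (δ = 1 ∧ h ≤ t) ∨ (δ = 2 ∧ 2 * h ≤ t + 1) ∨
  (3 ≤ δ ∧ 4 ≤ h ∧ (h - 2) * δ + 3 ≤ t) ∨
  (3 ≤ δ ∧ h = 3 ∧ 4 * δ + 3 ≤ 3 * t ∧ δ + 3 ≤ t ∧ ¬ (6 ≤ δ ∧ 3 ∣ δ ∧ 3 * t = 4 * δ + 3)) ∨
  (3 ≤ δ ∧ h = 2 ∧ 2 * δ + 3 ≤ 3 * t)

/-! ### The graph -/

/-- the groups `D j`; the centres of groups with a common target are adjacent -/
def dG (T : TSys δ t h) (k : ℕ) : SimpleGraph (Fin δ × Fin k) where
  Adj x y := (x.1 = y.1 ∧ (st k h).Adj x.2 y.2) ∨ (x.1 ≠ y.1 ∧ x.2.val = 0 ∧ y.2.val = 0 ∧ T.shr x.1 y.1)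
  symm := ⟨fun _ _ hxy => hxy.elim (fun h1 => Or.inl ⟨h1.1.symm, SimpleGraph.Adj.symm h1.2⟩)
    (fun h1 => Or.inr ⟨h1.1.symm, h1.2.2.1, h1.2.1, by
      obtain ⟨i, x, h2, h3⟩ := h1.2.2.2
      exact ⟨i, x, h3, h2⟩⟩)⟩
  loopless := ⟨fun x hx => hx.elim (fun h1 => (st k h).loopless.irrefl x.2 h1.2) (fun h1 => h1.1 rfl)⟩

/-- a pair: `B` complete on `k - 1` vertices, `C` complete on `k` vertices minus a star with `N` leaves `1, ..., N`; the centre `0` of `C` is adjacent to all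
vertices of `B` but the last `N`, the leaves of `C` are adjacent to the last `N` vertices of `B` -/
def prN (k N : ℕ) : SimpleGraph (Fin (k - 1) ⊕ Fin k) :=
  jn (⊤ : SimpleGraph (Fin (k - 1))) (st k N) fun b c =>
    (c.val = 0 ∧ b.val + N + 1 < k) ∨ (1 ≤ c.val ∧ c.val ≤ N ∧ k ≤ b.val + N + 1)

/-- the edges between the groups `D j` and the pairs -/
def rr (T : TSys δ t h) (k : ℕ) (v : Fin δ × Fin k) (w : Fin t × (Fin (k - 1) ⊕ Fin k)) : Prop := match w with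
  | (i, Sum.inl b) => (v.2.val = 0 ∧ T.tg v.1 i true ∧ b.val < k / 2) ∨
      (∃ l, T.pr v.1 l = i ∧ T.sd v.1 l = true ∧ v.2.val = l.val + 1 ∧ k / 2 ≤ b.val)
  | (i, Sum.inr c) => (v.2.val = 0 ∧ T.tg v.1 i false ∧ c.val < k / 2) ∨
      (∃ l, T.pr v.1 l = i ∧ T.sd v.1 l = false ∧ v.2.val = l.val + 1 ∧ k / 2 ≤ c.val) ∨
      (v.2.val = 0 ∧ T.tg v.1 i true ∧ c.val = 0)

/-- the graph -/
def GT (T : TSys δ t h) (k N : ℕ) : SimpleGraph ((Fin δ × Fin k) ⊕ (Fin t × (Fin (k - 1) ⊕ Fin k))) :=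
  jn (dG T k) (cp (Fin t) (prN k N)) (rr T k)

/-! ### Numbers -/

section counts

variable {k : ℕ} (N : ℕ) (S : Finset (Fin (k - 1) ⊕ Fin k))

/-- vertices of the first half of `B` -/
noncomputable def nb1 (S : Finset (Fin (k - 1) ⊕ Fin k)) : ℕ := ct (pL S) fun b => b.val < k / 2
/-- vertices of the second half of `B` -/
noncomputable def nb2 (S : Finset (Fin (k - 1) ⊕ Fin k)) : ℕ := ct (pL S) fun b => k / 2 ≤ b.val
/-- vertices of the first half of `C` -/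
noncomputable def nc1 (S : Finset (Fin (k - 1) ⊕ Fin k)) : ℕ := ct (pR S) fun c => c.val < k / 2
/-- vertices of the second half of `C` -/
noncomputable def nc2 (S : Finset (Fin (k - 1) ⊕ Fin k)) : ℕ := ct (pR S) fun c => k / 2 ≤ c.val
/-- vertices among the last `N` of `B` -/
noncomputable def nj : ℕ := ct (pL S) fun b => k ≤ b.val + N + 1
/-- the centre of `C` -/
noncomputable def ne (S : Finset (Fin (k - 1) ⊕ Fin k)) : ℕ := ct (pR S) fun c => c.val = 0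
/-- the leaves of `C` -/
noncomputable def nn : ℕ := ct (pR S) fun c => 1 ≤ c.val ∧ c.val ≤ N

end counts

/-- relations between the numbers -/
structure PN (k N b1 b2 c1 c2 j e n : ℕ) : Prop where
  jN : j ≤ N
  jb : j ≤ b1 + b2
  bj : b1 + b2 + N + 1 ≤ k + j
  e1 : e ≤ 1
  nN : n ≤ N
  en : e + n ≤ c1 + c2
  cc : c1 + c2 + N + 1 ≤ k + e + n
  hb1 : 2 * b1 ≤ k
  hb2 : 2 * b2 ≤ k
  hc1 : 2 * c1 ≤ k
  hc2 : 2 * c2 ≤ k + 1

/-- the excess of a pair; `pB, qB, pC, qC` are the numbers of centres and of leaves of the `D j` sent to the sides `B` and `C` -/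
noncomputable def SV (k : ℕ) (μ : ℝ) (b1 b2 c1 c2 j e n pB qB pC qC : ℕ) : ℝ :=
  gg k μ ((b1 : ℝ) + b2) + gg k μ ((c1 : ℝ) + c2) + 2 * e * n - 2 * e * ((b1 : ℝ) + b2 - j) - 2 * n * j -
    2 * ((pB : ℝ) * b1 + qB * b2) - 2 * (pB : ℝ) * e - 2 * ((pC : ℝ) * c1 + qC * c2)

/-- the lower bound of the excess of a pair with flag numbers `f`, `g` -/
noncomputable def LB (k : ℕ) (μ R C : ℝ) (f g : ℕ) : ℝ :=
  if f = 0 ∧ g = 0 then k + 1 - μ else if f + g = 1 then k - 1 - μ else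
    if f = 0 ∨ g = 0 then (2 - ((f : ℝ) + g)) * k + R else (3 - ((f : ℝ) + g)) * k - C

/-- flag numbers -/
noncomputable def TSys.fl (T : TSys δ t h) (U V : Finset (Fin δ)) (i : Fin t) (x : Bool) : ℕ := 2 * T.u U i x + T.u V i x

/-- weights in units of `k` -/
def ww (f g : ℕ) : ℤ := if f = 0 ∧ g = 0 then 1 else if f = 0 ∨ g = 0 then 2 - ((f : ℤ) + g) else 3 - ((f : ℤ) + g)

/-- number of the centres `0` of the `D j` in `D` with the target `(i, x)` -/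
noncomputable def pp (T : TSys δ t h) {k : ℕ} (D : Finset (Fin δ × Fin k)) (i : Fin t) (x : Bool) : ℕ :=
  ct D fun v => v.2.val = 0 ∧ T.tg v.1 i x

/-- number of the leaves of the `D j` in `D` sent to `(i, x)` -/
noncomputable def qq (T : TSys δ t h) {k : ℕ} (D : Finset (Fin δ × Fin k)) (i : Fin t) (x : Bool) : ℕ :=
  ct D fun v => ∃ l, T.pr v.1 l = i ∧ T.sd v.1 l = x ∧ v.2.val = l.val + 1

end Pool.Agent.UBX
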