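import Pool.Agent.UBX.Defs
import Pool.Agent.BKU.St

/-!
# Campaign UBX (MP_303581_co): statements of the modules

Every `St_X` is a statement with its proof in the docstring. A module proves `thm_X : St_A → St_B → ... → St_X` (the statements named in
the docstring are hypotheses; `BKU.St_ST`, `BKU.St_GB` etc. are statements of the campaign BKU, take them as hypotheses as well if used). All numerical statements and
the target systems were checked by a program. `μ = mu k h = 2 h / (k - 2)`, so `μ (k - 2) = 2 h`, `μ k = 2 h + 2 μ`. `g x = gg k μ x = x (k + 2 - x - μ)`,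
`g (k - 1) = 3 k - 3 - 2 h - μ`, `g k = 2 k - 2 h - 2 μ`.
-/

set_option autoImplicit false

open Finset

namespace Pool.Agent.UBX

open Pool.Agent.BKU

/-! ### Target systems -/

/-- (IL) The incremental conditions imply `Good`. PROOF. Write `r Δ = ∑ i, rk (u Δ i true) (u Δ i false)`. CLAIM for every nonempty `Δ`: `r Δ ≤ 2 |Δ| - 2`, and if `r Δ = 2 |Δ| - 2` then `κ` is constant on `Δ` and
`Δ` has no double pair (no `i` with `u Δ i true ≥ 1` and `u Δ i false ≥ 1`). The claim gives `Good`. Strong induction on `|Δ|`; `j = max Δ`, `Δ0 = Δ \ {j}`. The targets of `j` are in different pairs (`inj`); for a target `(i, x)` of `j` adding `j` changes `u i x` from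
`a` to `a + 1` (the other side is `b`): `rk` changes by `2` if `a ≥ 1`, by `1` if `a = 0` and `b ≥ 1`, by `0` if `a = b = 0`; the other pairs do not change. So `r Δ = r Δ0 + m`, `m = 2 A + B`, `A` the number of the `l` with `u Δ0 (pr j l) (sd j l) ≥ 1`, `B` the number of the
other `l` with `u Δ0 (pr j l) (! sd j l) ≥ 1`. All `j' ∈ Δ0` are `< j`. By L1a, L1b (every `l` counted in `A` or `B` is met by an earlier group): if `A ≥ 1` then `A = 1`, `B = 0`; otherwise `B ≤ 2`; so `m ≤ 2`. `Δ0 = ∅`: `r Δ = 0`, no double pair (`inj`: both sides of a pair are never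
targets of `j`). `Δ0 ≠ ∅`: if `m ≤ 1` or `r Δ0 < 2 |Δ0| - 2` then `r Δ < 2 |Δ| - 2`. Let `m = 2` and equality for `Δ0`, so `κ` is constant on `Δ0` and there is no double pair. If `A = 1`: the other targets of `j` are in pairs not met by `Δ0`, the pair of this one is met by `Δ0` on the same side only,
so `Δ` has no double pair, and `κ j` is the common value by L2. If `B = 2`: two different `l` are met by `a, b ∈ Δ0`, L3 gives `κ a ≠ κ b`, a contradiction. -/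
def St_IL : Prop := ∀ (δ t h : ℕ) (T : TSys δ t h) (κ : Fin δ → ℕ), T.Inc κ → T.Good

/-- (NI) Uses IL. PROOF. `pr j l = ⟨pr j l, lt⟩`, `sd j l`, `κ j`; the conditions are those of `Inc`. -/
def St_NI : Prop := ∀ (δ t h : ℕ) (pr : ℕ → ℕ → ℕ) (sd : ℕ → ℕ → Bool) (κ : ℕ → ℕ), NInc δ t h pr sd κ → ∃ T : TSys δ t h, T.Good

/-- (TA) PROOF. `κ j = j`. `pr 0 l = l`, `pr 1 0 = 0`, `pr 1 l = h + l - 1` for `l ≥ 1`; `sd 1 0 = false`, all other sides `true`. Only `j = 1`, `l = 0` is met by an earlier group. -/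
def St_TA : Prop := ∀ δ t h : ℕ, 1 ≤ h → (δ = 1 ∧ h ≤ t) ∨ (δ = 2 ∧ 2 * h ≤ t + 1) → ∃ pr sd κ, NInc δ t h pr sd κ

/-- (TB) PROOF. `κ j = j`. `l ≥ 2`: `pr j l = 3 + (h - 2) j + (l - 2)`, side `true` (these pairs are own pairs of `j`). `l = 0`: `pr 0 0 = 0`, side `true`; for `j ≥ 1`: `pr j 0 = 3 + (h - 2) (j - 1)` (the pair of `(j - 1, 2)`), side `false`. `l = 1`: `pr 0 1 = 1`, `pr 1 1 = 2`, side `true`; for `j ≥ 2`:
`pr j 1 = 3 + (h - 2) (j - 2) + 1` (the pair of `(j - 2, 3)`, here `h ≥ 4` is used), side `false`. A target of `j` in a pair met by an earlier group: only `l = 0` (`j ≥ 1`, met by `j - 1` only, other side) and `l = 1` (`j ≥ 2`, met by `j - 2` only, other side). -/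
def St_TB : Prop := ∀ δ t h : ℕ, 4 ≤ h → (h - 2) * δ + 3 ≤ t → ∃ pr sd κ, NInc δ t h pr sd κ

/-- (TC) `h = 2`. PROOF. Groups `0, 1, 2`: `D 0`: `(0, B), (1, B)`; `D 1`: `(0, C), (2, B)`; `D 2`: `(1, C), (2, C)`. For `i ≥ 1`: `D (3 i)`: `(0, B), (2 i + 1, B)`; `D (3 i + 1)`: `(2, B), (2 i + 2, B)`; `D (3 i + 2)`: `(2 i + 1, C), (2 i + 2, C)` (`B = true`, `C = false`).
`κ (3 i) = 0`, `κ (3 i + 1) = 1`, `κ (3 i + 2) = 3 i + 2`. Met by earlier groups: `D 1`: pair `0` (other side); `D (3 i)`, `i ≥ 1`: `(0, B)`, the same target as `D 0`, `D 3`, ... (all with `κ = 0`), and also met by `D 1` on the other side; `D (3 i + 1)`, `i ≥ 1`: `(2, B)`, the same target as `D 1`, `D 4`, ... (`κ = 1`), also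
met by `D 2` on the other side; `D (3 i + 2)`: pair `2 i + 1` by `D (3 i)` (`κ = 0`; if `i = 0` this is `D 0`), pair `2 i + 2` by `D (3 i + 1)` (`κ = 1`). The greatest pair used by the groups `< δ`: `2 a + 2` if `δ = 3 a + 3`; `2 a + 1` if `δ = 3 a + 1`, `a ≥ 1`; `2 a + 2` if `δ = 3 a + 2`. -/
def St_TC : Prop := ∀ δ t : ℕ, 3 ≤ δ → 2 * δ + 3 ≤ 3 * t → ∃ pr sd κ, NInc δ t 2 pr sd κ

/-- (TD) `h = 3`. PROOF. `D 0`: `(0, B), (1, B), (2, B)`; `D 1`: `(0, C), (3, B), (4, B)`; `D 2`: `(1, C), (3, C), (5, B)`; `D 3`: `(2, C), (4, C), (6, B)`; `D 4`: `(5, C), (6, C), (7, B)`. For `i ≥ 0`: `D (5 + 3 i)`: `(0, B), (8 + 4 i, B), (9 + 4 i, B)`;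
`D (6 + 3 i)`: `(7 + 4 i, C), (8 + 4 i, C), (10 + 4 i, B)`; `D (7 + 3 i)`: `(9 + 4 i, C), (10 + 4 i, C), (11 + 4 i, B)`. `κ (5 + 3 i) = 0`, `κ j = j` otherwise (so `κ 0 = 0`). Met by earlier groups: `D 1`: pair `0`; `D 2`: pair `1` by `D 0`, pair `3` by `D 1`; `D 3`: pair `2` by `D 0`, pair `4` by `D 1`;
`D 4`: pair `5` by `D 2`, pair `6` by `D 3`; `D (5 + 3 i)`: only pair `0`, the same target as `D 0` and the `D (5 + 3 i')` (all `κ = 0`), also met by `D 1` on the other side; `D (6 + 3 i)`: pair `7 + 4 i` by `D (4 + 3 i)`, pair `8 + 4 i` by `D (5 + 3 i)` (`κ = 0`); `D (7 + 3 i)`: pair `9 + 4 i` by `D (5 + 3 i)` (`κ = 0`),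
pair `10 + 4 i` by `D (6 + 3 i)`. Number of pairs used by the groups `< δ`: `δ = 3, 4, 5`: `6, 7, 8`; `δ = 6 + 3 i`: `10 + 4 i`; `δ = 7 + 3 i`: `11 + 4 i`; `δ = 8 + 3 i`: `12 + 4 i`. -/
def St_TD : Prop := ∀ δ t : ℕ, 3 ≤ δ → 4 * δ + 3 ≤ 3 * t → δ + 3 ≤ t → ¬ (6 ≤ δ ∧ 3 ∣ δ ∧ 3 * t = 4 * δ + 3) → ∃ pr sd κ, NInc δ t 3 pr sd κ

/-! ### Numbers. `b = b1 + b2`, `c = c1 + c2`; `T0` is `SV` with all flags `0`. From `PN`: `b ≤ k - 1`, and `b = k - 1` gives `j = N`; `c ≤ k`, and `c = k` gives `e = 1`, `n = N`; `e = n = 0` gives `c ≤ k - 1 - N`; `e = 0` gives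
`c ≤ k - 1`; `n = 0` gives `c ≤ k - N`. Elementary (concave functions, look at the ends, `k` large), for `k ≥ K (h, N)`: (G1) `g x ≥ k + 1 - μ` for `1 ≤ x ≤ k - 1`; (G2) `g x ≥ 2 k - 2 μ` for `2 ≤ x ≤ k - 1`; (G3) `g k = 2 k - 2 h - 2 μ`; (G4) `x (k - x - μ) ≥ k - 1 - μ` for `1 ≤ x ≤ k - 2`, and
`(k - 1) (1 - μ) = k - 1 - 2 h - μ`. See `BKU.St_GB`. So always (BP): for `e = 1`, `1 ≤ b`: `g b - 2 (b - j) - 2 (n - 1) j ≥ k - 1 - μ` if `n ≤ 1` (`b = k - 1`: `k - 1 - 2 h - μ + 2 N`) and `≥ k - 1 - 2 h - μ - 2 N ^ 2 ≥ 2` in general. -/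

/-- (S0) Uses GB. PROOF. `e = n = 0`: `g b + g c`, (G1), (G2). `e = 0`, `n ≥ 1` (`1 ≤ c ≤ k - 1`): `T0 = g b + g c - 2 n j`; `b = 0`: `j = 0`. `b ≥ 1`, `n = 1`: `b = 1`: `j ≤ 1`, `2 (k + 1 - μ) - 2`; `b ≥ 2`: `(2 k - 2 μ) + (k + 1 - μ) - 2 N`. `b ≥ 1`, `n ≥ 2`: `c ≥ 2`: `(2 k - 2 μ) + (k + 1 - μ) - 2 N ^ 2`.
`e = 1`, `n = 0` (`1 ≤ c ≤ k - 1`): `b = 0`: `g c`; `b ≥ 1`: `b (k - b - μ) + 2 j ≥ k - 1 - μ` (also for `b = k - 1` as `j = N ≥ h`), `g c ≥ k + 1 - μ`. `e = 1`, `n ≥ 1`: `c ≥ 2`, `g c + 2 n ≥ 2 k - 2 μ` (`c = k`: `n = N ≥ h`), and the rest is `0` for `b = 0` and `≥ 0` by (BP). -/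
def St_S0 : Prop := ∀ h N : ℕ, 1 ≤ h → h + 1 ≤ N → ∃ K : ℕ, ∀ k : ℕ, K ≤ k → ∀ b1 b2 c1 c2 j e n : ℕ, PN k N b1 b2 c1 c2 j e n → 1 ≤ b1 + b2 + c1 + c2 →
  (k : ℝ) + 1 - mu k h ≤ SV k (mu k h) b1 b2 c1 c2 j e n 0 0 0 0 ∧
  (2 ≤ b1 + b2 + c1 + c2 → 2 * (k : ℝ) - 2 * mu k h ≤ SV k (mu k h) b1 b2 c1 c2 j e n 0 0 0 0)

/-- (S1) One flag. Uses GB. PROOF. `SV = T0 - cost`. Flag on the side `B`: `cost ≤ min (2 b) k + 2 e`. `b = 0`: `T0 ≥ k + 1 - μ`, `cost ≤ 2`. `e = n = 0`: `b = 1`: `(k + 1 - μ) - 2 + g c`; `b ≥ 2`: `2 k - 2 μ - k + g c`. `e = 0`, `n ≥ 1`: `b = 1`: `(k - 1 - μ) + (k + 1 - μ) - 2 N`; `b ≥ 2`: `(2 k - 2 μ) - k + (k + 1 - μ) - 2 N ^ 2`.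
`e = 1`, `n = 0`: `g c ≥ k + 1 - μ`, it remains `b (k - b - μ) + 2 j - min (2 b) k - 2 ≥ - 2`: `2 b ≤ k`: `b (k - b - μ - 2) ≥ 0`; `k < 2 b`, `b ≤ k - 2`: `b (k - b - μ) ≥ 2 k - 4 - 2 h - 2 μ ≥ k`; `b = k - 1`: `j = N`, `k - 1 - 2 h - μ + 2 N - k ≥ 0` as `N ≥ h + 1`. `e = 1`, `n ≥ 1`: `g c + 2 n ≥ 2 k - 2 μ`, `(BP) ≥ 2`, so `≥ 2 k - 2 μ + 2 - k - 2`.
Flag on the side `C`: `cost ≤ min (2 c) (k + 1)`. `c = 0`: clear. `c ≥ 1`: the part of `T0` with `b` (all terms but `g c + 2 e n`) is `≥ 0` (`b = 0`: `0`; `e = 0`: `g b - 2 n j ≥ k + 1 - μ - 2 N ^ 2`; `e = 1`: (BP)); and `g c + 2 e n - min (2 c) (k + 1) ≥ k - 1 - μ`: `2 c ≤ k + 1`: `c (k - c - μ) ≥ k - 1 - μ` by (G4); `k + 1 < 2 c`, `c ≤ k - 1`: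
`g c ≥ 3 k - 3 - 2 h - μ`; `c = k`: `2 k - 2 h - 2 μ + 2 N - (k + 1)`. -/
def St_S1 : Prop := ∀ h N : ℕ, 1 ≤ h → h + 1 ≤ N → ∃ K : ℕ, ∀ k : ℕ, K ≤ k → ∀ b1 b2 c1 c2 j e n pB qB pC qC : ℕ, PN k N b1 b2 c1 c2 j e n → 1 ≤ b1 + b2 + c1 + c2 →
  pB + qB + pC + qC = 1 → (k : ℝ) - 1 - mu k h ≤ SV k (mu k h) b1 b2 c1 c2 j e n pB qB pC qC

/-- (S2) At least two flags, all on one side. Uses GB. PROOF. First the side `B`, `f = pB + qB`: `SV ≥ T0 - f (min (2 b) k + 2 e)`. Note `(2 - f) k ≤ 0`, so `k - const` is enough in the cases with small sets. `b = 0`: `T0 ≥ k + 1 - μ` (as in S0), `cost ≤ 2 f`. `b ≥ 1`: (X) `g b - f min (2 b) k ≥ (3 - f) k - 3 - 2 h - μ` if `k ≤ 2 b` (`g b ≥ g (k - 1)`), and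
`= b (k + 2 - b - μ - 2 f) ≥ k - 2 f` if `2 b ≤ k`. `e = 0`: (X) and `g c - 2 n j ≥ - 2 N ^ 2`. `e = 1`, `n = 0`: `g c ≥ k + 1 - μ`, and `b (k - b - μ) + 2 j - f min (2 b) k - 2 f`: `b = k - 1`: `j = N`: `k - 1 - 2 h - μ + 2 N - f k - 2 f`, the total is `(2 - f) k + 2 (N - h - f) - 2 μ`; `k ≤ 2 b`, `b ≤ k - 2`: `≥ 2 k - 4 - 2 h - 2 μ - f k - 2 f`; `2 b ≤ k`:
`b (k - b - μ - 2 f) ≥ k - 1 - μ - 2 f`. `e = 1`, `n ≥ 1`: `g c + 2 n ≥ 2 k - 2 μ`, `b (k - b - μ) - 2 (n - 1) j ≥ k - 1 - 2 h - μ - 2 N ^ 2` for `k ≤ 2 b`, and for `2 b ≤ k` as before, minus `2 N ^ 2`. The side `C`, `f = pC + qC`: `SV ≥ T0 - f min (2 c) (k + 1)`; `c = 0` is clear; otherwise the part with `b` is `≥ 0` as in S1, and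
`g c + 2 e n - f min (2 c) (k + 1)`: `c = k`: `2 k - 2 h - 2 μ + 2 N - f (k + 1)`; `k + 1 ≤ 2 c`, `c ≤ k - 1`: `≥ 3 k - 3 - 2 h - μ - f (k + 1)`; `2 c ≤ k + 1`: `c (k + 2 - c - μ - 2 f) ≥ k - 2 f`. -/
def St_S2 : Prop := ∀ h N φ : ℕ, 1 ≤ h → h + 1 ≤ N → ∃ K : ℕ, ∀ k : ℕ, K ≤ k → ∀ b1 b2 c1 c2 j e n p q : ℕ, PN k N b1 b2 c1 c2 j e n → 1 ≤ b1 + b2 + c1 + c2 →
  2 ≤ p + q → p + q ≤ φ →
  (2 - ((p : ℝ) + q)) * k + 2 * ((N : ℝ) - h - ((p : ℝ) + q)) - 1 ≤ SV k (mu k h) b1 b2 c1 c2 j e n p q 0 0 ∧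
  (2 - ((p : ℝ) + q)) * k + 2 * ((N : ℝ) - h - ((p : ℝ) + q)) - 1 ≤ SV k (mu k h) b1 b2 c1 c2 j e n 0 0 p q

/-- (S3) Flags on both sides. Uses GB. PROOF. `C = 10 (N + φ + h + 2) ^ 2`. `f = pB + qB`, `g' = pC + qC`, `f, g' ≥ 1`. `SV ≥ T0 - f min (2 b) k - 2 φ - g' min (2 c) (k + 1)`. `b = 0`: `T0 = g c + 2 e n`, `≥ (2 - g') k - const` (as in S2; for `g' = 1` also `k - const`), and `f ≥ 1`. `c = 0`: `T0 = g b`, `g b - f min (2 b) k ≥ (2 - f) k - const`. `b, c ≥ 1`: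
`T0 ≥ (g b - 2 b) + g c - 2 N ^ 2`; `g b - 2 b - f min (2 b) k ≥ (1 - f) k - const` (`b ≥ k / 2`: `b (k - b - μ) ≥ k - 1 - 2 h - μ`; `b ≤ k / 2`: `b (k - b - μ - 2 f) ≥ k - const`); `g c - g' min (2 c) (k + 1) ≥ (2 - g') k - const` (`c = k`, `k + 1 ≤ 2 c ≤ 2 k - 2`, and `2 c ≤ k + 1`: `≥ k - const`, `g' ≥ 1`). -/
def St_S3 : Prop := ∀ h N φ : ℕ, 1 ≤ h → h + 1 ≤ N → ∃ (C : ℝ) (K : ℕ), 2 ≤ C ∧ ∀ k : ℕ, K ≤ k → ∀ b1 b2 c1 c2 j e n pB qB pC qC : ℕ, PN k N b1 b2 c1 c2 j e n →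
  1 ≤ b1 + b2 + c1 + c2 → 1 ≤ pB + qB → pB + qB ≤ φ → 1 ≤ pC + qC → pC + qC ≤ φ →
  (3 - ((pB : ℝ) + qB) - ((pC : ℝ) + qC)) * k - C ≤ SV k (mu k h) b1 b2 c1 c2 j e n pB qB pC qC

/-- (SM) Uses S0, S1, S2, S3. PROOF. `R = 2 (N - h - φ) - 1`, `C` from S3; let `f0 = pB + qB ≤ f`, `g0 = pC + qC ≤ g`. `(f, g) = (0, 0)`: S0. `f + g = 1`: S0 or S1. `g = 0`, `f ≥ 2`: `f0 ≥ 2`: S2 and `(2 - f0) k + 2 (N - h - f0) - 1 ≥ (2 - f) k + R`; `f0 ≤ 1`: `SV ≥ k - 1 - μ ≥ R ≥ (2 - f) k + R`. The same for `f = 0`. `f, g ≥ 1`: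
both `f0, g0 ≥ 1`: S3; one of them `0` and the other `≥ 2`: S2, `2 - f0 ≥ 3 - f - g`, `2 (N - h - f0) - 1 ≥ - C - ...` (enlarge `C` by `2 φ + 2 h + 1`; `C` may be chosen); `f0 + g0 ≤ 1`: `k - 1 - μ ≥ (3 - f - g) k - C`. -/
def St_SM : Prop := ∀ h N φ : ℕ, 1 ≤ h → h + 1 ≤ N → ∃ (C : ℝ) (K : ℕ), 0 ≤ C ∧ ∀ k : ℕ, K ≤ k → ∀ b1 b2 c1 c2 j e n pB qB pC qC f g : ℕ, PN k N b1 b2 c1 c2 j e n →
  1 ≤ b1 + b2 + c1 + c2 → pB + qB ≤ f → pC + qC ≤ g → f ≤ φ → g ≤ φ →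
  LB k (mu k h) (2 * ((N : ℝ) - h - φ) - 1) C f g ≤ SV k (mu k h) b1 b2 c1 c2 j e n pB qB pC qC ∧
  (f = 0 → g = 0 → 2 ≤ b1 + b2 + c1 + c2 → 2 * (k : ℝ) - 2 * mu k h ≤ SV k (mu k h) b1 b2 c1 c2 j e n pB qB pC qC)

/-! ### The final count -/

/-- (CF) PROOF. Let `Cf U V P` be the integer on the right. (a) Let `v ∈ V` have a target `(i, x)` with `i ∈ P`. Then `Cf (insert v U) (V.erase v) P ≤ Cf U V P`: `2 |U| + |V|` grows by `1`; for every target `(i, x)` of `v` the number `fl i x` grows from some `f ≥ 1` to `f + 1`, so `ww` falls by exactly `1`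
(`ww 1 0 = 1`, `ww 2 0 = 0`, `ww f 0 = 2 - f`, `ww f g = 3 - f - g`; both sides of the same pair are never targets of `v`), and at least one of these pairs is in `P`. The set of `(i, x)` with `fl i x ≥ 1` does not change. (b) For `v ∈ V` without a target in a pair of `P`: erasing `v` lowers `Cf` by `1` and changes no `fl i x` with `i ∈ P`.
Repeat (induction on `|V|`): `Cf U V P ≥ Cf Δ ∅ P` for a set `Δ` with `fl Δ ∅ i x ≥ 1 ↔ fl U V i x ≥ 1` for all `i ∈ P`. (c) `fl Δ ∅ i x = 2 u Δ i x` and `ww (2 a) (2 b) ≥ - rk a b`, `rk ≥ 0`, so `Cf Δ ∅ P ≥ 2 |Δ| - ∑ i, rk (u Δ i true) (u Δ i false)`. If some `i ∈ P` is met then `Δ ≠ ∅` and `Good` gives `≥ 2`; if some `i ∈ P` is met on both sides then `≥ 3`. -/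
def St_CF : Prop := ∀ (δ t h : ℕ) (T : TSys δ t h), T.Good → ∀ (U V : Finset (Fin δ)) (P : Finset (Fin t)), Disjoint U V →
  ((∃ i ∈ P, 1 ≤ T.fl U V i true + T.fl U V i false) →
    2 ≤ 2 * (U.card : ℤ) + V.card + ∑ i ∈ P, ww (T.fl U V i true) (T.fl U V i false)) ∧
  ((∃ i ∈ P, 1 ≤ T.fl U V i true ∧ 1 ≤ T.fl U V i false) →
    3 ≤ 2 * (U.card : ℤ) + V.card + ∑ i ∈ P, ww (T.fl U V i true) (T.fl U V i false))

/-- (FC) Uses CF. PROOF. `u = |U|`, `v = |V|`, `p = |P|`, all `≤ δ + t`; `fl ≤ 2 δ`. Always `LB ≥ ww * k - (C + 2)` hence total `≥ Cf k - const`, `Cf` as in CF. (i) some `i ∈ P` with both numbers `≥ 1`: `Cf ≥ 3`. (ii) not (i), and some `i ∈ P` with sum `≥ 2`: `Cf ≥ 2`, and now `LB ≥ ww * k - 1 - μ` for all `i ∈ P` and `LB = ww * k + R` for at least one;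
total `≥ Cf k - 2 μ u - μ v - (1 + μ) t + R - δ ^ 2 ≥ 2 k` if `Cf = 2`, and `Cf ≥ 3` is clear. (iii) all `i ∈ P` have sum `≤ 1`: `S i ≥ k - 1 - μ`. `2 u + v + p ≥ 3`: total `≥ 3 k - const`. `u = 1`, `v = p = 0`: `dd = 0`. `u = 0`, `v + p = 2`: `v = 2`, `p = 0` is excluded by the last hypothesis; `v = p = 1`: `(k + 1 - μ) + (k - 1 - μ)`, `dd = 0`;
`v = 0`, `p = 2`: the numbers `fl` are `0`, `2 (k + 1 - μ)`. `u = v = 0`, `p = 1`: `n i ≥ 3`, `S i ≥ 2 k - 2 μ`. The rest is excluded by the last hypothesis. -/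
def St_FC : Prop := ∀ (δ t h : ℕ) (T : TSys δ t h), T.Good → ∀ R C : ℝ, 4 * (t : ℝ) + 2 * δ * δ + 3 * δ + 2 ≤ R → 0 ≤ C → ∃ K : ℕ, ∀ k : ℕ, K ≤ k →
  ∀ μ : ℝ, 0 ≤ μ → μ ≤ 1 / 8 → ∀ (U V : Finset (Fin δ)) (P : Finset (Fin t)), Disjoint U V → ∀ (n : Fin t → ℕ) (S : Fin t → ℝ) (dd : ℕ),
    (∀ i ∈ P, 1 ≤ n i) → (∀ i ∈ P, LB k μ R C (T.fl U V i true) (T.fl U V i false) ≤ S i) →
    (∀ i ∈ P, T.fl U V i true = 0 → T.fl U V i false = 0 → 2 ≤ n i → 2 * (k : ℝ) - 2 * μ ≤ S i) →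
    2 * dd ≤ (U.card + V.card) * (U.card + V.card - 1) → (U = ∅ → 3 ≤ V.card + ∑ i ∈ P, n i) →
    2 * (k : ℝ) - 2 * μ ≤ U.card * (2 * (k : ℝ) - 2 * μ) + V.card * ((k : ℝ) + 1 - μ) + ∑ i ∈ P, S i - 2 * dd

/-! ### Counting edges. `BKU.St_JN, St_CP, St_ST` are general. -/

/-- (EP) The edges of a pair. Uses BKU.JN, BKU.ST. PROOF. JN for `prN k N`: for `b` with `b + N + 1 < k` the number of `c ∈ pR S` with `r b c` is `ne S`, for the other `b` it is `nn N S`; there are `b - j` and `j` of these in `pL S`. ST gives `E2` of the two parts (`st k N`). `PN`: count the possible places: `N` places with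
`k ≤ b + N + 1`, `k - 1 - N` with `b + N + 1 < k`, `k / 2` with `b < k / 2`, `k - 1 - k / 2` with `k / 2 ≤ b` in `B`; `k / 2` and `k - k / 2` in `C`; the rest is ST. -/
def St_EP : Prop := ∀ (k N : ℕ) (S : Finset (Fin (k - 1) ⊕ Fin k)), N + 2 ≤ k →
  PN k N (nb1 S) (nb2 S) (nc1 S) (nc2 S) (nj N S) (ne S) (nn N S) ∧
  S.card = nb1 S + nb2 S + nc1 S + nc2 S ∧
  E2 (prN k N) S = ((nb1 S : ℝ) + nb2 S) * ((nb1 S : ℝ) + nb2 S) - ((nb1 S : ℝ) + nb2 S) +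
    (((nc1 S : ℝ) + nc2 S) * ((nc1 S : ℝ) + nc2 S) - ((nc1 S : ℝ) + nc2 S)) - 2 * ne S * nn N S +
    2 * (ne S * ((nb1 S : ℝ) + nb2 S - nj N S) + nn N S * nj N S)

/-- (ED) The edges of the groups `D j`. Uses BKU.CP. PROOF. The indicator of `Adj x y` is at most that of `x.1 = y.1 ∧ (st k h).Adj x.2 y.2` (CP) plus that of `x.1 ≠ y.1 ∧ x.2 = 0 ∧ y.2 = 0`; the sum of the latter over `D × D` is `m0 (m0 - 1)`, `m0` the number of the `j` with `(j, 0) ∈ D`; `2 dd = m0 (m0 - 1)`. -/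
def St_ED : Prop := ∀ (δ t h : ℕ) (T : TSys δ t h) (k : ℕ) (D : Finset (Fin δ × Fin k)),
  ∃ dd : ℕ, 2 * dd ≤ ct Finset.univ (fun j => 1 ≤ (sec D j).card) * (ct Finset.univ (fun j => 1 ≤ (sec D j).card) - 1) ∧
    E2 (dG T k) D ≤ ∑ j, E2 (st k h) (sec D j) + 2 * dd

/-- (EX) The cross edges. Uses BKU.CP. PROOF. CP (2): `ct Q (rr T k x) = ∑ i, ct (sec Q i) (fun w => rr T k x (i, w))`, and the inner number is at most the sum of five terms: `[x = centre with target (i, true)] (nb1 + ne)`, `[x = leaf sent to (i, true)] nb2`, `[x = centre with target (i, false)] nc1`, `[x = leaf sent to (i, false)] nc2`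
(split `sec Q i` into the `inl` and the `inr` part). Sum over `x ∈ D` and swap. -/
def St_EX : Prop := ∀ (δ t h : ℕ) (T : TSys δ t h) (k : ℕ) (D : Finset (Fin δ × Fin k)) (Q : Finset (Fin t × (Fin (k - 1) ⊕ Fin k))),
  ∑ x ∈ D, (ct Q (rr T k x) : ℝ) ≤ ∑ i, ((pp T D i true : ℝ) * nb1 (sec Q i) + (qq T D i true : ℝ) * nb2 (sec Q i) + (pp T D i true : ℝ) * ne (sec Q i) +
    ((pp T D i false : ℝ) * nc1 (sec Q i) + (qq T D i false : ℝ) * nc2 (sec Q i)))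

/-- (PQ) PROOF. For a `j` with the target `(i, x)`, `l` its (unique, by `inj`) index, the vertices counted in `pp + qq` with first coordinate `j` are among `(j, 0)` and `(j, l + 1)`: at most `min 2 (sec D j).card`. For the other `j` there are none. -/
def St_PQ : Prop := ∀ (δ t h : ℕ) (T : TSys δ t h) (k : ℕ) (D : Finset (Fin δ × Fin k)) (U V : Finset (Fin δ)), (∀ j, j ∈ U ↔ 2 ≤ (sec D j).card) → (∀ j, j ∈ V ↔ (sec D j).card = 1) →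
  ∀ i x, pp T D i x + qq T D i x ≤ T.fl U V i x ∧ T.fl U V i x ≤ 2 * δ

/-- (DG) One group `D`. Uses BKU.ST, BKU.ARD (or GB). PROOF. ST: `E2 = a a - a - 2 d n`, so the left sides are `g a + 2 d n`; ARD (1), (2). -/
def St_DG : Prop := ∀ k h : ℕ, 1 ≤ h → 100 * (h + 2) ^ 2 ≤ k → ∀ A : Finset (Fin k),
  (2 ≤ A.card → 2 * (k : ℝ) - 2 * mu k h ≤ (k + 1 - mu k h) * A.card - E2 (st k h) A) ∧
  (A.card = 1 → (k : ℝ) + 1 - mu k h ≤ (k + 1 - mu k h) * A.card - E2 (st k h) A) ∧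
  (A.card = 0 → E2 (st k h) A = 0)

/-- (GD) The density of `GT`. Uses SM, FC, EP, ED, EX, PQ, DG, BKU.JN, BKU.CP, BKU.GB. PROOF. `φ = 2 δ`, `N = h + 2 δ + 2 t + δ ^ 2 + 2 δ + 3`, `R = 2 (N - h - φ) - 1 ≥ 4 t + 2 δ ^ 2 + 3 δ + 2`. For `F` with `|F| ≥ 3` let `D = pL F`, `Q = pR F`, `U = {j : |sec D j| ≥ 2}`, `V = {j : |sec D j| = 1}`, `P = {i : sec Q i ≠ ∅}`, `n i = |sec Q i|`,
`S i = SV` of the numbers of `sec Q i` with the flags `pp, qq`. By JN, CP, EP, ED, EX: `(k + 1 - μ) |F| - E2 F ≥ ∑_j ((k + 1 - μ) a_j - E2 (st k h) (sec D j)) + ∑_{i ∈ P} S i - 2 dd` (for `i ∉ P` everything is `0`); DG; PQ and SM give the hypotheses of FC; `ct univ (1 ≤ |sec D j|) = |U| + |V|`. So `2 k - 2 μ ≤ (k + 1 - μ) |F| - E2 F`. -/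
def St_GD : Prop := ∀ (δ t h : ℕ) (T : TSys δ t h), T.Good → 1 ≤ h → ∃ N K : ℕ, 1 ≤ N ∧ ∀ k : ℕ, K ≤ k → N + 2 ≤ k ∧ h + 2 ≤ k ∧ ∀ F : Finset ((Fin δ × Fin k) ⊕ (Fin t × (Fin (k - 1) ⊕ Fin k))),
  3 ≤ F.card → E2 (GT T k N) F + (2 * (k : ℝ) - 2 * mu k h) ≤ (k + 1 - mu k h) * F.card

/-! ### Independent sets -/

/-- (IN) Independence number. PROOF. `I` independent, `D j = sec (pL I) j`, `B i, C i` the two parts of `sec (pR I) i`. `D j` is independent in `st k h`: at most two elements, and two elements are `0` and `l + 1` for one `l < h`; let `X` be the set of the `j` with two elements, `φ j = (pr j l, sd j l)`. `|B i| ≤ 1` (complete). `C i` is independent in `st k N`: at most two elements,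
two elements are `0` and a leaf `1 ≤ c ≤ N`, and then `B i = ∅` (`b + N + 1 < k` or not). CLAIM for every `i`: `|B i| + |C i| + #{j ∈ X : φ j is in the pair i} ≤ 2`. If `j ∈ X` and `φ j = (i, true)`: `B i = ∅` (the elements `< k / 2` are adjacent to `(j, 0)`, the others to `(j, l + 1)`), and the centre of `C i` is not in `I`, so `|C i| ≤ 1`; if `φ j = (i, false)`:
`C i = ∅`. Two different `j, j' ∈ X` with `φ j = φ j'` share a target, so `(j, 0)` and `(j', 0)` are adjacent, impossible. So `|B i| + #{φ j = (i, true)} ≤ 1`, and `|C i| + #{φ j = (i, false)} ≤ 1` unless `|C i| = 2`; if `|C i| = 2` then `B i = ∅` and there is no `j ∈ X` with `φ j` in the pair `i`. Sum: `|I| ≤ (δ + |X|) + ∑ (|B i| + |C i|) ≤ δ + 2 t`. -/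
def St_IN : Prop := ∀ (δ t h : ℕ) (T : TSys δ t h) (k N : ℕ), 1 ≤ N → N + 2 ≤ k → h + 2 ≤ k → Ind (GT T k N) (δ + 2 * t)

end Pool.Agent.UBX
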