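import Pool.Agent.UBX.St

/-!
# Campaign UBX (MP_303581_co): explicit target system, `h ≥ 4` (helper2, statement `St_TB` of helper71)
-/

set_option autoImplicit false

open Finset

namespace Pool.Agent.UBX

/-- the pairs, `q = h - 2` -/
def TB_pr (q j l : ℕ) : ℕ :=
  if 2 ≤ l then 3 + q * j + (l - 2)
  else if l = 0 then (if j = 0 then 0 else 3 + q * (j - 1))
  else (if j = 0 then 1 else if j = 1 then 2 else 3 + q * (j - 2) + 1)

/-- the sides -/
def TB_sd (j l : ℕ) : Bool :=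
  if 2 ≤ l then true
  else if l = 0 then (if j = 0 then true else false)
  else (if j ≤ 1 then true else false)

private theorem TB_m1 (q j : ℕ) (h : 1 ≤ j) : q * (j - 1) + q = q * j := by
  obtain ⟨i, rfl⟩ : ∃ i, j = i + 1 := ⟨j - 1, by omega⟩
  rw [Nat.add_sub_cancel]
  ring

private theorem TB_m2 (q j : ℕ) (h : 2 ≤ j) : q * (j - 2) + 2 * q = q * j := by
  obtain ⟨i, rfl⟩ : ∃ i, j = i + 2 := ⟨j - 2, by omega⟩
  rw [Nat.add_sub_cancel]
  ring

private theorem TB_m3 (q j' j : ℕ) (h : j' + 3 ≤ j) : q * j' + 3 * q ≤ q * j := by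
  have h1 := Nat.mul_le_mul_left q h
  have h2 : q * (j' + 3) = q * j' + 3 * q := by ring
  omega

/-- the coincidences -/
theorem TB_key (q j' j l' l : ℕ) (hq : 2 ≤ q) (hj : j' < j) (hl : l < q + 2) (hl' : l' < q + 2)
    (h : TB_pr q j' l' = TB_pr q j l) :
    (l = 0 ∧ j' + 1 = j ∧ l' = 2) ∨ (l = 1 ∧ j' + 2 = j ∧ l' = 3) := by
  have a1 := TB_m1 q j (by omega)
  have a2 : 2 ≤ j → q * (j - 2) + 2 * q = q * j := TB_m2 q j
  have b1 : 1 ≤ j' → q * (j' - 1) + q = q * j' := TB_m1 q j'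
  have b2 : 2 ≤ j' → q * (j' - 2) + 2 * q = q * j' := TB_m2 q j'
  have c1 : j' + 1 = j → q * j' + q = q * j := by
    rintro rfl
    ring
  have c2 : j' + 2 = j → q * j' + 2 * q = q * j := by
    rintro rfl
    ring
  have c3 : j' + 3 ≤ j → q * j' + 3 * q ≤ q * j := TB_m3 q j' j
  have z1 : j' = 0 → q * j' = 0 := by
    rintro rfl
    ring
  unfold TB_pr at h
  generalize q * (j - 1) = A1 at *
  generalize q * (j - 2) = A2 at *
  generalize q * (j' - 1) = B1 at *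
  generalize q * (j' - 2) = B2 at *
  generalize q * j = A at *
  generalize q * j' = B at *
  have hd : j' + 1 = j ∨ j' + 2 = j ∨ j' + 3 ≤ j := by omega
  split_ifs at h <;> rcases hd with hd | hd | hd <;> omega

/-- (TB) -/
theorem thm_TB : St_TB := by
  intro δ t h hh ht
  obtain ⟨q, rfl⟩ : ∃ q, h = q + 2 := ⟨h - 2, by omega⟩
  have hq : 2 ≤ q := by omega
  rw [Nat.add_sub_cancel] at ht
  have hsd : ∀ j' j l' l : ℕ, j' < j → l < q + 2 → l' < q + 2 → TB_pr q j' l' = TB_pr q j l →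
      TB_sd j' l' ≠ TB_sd j l := by
    intro j' j l' l hj hl hl' he
    rcases TB_key q j' j l' l hq hj hl hl' he with ⟨rfl, h2, rfl⟩ | ⟨rfl, h2, rfl⟩
    · have hj0 : j ≠ 0 := by omega
      simp [TB_sd, hj0]
    · have hj0 : ¬ j ≤ 1 := by omega
      simp [TB_sd, hj0]
  refine ⟨TB_pr q, TB_sd, fun j => j, ?_, ?_, ?_, ?_, ?_, ?_⟩
  · intro j hj l hl
    have h1 : q * j + q ≤ q * δ := by
      have h2 := Nat.mul_le_mul_left q (Nat.succ_le_of_lt hj)
      have h3 : q * (j + 1) = q * j + q := by ring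
      rw [← h3]
      exact h2
    have h2 : q * δ + 3 ≤ t := ht
    have a1 : 1 ≤ j → q * (j - 1) + q = q * j := TB_m1 q j
    have a2 : 2 ≤ j → q * (j - 2) + 2 * q = q * j := TB_m2 q j
    unfold TB_pr
    generalize q * (j - 1) = A1 at *
    generalize q * (j - 2) = A2 at *
    generalize q * δ = D at *
    generalize q * j = A at *
    split_ifs <;> omega
  · intro j hj l hl l' hl' he
    have a1 : 1 ≤ j → q * (j - 1) + q = q * j := TB_m1 q j
    have a2 : 2 ≤ j → q * (j - 2) + 2 * q = q * j := TB_m2 q j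
    unfold TB_pr at he
    generalize q * (j - 1) = A1 at *
    generalize q * (j - 2) = A2 at *
    generalize q * j = A at *
    split_ifs at he <;> omega
  · intro j hj l hl j' hj' l' hl' he hs
    exact absurd hs (hsd j' j l' l hj' hl hl' he)
  · intro j hj l₁ hl₁ l₂ hl₂ l₃ hl₃ j₁ hj₁ j₂ hj₂ j₃ hj₃ m₁ hm₁ m₂ hm₂ m₃ hm₃ h1 h2 h3
    have k1 := TB_key q j₁ j m₁ l₁ hq hj₁ hl₁ hm₁ h1
    have k2 := TB_key q j₂ j m₂ l₂ hq hj₂ hl₂ hm₂ h2
    have k3 := TB_key q j₃ j m₃ l₃ hq hj₃ hl₃ hm₃ h3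
    omega
  · intro j hj j' hj' l hl l' hl' he hs
    exact absurd hs (hsd j' j l' l hj' hl hl' he)
  · intro j hj l₁ hl₁ l₂ hl₂ hne a ha b hb la hla lb hlb h1 h2
    have k1 := TB_key q a j la l₁ hq ha hl₁ hla h1
    have k2 := TB_key q b j lb l₂ hq hb hl₂ hlb h2
    show a ≠ b
    omega

end Pool.Agent.UBX
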